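import Pool.Agent.Schreier60.Ops

set_option autoImplicit false

namespace Pool.Agent.Schreier60

open Equiv Equiv.Perm

/-- A decorated even rectangle together with a frame. -/
structure StdBox (g : Perm V) (p q r t : ℤ) (s : Perm V) : Prop where
  aut : IsAut g
  hp : p % 2 = 0
  hq : q % 2 = 0
  hr : r % 2 = 0
  ht : t % 2 = 0
  hpq : p < q
  hrt : r < t
  dec : Dec (Rect p q r t) blk s

lemma cfr_inv_image {k p q r t : ℤ} :
    ((cfr k)⁻¹ : Perm V) '' Rect (p - k) (q + k) (r - 1) (t + 1) = Rect r (t + 2) p (q + 2 * k) := by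
  ext ⟨x, y⟩
  constructor
  · rintro ⟨⟨x', y'⟩, h, h'⟩
    rw [cfr_inv_apply, Prod.mk.injEq] at h'
    rw [mem_rect] at h ⊢
    dsimp only at h ⊢
    omega
  · intro h
    refine ⟨cfr k (x, y), ?_, by simp⟩
    rw [cfr_apply, mem_rect]
    rw [mem_rect] at h
    dsimp only at h ⊢
    omega

lemma image_mul (g h : Perm V) (K : Set V) : (g * h) '' K = g '' (h '' K) := by
  ext v
  simp only [Set.mem_image, Perm.mul_apply, exists_exists_and_eq_and]

lemma conj_mul (g h s : Perm V) : (g * h) * s * (g * h)⁻¹ = g * (h * s * h⁻¹) * g⁻¹ := by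
  group

lemma StdBox.step {g : Perm V} {p q r t : ℤ} {s : Perm V} (h : StdBox g p q r t s) {k : ℤ}
    (hk : k = 1 ∨ k = 4) :
    ∃ s' : Perm V, StdBox (g * cfr k) r (t + 2) p (q + 2 * k) s' ∧
      Ext (g '' Rect p q r t) (g * s * g⁻¹) ((g * cfr k) '' Rect r (t + 2) p (q + 2 * k))
        ((g * cfr k) * s' * (g * cfr k)⁻¹) ∧
      (∀ v ∈ (g * cfr k) '' Rect r (t + 2) p (q + 2 * k), ∃ u ∈ g '' Rect p q r t, Near k v u) := by
  have hex : ∃ s' : Perm V, Dec (Rect (p - k) (q + k) (r - 1) (t + 1)) (blkm k) s' ∧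
      Ext (Rect p q r t) s (Rect (p - k) (q + k) (r - 1) (t + 1)) s' := by
    rcases hk with rfl | rfl
    · exact op0 h.hp h.hq h.hr h.ht h.hpq h.hrt h.dec
    · exact op3 h.hp h.hq h.hr h.ht h.hpq h.hrt h.dec
  obtain ⟨s₁, d₁, e₁⟩ := hex
  have himg : (g * cfr k) '' Rect r (t + 2) p (q + 2 * k)
      = g '' Rect (p - k) (q + k) (r - 1) (t + 1) := by
    rw [image_mul, ← cfr_inv_image (k := k), ← image_mul (cfr k), mul_inv_cancel]
    simp
  have hperm : (g * cfr k) * ((cfr k)⁻¹ * s₁ * ((cfr k)⁻¹)⁻¹) * (g * cfr k)⁻¹ = g * s₁ * g⁻¹ := by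
    group
  refine ⟨(cfr k)⁻¹ * s₁ * ((cfr k)⁻¹)⁻¹, ?_, ?_, ?_⟩
  · refine ⟨h.aut.mul (isAut_cfr k), h.hr, by have := h.ht; omega, h.hp, by have := h.hq; omega,
      by have := h.hrt; omega, by have := h.hpq; omega, ?_⟩
    have := d₁.conj (isAut_cfr k).inv
    rw [cfr_inv_image] at this
    convert this using 1
    unfold blkm
    group
  · rw [himg, hperm]
    exact e₁.conj h.aut
  · rw [himg]
    rintro _ ⟨⟨x, y⟩, hv, rfl⟩
    rw [mem_rect] at hv
    dsimp only at hv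
    have hpq := h.hpq
    have hrt := h.hrt
    refine ⟨g (max p (min x (q - 1)), max r (min y (t - 1))), ⟨_, ?_, rfl⟩, ?_⟩
    · rw [mem_rect]
      dsimp only
      omega
    · rw [h.aut.near]
      unfold Near
      dsimp only
      omega

/-- Commutation with the block rotation. -/
def Comm (g : Perm V) : Prop := ∀ v, g (blk v) = blk (g v)

lemma comm_rot0 {g : Perm V} {t₁ t₂ : ℤ} (H : ∀ x y : ℤ, g (x, y) = (t₁ + x, t₂ + y))
    (h1 : t₁ % 2 = 0) (h2 : t₂ % 2 = 0) : Comm g := by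
  rintro ⟨x, y⟩
  rcases Int.emod_two_eq_zero_or_one x with hx | hx <;>
    rcases Int.emod_two_eq_zero_or_one y with hy | hy
  · rw [blk_ee hx hy, H, H, blk_ee (by omega) (by omega)]; ext <;> dsimp only <;> ring
  · rw [blk_eo hx hy, H, H, blk_eo (by omega) (by omega)]; ext <;> dsimp only <;> ring
  · rw [blk_oe hx hy, H, H, blk_oe (by omega) (by omega)]; ext <;> dsimp only <;> ring
  · rw [blk_oo hx hy, H, H, blk_oo (by omega) (by omega)]; ext <;> dsimp only <;> ring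

lemma comm_rot1 {g : Perm V} {t₁ t₂ : ℤ} (H : ∀ x y : ℤ, g (x, y) = (t₁ - y, t₂ + x))
    (h1 : t₁ % 2 = 1) (h2 : t₂ % 2 = 0) : Comm g := by
  rintro ⟨x, y⟩
  rcases Int.emod_two_eq_zero_or_one x with hx | hx <;>
    rcases Int.emod_two_eq_zero_or_one y with hy | hy
  · rw [blk_ee hx hy, H, H, blk_oe (by omega) (by omega)]; ext <;> dsimp only <;> ring
  · rw [blk_eo hx hy, H, H, blk_ee (by omega) (by omega)]; ext <;> dsimp only <;> ring
  · rw [blk_oe hx hy, H, H, blk_oo (by omega) (by omega)]; ext <;> dsimp only <;> ring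
  · rw [blk_oo hx hy, H, H, blk_eo (by omega) (by omega)]; ext <;> dsimp only <;> ring

lemma comm_rot2 {g : Perm V} {t₁ t₂ : ℤ} (H : ∀ x y : ℤ, g (x, y) = (t₁ - x, t₂ - y))
    (h1 : t₁ % 2 = 1) (h2 : t₂ % 2 = 1) : Comm g := by
  rintro ⟨x, y⟩
  rcases Int.emod_two_eq_zero_or_one x with hx | hx <;>
    rcases Int.emod_two_eq_zero_or_one y with hy | hy
  · rw [blk_ee hx hy, H, H, blk_oo (by omega) (by omega)]; ext <;> dsimp only <;> ring
  · rw [blk_eo hx hy, H, H, blk_oe (by omega) (by omega)]; ext <;> dsimp only <;> ring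
  · rw [blk_oe hx hy, H, H, blk_eo (by omega) (by omega)]; ext <;> dsimp only <;> ring
  · rw [blk_oo hx hy, H, H, blk_ee (by omega) (by omega)]; ext <;> dsimp only <;> ring

lemma comm_rot3 {g : Perm V} {t₁ t₂ : ℤ} (H : ∀ x y : ℤ, g (x, y) = (t₁ + y, t₂ - x))
    (h1 : t₁ % 2 = 0) (h2 : t₂ % 2 = 1) : Comm g := by
  rintro ⟨x, y⟩
  rcases Int.emod_two_eq_zero_or_one x with hx | hx <;>
    rcases Int.emod_two_eq_zero_or_one y with hy | hy
  · rw [blk_ee hx hy, H, H, blk_eo (by omega) (by omega)]; ext <;> dsimp only <;> ring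
  · rw [blk_eo hx hy, H, H, blk_oo (by omega) (by omega)]; ext <;> dsimp only <;> ring
  · rw [blk_oe hx hy, H, H, blk_ee (by omega) (by omega)]; ext <;> dsimp only <;> ring
  · rw [blk_oo hx hy, H, H, blk_oe (by omega) (by omega)]; ext <;> dsimp only <;> ring

lemma cfr14 (x y : ℤ) : (cfr 1 * cfr 4) (x, y) = (x - 2, y - 5) := by
  rw [Perm.mul_apply, cfr_apply, cfr_apply]; ext <;> (dsimp only; ring)
lemma cfr41 (x y : ℤ) : (cfr 4 * cfr 1) (x, y) = (x - 5, y - 2) := by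
  rw [Perm.mul_apply, cfr_apply, cfr_apply]; ext <;> (dsimp only; ring)
lemma cfr44 (x y : ℤ) : (cfr 4 * cfr 4) (x, y) = (x - 5, y - 5) := by
  rw [Perm.mul_apply, cfr_apply, cfr_apply]; ext <;> (dsimp only; ring)

/-- Orientation preserving automorphisms: some translation word makes them commute with `blk`. -/
lemma comm_word {g : Perm V} {a b c d t₁ t₂ : ℤ}
    (hc : (a = 1 ∧ b = 0 ∧ c = 0 ∧ d = 1) ∨ (a = 0 ∧ b = -1 ∧ c = 1 ∧ d = 0) ∨
      (a = -1 ∧ b = 0 ∧ c = 0 ∧ d = -1) ∨ (a = 0 ∧ b = 1 ∧ c = -1 ∧ d = 0))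
    (H : ∀ x y : ℤ, g (x, y) = (t₁ + a * x + b * y, t₂ + c * x + d * y)) :
    Comm g ∨ Comm (g * (cfr 1 * cfr 4)) ∨ Comm (g * (cfr 4 * cfr 1)) ∨
      Comm (g * (cfr 4 * cfr 4)) := by
  have H14 : ∀ x y : ℤ, (g * (cfr 1 * cfr 4)) (x, y)
      = (t₁ + a * (x - 2) + b * (y - 5), t₂ + c * (x - 2) + d * (y - 5)) := by
    intro x y; rw [Perm.mul_apply, cfr14, H]
  have H41 : ∀ x y : ℤ, (g * (cfr 4 * cfr 1)) (x, y)
      = (t₁ + a * (x - 5) + b * (y - 2), t₂ + c * (x - 5) + d * (y - 2)) := by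
    intro x y; rw [Perm.mul_apply, cfr41, H]
  have H44 : ∀ x y : ℤ, (g * (cfr 4 * cfr 4)) (x, y)
      = (t₁ + a * (x - 5) + b * (y - 5), t₂ + c * (x - 5) + d * (y - 5)) := by
    intro x y; rw [Perm.mul_apply, cfr44, H]
  rcases hc with ⟨rfl, rfl, rfl, rfl⟩ | ⟨rfl, rfl, rfl, rfl⟩ | ⟨rfl, rfl, rfl, rfl⟩ |
    ⟨rfl, rfl, rfl, rfl⟩ <;>
    rcases Int.emod_two_eq_zero_or_one t₁ with h1 | h1 <;>
    rcases Int.emod_two_eq_zero_or_one t₂ with h2 | h2
  · exact Or.inl (comm_rot0 (t₁ := t₁) (t₂ := t₂) (fun x y => by rw [H]; ext <;> (dsimp only; ring)) h1 h2)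
  · exact Or.inr (Or.inl (comm_rot0 (t₁ := t₁ - 2) (t₂ := t₂ - 5)
      (fun x y => by rw [H14]; ext <;> (dsimp only; ring)) (by omega) (by omega)))
  · exact Or.inr (Or.inr (Or.inl (comm_rot0 (t₁ := t₁ - 5) (t₂ := t₂ - 2)
      (fun x y => by rw [H41]; ext <;> (dsimp only; ring)) (by omega) (by omega))))
  · exact Or.inr (Or.inr (Or.inr (comm_rot0 (t₁ := t₁ - 5) (t₂ := t₂ - 5)
      (fun x y => by rw [H44]; ext <;> (dsimp only; ring)) (by omega) (by omega))))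
  -- rotation by 90 degrees: need t₁ odd, t₂ even
  · exact Or.inr (Or.inl (comm_rot1 (t₁ := t₁ + 5) (t₂ := t₂ - 2)
      (fun x y => by rw [H14]; ext <;> (dsimp only; ring)) (by omega) (by omega)))
  · exact Or.inr (Or.inr (Or.inr (comm_rot1 (t₁ := t₁ + 5) (t₂ := t₂ - 5)
      (fun x y => by rw [H44]; ext <;> (dsimp only; ring)) (by omega) (by omega))))
  · exact Or.inl (comm_rot1 (t₁ := t₁) (t₂ := t₂) (fun x y => by rw [H]; ext <;> (dsimp only; ring)) h1 h2)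
  · exact Or.inr (Or.inr (Or.inl (comm_rot1 (t₁ := t₁ + 2) (t₂ := t₂ - 5)
      (fun x y => by rw [H41]; ext <;> (dsimp only; ring)) (by omega) (by omega))))
  -- rotation by 180 degrees: need both odd
  · exact Or.inr (Or.inr (Or.inr (comm_rot2 (t₁ := t₁ + 5) (t₂ := t₂ + 5)
      (fun x y => by rw [H44]; ext <;> (dsimp only; ring)) (by omega) (by omega))))
  · exact Or.inr (Or.inr (Or.inl (comm_rot2 (t₁ := t₁ + 5) (t₂ := t₂ + 2)
      (fun x y => by rw [H41]; ext <;> (dsimp only; ring)) (by omega) (by omega))))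
  · exact Or.inr (Or.inl (comm_rot2 (t₁ := t₁ + 2) (t₂ := t₂ + 5)
      (fun x y => by rw [H14]; ext <;> (dsimp only; ring)) (by omega) (by omega)))
  · exact Or.inl (comm_rot2 (t₁ := t₁) (t₂ := t₂) (fun x y => by rw [H]; ext <;> (dsimp only; ring)) h1 h2)
  -- rotation by 270 degrees: need t₁ even, t₂ odd
  · exact Or.inr (Or.inr (Or.inl (comm_rot3 (t₁ := t₁ - 2) (t₂ := t₂ + 5)
      (fun x y => by rw [H41]; ext <;> (dsimp only; ring)) (by omega) (by omega))))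
  · exact Or.inl (comm_rot3 (t₁ := t₁) (t₂ := t₂) (fun x y => by rw [H]; ext <;> (dsimp only; ring)) h1 h2)
  · exact Or.inr (Or.inr (Or.inr (comm_rot3 (t₁ := t₁ - 5) (t₂ := t₂ + 5)
      (fun x y => by rw [H44]; ext <;> (dsimp only; ring)) (by omega) (by omega))))
  · exact Or.inr (Or.inl (comm_rot3 (t₁ := t₁ - 5) (t₂ := t₂ + 2)
      (fun x y => by rw [H14]; ext <;> (dsimp only; ring)) (by omega) (by omega)))

lemma bd_rect_nonempty {p q r t : ℤ} (hpq : p < q) (hrt : r < t) : (bd (Rect p q r t)).Nonempty :=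
  ⟨(p, r), by rw [mem_bd_rect, mem_rect]; dsimp only; omega⟩

/-- The conclusion of alignment. -/
structure Aligned (K : Set V) (s : Perm V) (m : ℤ) (K' : Set V) (s' : Perm V) : Prop where
  dec : Dec K' blk s'
  ext : Ext K s K' s'
  near : ∀ v ∈ K', ∃ u ∈ K, Near m v u
  blk_mem : ∀ v, v ∈ K' ↔ blk v ∈ K'
  ne : (bd K').Nonempty

lemma blk_mem_rect {p q r t : ℤ} (hp : p % 2 = 0) (hq : q % 2 = 0) (hr : r % 2 = 0)
    (ht : t % 2 = 0) (v : V) : v ∈ Rect p q r t ↔ blk v ∈ Rect p q r t := by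
  obtain ⟨x, y⟩ := v
  rcases Int.emod_two_eq_zero_or_one x with hx | hx <;>
    rcases Int.emod_two_eq_zero_or_one y with hy | hy
  · rw [blk_ee hx hy, mem_rect, mem_rect]; dsimp only; omega
  · rw [blk_eo hx hy, mem_rect, mem_rect]; dsimp only; omega
  · rw [blk_oe hx hy, mem_rect, mem_rect]; dsimp only; omega
  · rw [blk_oo hx hy, mem_rect, mem_rect]; dsimp only; omega

lemma StdBox.aligned_of_comm {g : Perm V} {p q r t : ℤ} {s : Perm V} (h : StdBox g p q r t s)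
    (hg : Comm g) : Aligned (g '' Rect p q r t) (g * s * g⁻¹) 0 (g '' Rect p q r t)
      (g * s * g⁻¹) where
  dec := by
    have := h.dec.conj h.aut
    have e : g * blk * g⁻¹ = blk := by
      ext1 v
      have : g * blk = blk * g := by ext1 v; exact hg v
      rw [this, mul_assoc, mul_inv_cancel, mul_one]
    rwa [e] at this
  ext := ⟨subset_rfl, fun _ _ _ => rfl, fun _ _ _ _ h' => h', by
    have := (h.dec.conj h.aut).cyc
    exact this⟩
  near v hv := ⟨v, hv, near_refl le_rfl v⟩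
  blk_mem v := by
    constructor
    · rintro ⟨u, hu, rfl⟩
      exact ⟨blk u, (blk_mem_rect h.hp h.hq h.hr h.ht u).1 hu, hg u⟩
    · rintro ⟨u, hu, hu'⟩
      refine ⟨blk⁻¹ u, ?_, ?_⟩
      · rw [blk_mem_rect h.hp h.hq h.hr h.ht]; simpa using hu
      · apply blk.injective
        rw [← hg]
        simpa using hu'
  ne := by
    rw [bd_image h.aut]
    exact (bd_rect_nonempty h.hpq h.hrt).image _

lemma Aligned.of_ext {K K₁ K' : Set V} {s s₁ s' : Perm V} {m k : ℤ} (h : Aligned K₁ s₁ m K' s')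
    (he : Ext K s K₁ s₁) (hne : (bd K₁).Nonempty) (hn : ∀ v ∈ K₁, ∃ u ∈ K, Near k v u) :
    Aligned K s (m + k) K' s' where
  dec := h.dec
  ext := he.trans h.ext hne
  near v hv := by
    obtain ⟨u, hu, hu'⟩ := h.near v hv
    obtain ⟨w, hw, hw'⟩ := hn u hu
    exact ⟨w, hw, hu'.trans hw'⟩
  blk_mem := h.blk_mem
  ne := h.ne

lemma StdBox.bd_nonempty {g : Perm V} {p q r t : ℤ} {s : Perm V} (h : StdBox g p q r t s) :
    (bd (g '' Rect p q r t)).Nonempty := by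
  rw [bd_image h.aut]; exact (bd_rect_nonempty h.hpq h.hrt).image _

lemma Aligned.mono {K K' : Set V} {s s' : Perm V} {m m' : ℤ} (h : Aligned K s m K' s')
    (hm : m ≤ m') : Aligned K s m' K' s' :=
  ⟨h.dec, h.ext, fun v hv => by
    obtain ⟨u, hu, hu'⟩ := h.near v hv
    exact ⟨u, hu, hu'.mono hm⟩, h.blk_mem, h.ne⟩

lemma StdBox.align_pos {g : Perm V} {p q r t : ℤ} {s : Perm V} (h : StdBox g p q r t s)
    {a b c d t₁ t₂ : ℤ}
    (hc : (a = 1 ∧ b = 0 ∧ c = 0 ∧ d = 1) ∨ (a = 0 ∧ b = -1 ∧ c = 1 ∧ d = 0) ∨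
      (a = -1 ∧ b = 0 ∧ c = 0 ∧ d = -1) ∨ (a = 0 ∧ b = 1 ∧ c = -1 ∧ d = 0))
    (H : ∀ x y : ℤ, g (x, y) = (t₁ + a * x + b * y, t₂ + c * x + d * y)) :
    ∃ (K' : Set V) (s' : Perm V), Aligned (g '' Rect p q r t) (g * s * g⁻¹) 8 K' s' := by
  have two : ∀ k k' : ℤ, (k = 1 ∨ k = 4) → (k' = 1 ∨ k' = 4) → Comm (g * (cfr k * cfr k')) →
      ∃ (K' : Set V) (s' : Perm V), Aligned (g '' Rect p q r t) (g * s * g⁻¹) 8 K' s' := by
    intro k k' hk hk' hcomm
    obtain ⟨s₁, b₁, e₁, n₁⟩ := h.step hk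
    obtain ⟨s₂, b₂, e₂, n₂⟩ := b₁.step hk'
    rw [mul_assoc] at b₂ e₂ n₂
    have a₂ := b₂.aligned_of_comm hcomm
    have a₁ := a₂.of_ext e₂ b₂.bd_nonempty n₂
    have a₀ := a₁.of_ext e₁ b₁.bd_nonempty n₁
    exact ⟨_, _, a₀.mono (by omega)⟩
  rcases comm_word hc H with hcomm | hcomm | hcomm | hcomm
  · exact ⟨_, _, (h.aligned_of_comm hcomm).mono (by norm_num)⟩
  · exact two 1 4 (Or.inl rfl) (Or.inr rfl) hcomm
  · exact two 4 1 (Or.inr rfl) (Or.inl rfl) hcomm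
  · exact two 4 4 (Or.inr rfl) (Or.inr rfl) hcomm

/-- **Alignment**: a decorated box in any position and of any chirality sits in a slightly larger
decorated set which is aligned with the block rotation `blk`. -/
theorem StdBox.align {g : Perm V} {p q r t : ℤ} {s : Perm V} (h : StdBox g p q r t s) :
    ∃ (K' : Set V) (s' : Perm V), Aligned (g '' Rect p q r t) (g * s * g⁻¹) 12 K' s' := by
  obtain ⟨a, b, c, d, t₁, t₂, hc, H⟩ := h.aut.classify
  by_cases hpos : (a = 1 ∧ b = 0 ∧ c = 0 ∧ d = 1) ∨ (a = 0 ∧ b = -1 ∧ c = 1 ∧ d = 0) ∨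
      (a = -1 ∧ b = 0 ∧ c = 0 ∧ d = -1) ∨ (a = 0 ∧ b = 1 ∧ c = -1 ∧ d = 0)
  · obtain ⟨K', s', h'⟩ := h.align_pos hpos H
    exact ⟨K', s', h'.mono (by norm_num)⟩
  · obtain ⟨s₁, b₁, e₁, n₁⟩ := h.step (k := 1) (Or.inl rfl)
    have H' : ∀ x y : ℤ, (g * cfr 1) (x, y)
        = ((t₁ - a - b) + b * x + a * y, (t₂ - c - d) + d * x + c * y) := by
      intro x y
      rw [Perm.mul_apply, cfr_apply, H]; ext <;> (dsimp only; ring)
    have hpos' : (b = 1 ∧ a = 0 ∧ d = 0 ∧ c = 1) ∨ (b = 0 ∧ a = -1 ∧ d = 1 ∧ c = 0) ∨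
      (b = -1 ∧ a = 0 ∧ d = 0 ∧ c = -1) ∨ (b = 0 ∧ a = 1 ∧ d = -1 ∧ c = 0) := by
      clear H H' n₁ e₁ b₁ h
      rcases hc with ⟨rfl | rfl, rfl, rfl, rfl | rfl⟩ | ⟨rfl, rfl | rfl, rfl | rfl, rfl⟩ <;>
        first | (exfalso; norm_num at hpos; done) | norm_num
    obtain ⟨K', s', h'⟩ := b₁.align_pos hpos' H'
    exact ⟨K', s', (h'.of_ext e₁ b₁.bd_nonempty n₁).mono (by norm_num)⟩

end Pool.Agent.Schreier60
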