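import Pool.Agent.Schreier60.Align

set_option autoImplicit false

namespace Pool.Agent.Schreier60

open Equiv Equiv.Perm

/-- Gluing an arbitrary family of permutations with pairwise disjoint supports. -/
lemma glueAll {ι : Type*} {O : ι → Set V} {σ : ι → Perm V} (hσ : ∀ i, ∀ v ∉ O i, σ i v = v)
    (hd : ∀ i j, ∀ v, v ∈ O i → v ∈ O j → i = j) :
    ∃ p : Perm V, (∀ i, ∀ v ∈ O i, p v = σ i v) ∧ (∀ v, (∀ i, v ∉ O i) → p v = v) ∧
      (∀ i u v, (σ i).SameCycle u v → p.SameCycle u v) := by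
  classical
  have hmem : ∀ i v, v ∈ O i → σ i v ∈ O i := fun i v hv => supp_image_mem (hσ i) hv
  have hmem' : ∀ i v, v ∈ O i → (σ i).symm v ∈ O i := by
    intro i v hv
    by_contra hcon
    have := hσ i _ hcon
    rw [Equiv.apply_symm_apply] at this
    rw [← this] at hcon
    exact hcon hv
  let f : V → V := fun v => if h : ∃ i, v ∈ O i then σ h.choose v else v
  let g : V → V := fun v => if h : ∃ i, v ∈ O i then (σ h.choose).symm v else v
  have hf : ∀ i v, v ∈ O i → f v = σ i v := by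
    intro i v hv
    have h : ∃ i, v ∈ O i := ⟨i, hv⟩
    have e : h.choose = i := hd _ _ v h.choose_spec hv
    simp only [f]
    rw [dif_pos h, e]
  have hg : ∀ i v, v ∈ O i → g v = (σ i).symm v := by
    intro i v hv
    have h : ∃ i, v ∈ O i := ⟨i, hv⟩
    have e : h.choose = i := hd _ _ v h.choose_spec hv
    simp only [g]
    rw [dif_pos h, e]
  have hf0 : ∀ v, (∀ i, v ∉ O i) → f v = v := by
    intro v hv
    simp only [f]
    rw [dif_neg (by push Not; exact hv)]
  have hg0 : ∀ v, (∀ i, v ∉ O i) → g v = v := by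
    intro v hv
    simp only [g]
    rw [dif_neg (by push Not; exact hv)]
  have hfg : ∀ v, f (g v) = v := by
    intro v
    by_cases h : ∃ i, v ∈ O i
    · obtain ⟨i, hi⟩ := h
      rw [hg i v hi, hf i _ (hmem' i v hi), Equiv.apply_symm_apply]
    · push Not at h
      rw [hg0 v h, hf0 v h]
  have hgf : ∀ v, g (f v) = v := by
    intro v
    by_cases h : ∃ i, v ∈ O i
    · obtain ⟨i, hi⟩ := h
      rw [hf i v hi, hg i _ (hmem i v hi), Equiv.symm_apply_apply]
    · push Not at h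
      rw [hf0 v h, hg0 v h]
  let p : Perm V := ⟨f, g, hgf, hfg⟩
  refine ⟨p, hf, hf0, ?_⟩
  intro i u v huv
  refine sameCycle_of_step (fun y => ?_) huv
  by_cases hy : y ∈ O i
  · have : p y = σ i y := hf i y hy
    rw [← this]
    exact ⟨1, by simp⟩
  · rw [hσ i y hy]

/-- Block invariance in coordinates. -/
lemma blk_inv {O : Set V} (h : ∀ v, v ∈ O ↔ blk v ∈ O) {X Y : ℤ} (hX : X % 2 = 0)
    (hY : Y % 2 = 0) : ((X + 1, Y) ∈ O ↔ (X, Y) ∈ O) ∧ ((X + 1, Y + 1) ∈ O ↔ (X, Y) ∈ O) ∧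
      ((X, Y + 1) ∈ O ↔ (X, Y) ∈ O) := by
  have h1 := h (X, Y)
  have h2 := h (X + 1, Y)
  have h3 := h (X, Y + 1)
  rw [blk_ee hX hY] at h1
  rw [blk_oe (by omega) hY] at h2
  rw [blk_eo hX (by omega), add_sub_cancel_right] at h3
  exact ⟨h1.symm, h2.symm.trans h1.symm, h3⟩

/-- A finite nonempty block-invariant set has a leftmost even point. -/
lemma leftmost {O : Set V} (h : ∀ v, v ∈ O ↔ blk v ∈ O) (hf : O.Finite) (hne : O.Nonempty) :
    ∃ X Y : ℤ, X % 2 = 0 ∧ Y % 2 = 0 ∧ (X, Y) ∈ O ∧ ∀ v ∈ O, X ≤ v.1 := by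
  obtain ⟨⟨x, y⟩, hxy, hmin⟩ := Set.exists_min_image O Prod.fst hf hne
  dsimp only at hmin
  rcases Int.emod_two_eq_zero_or_one x with hx | hx <;>
    rcases Int.emod_two_eq_zero_or_one y with hy | hy
  · exact ⟨x, y, hx, hy, hxy, hmin⟩
  · have := blk_inv h hx (Y := y - 1) (by omega)
    refine ⟨x, y - 1, hx, by omega, ?_, hmin⟩
    rw [← this.2.2]; simpa using hxy
  · have := blk_inv h (X := x - 1) (Y := y) (by omega) hy
    have h' := this.1.1 (by simpa using hxy)
    have := hmin _ h'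
    dsimp only at this
    omega
  · have := blk_inv h (X := x - 1) (Y := y - 1) (by omega) (by omega)
    have h' := this.2.1.1 (by simpa using hxy)
    have := hmin _ h'
    dsimp only at this
    omega

/-- **Assembly**: filling an even rectangle with `2 × 2` blocks around decorated block-invariant
holes, adding a ring, and linking everything to the ring. -/
theorem assemble {ι : Type*} {P Q R T : ℤ} (hP : P % 2 = 0) (hQ : Q % 2 = 0) (hR : R % 2 = 0)
    (hT : T % 2 = 0) (hPQ : P < Q) (hRT : R < T) (O : ι → Set V) (σ : ι → Perm V)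
    (hsub : ∀ i, O i ⊆ Rect (P + 2) (Q - 2) (R + 2) (T - 2))
    (hd : ∀ i j v, v ∈ O i → v ∈ O j → i = j)
    (hblk : ∀ i v, v ∈ O i ↔ blk v ∈ O i)
    (hdec : ∀ i, Dec (O i) blk (σ i)) :
    ∃ s : Perm V, Dec (Rect (P - 1) (Q + 1) (R - 1) (T + 1)) (blkm 1) s ∧
      (∀ i, Ext (O i) (σ i) (Rect (P - 1) (Q + 1) (R - 1) (T + 1)) s) ∧
      (∀ v ∈ Rect (P + 1) (Q - 1) (R + 1) (T - 1), ∀ w ∉ Rect (P + 1) (Q - 1) (R + 1) (T - 1),
        Adj v w → s v = w ∨ s w = v) := by
  classical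
  have hAB : P - 1 < Q + 1 - 1 := by omega
  have hCD : R - 1 < T := by omega
  set ρ := ringPerm (P - 1) (Q + 1 - 1) (R - 1) T hAB hCD with hρ
  set G := Ring (P - 1) (Q + 1 - 1) (R - 1) T with hG
  set U : Set V := {v | v ∈ Rect P Q R T ∧ ∀ i, v ∉ O i} with hU
  have hρout : ∀ v ∉ G, ρ v = v := fun v hv => ringPerm_notMem hv
  have hUblk : ∀ v, v ∈ U ↔ blk v ∈ U := by
    intro v
    rw [hU, Set.mem_ofPred_eq, Set.mem_ofPred_eq, blk_mem_rect hP hQ hR hT v]
    simp only [hblk _ v]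
  have hOR : ∀ i, ∀ v ∈ O i, v ∈ Rect P Q R T := by
    intro i v hv
    have := hsub i hv
    rw [mem_rect] at this ⊢
    omega
  obtain ⟨p, p1, p2, p3⟩ := glueAll (fun i => (hdec i).out) hd
  have hpo : ∀ v ∉ {v | ∃ i, v ∈ O i}, p v = v := by
    intro v hv
    rw [Set.mem_ofPred_eq] at hv
    push Not at hv
    exact p2 v hv
  have hbU : ∀ v ∉ U, restrict blk U hUblk v = v := fun v hv => restrict_of_notMem hv
  obtain ⟨f1, f2, f3, f4, f5⟩ := glue hbU hpo (fun v hv => by
    rw [Set.mem_ofPred_eq]; push Not; exact hv.2)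
  have hin : ∀ v ∉ Rect P Q R T, (restrict blk U hUblk * p) v = v := by
    intro v hv
    refine f3 v (fun h => hv h.1) ?_
    rintro ⟨i, hi⟩
    exact hv (hOR i v hi)
  obtain ⟨g1, g2, g3, g4, g5⟩ := glue hρout hin (fun v hv hv' => rect_not_ring (k := 1) le_rfl hv' hv)
  set s₀ := ρ * (restrict blk U hUblk * p) with hs₀
  have eG : ∀ v ∈ G, s₀ v = ρ v := g1
  have eU : ∀ v ∈ U, s₀ v = blk v := fun v hv => by
    rw [g2 v hv.1, f1 v hv, restrict_of_mem hv]
  have eO : ∀ i, ∀ v ∈ O i, s₀ v = σ i v := fun i v hv => by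
    rw [g2 v (hOR i v hv), f2 v ⟨i, hv⟩, p1 i v hv]
  have cO : ∀ i u v, (σ i).SameCycle u v → s₀.SameCycle u v := fun i u v huv =>
    g5 _ _ (f5 _ _ (p3 i u v huv))
  have hUG : ∀ v ∈ U, v ∉ G := fun v hv => rect_not_ring (k := 1) le_rfl hv.1
  have hOG : ∀ i, ∀ v ∈ O i, v ∉ G := fun i v hv => rect_not_ring (k := 1) le_rfl (hOR i v hv)
  have hK : ∀ v, v ∈ Rect (P - 1) (Q + 1) (R - 1) (T + 1) ↔ v ∈ G ∨ v ∈ Rect P Q R T := by
    intro v
    rw [hG, mem_rect, mem_ring, mem_rect]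
    omega
  have hsplit : ∀ v, v ∈ Rect P Q R T ↔ v ∈ U ∨ ∃ i, v ∈ O i := by
    intro v
    constructor
    · intro hv
      by_cases h : ∃ i, v ∈ O i
      · exact Or.inr h
      · push Not at h
        exact Or.inl ⟨hv, h⟩
    · rintro (h | ⟨i, h⟩)
      · exact h.1
      · exact hOR i v h
  have hbd : bd (Rect (P - 1) (Q + 1) (R - 1) (T + 1)) = G := bd_eq_ring (k := 1)
  -- the links
  set Ls : Set V := {l | l.1 % 2 = 0 ∧ l.2 % 2 = 0 ∧ P ≤ l.1 ∧ l.1 < Q ∧ R + 2 ≤ l.2 ∧ l.2 < T - 2 ∧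
    ∀ i, ¬ ((l.1 - 1, l.2) ∈ O i ∧ l ∈ O i)} with hLs
  have hLfin : Ls.Finite := (rect_finite P Q R T).subset (by
    rintro l ⟨-, -, h1, h2, h3, h4, -⟩
    rw [mem_rect]; omega)
  set L := hLfin.toFinset with hL
  have hLmem : ∀ l, l ∈ L ↔ l ∈ Ls := fun l => by rw [hL, Set.Finite.mem_toFinset]
  -- facts about a link `(X, Y)`
  have inv1 : ∀ i {X Y : ℤ}, X % 2 = 0 → Y % 2 = 0 →
      ((X - 1, Y + 1) ∈ O i ↔ (X - 1, Y) ∈ O i) ∧ ((X, Y + 1) ∈ O i ↔ (X, Y) ∈ O i) ∧
      ((X - 2, Y) ∈ O i ↔ (X - 1, Y) ∈ O i) := by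
    intro i X Y hX hY
    have a := blk_inv (hblk i) (X := X - 2) (by omega) hY
    have b := blk_inv (hblk i) hX hY
    have e : X - 2 + 1 = X - 1 := by ring
    rw [e] at a
    exact ⟨a.2.1.trans a.1.symm, b.2.2, a.1.symm⟩
  have la_val : ∀ X Y : ℤ, (X, Y) ∈ Ls → s₀ (X - 1, Y) = (X - 1, Y + 1) := by
    rintro X Y ⟨hX, hY, h1, h2, h3, h4, h5⟩
    dsimp only at hX hY h1 h2 h3 h4 h5
    by_cases hXP : X = P
    · subst hXP
      rw [eG _ (by rw [hG, mem_ring]; dsimp only; omega)]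
      exact ringPerm_left (by omega) (by omega)
    · by_cases hO : ∃ i, (X - 1, Y) ∈ O i
      · obtain ⟨i, hi⟩ := hO
        have hno : (X, Y) ∉ O i := fun h => h5 i ⟨hi, h⟩
        have := inv1 i hX hY
        have b1 : (X - 1, Y) ∈ bd (O i) := ⟨hi, (X, Y), by rw [adj_mk]; omega, hno⟩
        have b2 : (X - 1, Y + 1) ∈ bd (O i) :=
          ⟨this.1.2 hi, (X, Y + 1), by rw [adj_mk]; omega, fun h => hno (this.2.1.1 h)⟩
        have e : blk (X - 1, Y) = (X - 1, Y + 1) := blk_oe (by omega) hY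
        rw [eO i _ hi, (hdec i).ring _ b1 (by rw [e]; exact b2), e]
      · push Not at hO
        rw [eU _ ⟨by rw [mem_rect]; dsimp only; omega, hO⟩]
        exact blk_oe (by omega) hY
  have lc_val : ∀ X Y : ℤ, (X, Y) ∈ Ls → s₀ (X, Y + 1) = (X, Y) := by
    rintro X Y ⟨hX, hY, h1, h2, h3, h4, h5⟩
    dsimp only at hX hY h1 h2 h3 h4 h5
    have e : blk (X, Y + 1) = (X, Y) := by rw [blk_eo hX (by omega), add_sub_cancel_right]
    by_cases hO : ∃ i, (X, Y + 1) ∈ O i
    · obtain ⟨i, hi⟩ := hO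
      have := inv1 i hX hY
      have hno : (X - 1, Y) ∉ O i := fun h => h5 i ⟨h, this.2.1.1 hi⟩
      have b1 : (X, Y + 1) ∈ bd (O i) :=
        ⟨hi, (X - 1, Y + 1), by rw [adj_mk]; omega, fun h => hno (this.1.1 h)⟩
      have b2 : (X, Y) ∈ bd (O i) := ⟨this.2.1.1 hi, (X - 1, Y), by rw [adj_mk]; omega, hno⟩
      rw [eO i _ hi, (hdec i).ring _ b1 (by rw [e]; exact b2), e]
    · push Not at hO
      rw [eU _ ⟨by rw [mem_rect]; dsimp only; omega, hO⟩, e]
  obtain ⟨s, c1, c2, c3, c4, c5⟩ := core (Rect (P - 1) (Q + 1) (R - 1) (T + 1))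
    (rect_finite _ _ _ _) s₀
    (by
      intro v hv
      rw [hK] at hv
      push Not at hv
      exact g3 v hv.1 hv.2)
    (by
      intro v hv
      rw [hK, hsplit] at hv
      rcases hv with hv | hv | ⟨i, hv⟩
      · have := ring_adj (hAB := hAB) (hCD := hCD) hv
        rw [eG v hv, eG _ (ring_mem hv)]
        exact this
      · rw [eU v hv, eU _ ((hUblk v).1 hv)]
        obtain ⟨x, y⟩ := v
        rcases Int.emod_two_eq_zero_or_one x with hx | hx <;>
          rcases Int.emod_two_eq_zero_or_one y with hy | hy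
        · rw [blk_ee hx hy, blk_oe (by omega) hy]
          exact ⟨by rw [adj_mk]; omega, ne_of_fst (by dsimp only; omega)⟩
        · rw [blk_eo hx hy, blk_ee hx (by omega)]
          exact ⟨by rw [adj_mk]; omega, ne_of_fst (by dsimp only; omega)⟩
        · rw [blk_oe hx hy, blk_oo hx (by omega)]
          exact ⟨by rw [adj_mk]; omega, ne_of_fst (by dsimp only; omega)⟩
        · rw [blk_oo hx hy, blk_eo (by omega) hy]
          exact ⟨by rw [adj_mk]; omega, ne_of_fst (by dsimp only; omega)⟩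
      · rw [eO i v hv, eO i _ ((hdec i).image_mem.1 hv)]
        exact (hdec i).adj v hv)
    L
    (by
      rintro ⟨X, Y⟩ hl
      rw [hLmem] at hl
      obtain ⟨hX, hY, h1, h2, h3, h4, h5⟩ := hl
      dsimp only at hX hY h1 h2 h3 h4 h5
      refine ⟨?_, ?_, ?_, ?_⟩ <;> simp only [la, lb, lc, ld, mem_rect] <;> omega)
    (by
      rintro ⟨X, Y⟩ hl
      rw [hLmem] at hl
      exact la_val X Y hl)
    (by
      rintro ⟨X, Y⟩ hl
      rw [hLmem] at hl
      exact lc_val X Y hl)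
    (by
      rintro ⟨X, Y⟩ hl
      rw [hLmem] at hl
      obtain ⟨hX, hY, h1, h2, h3, h4, h5⟩ := hl
      dsimp only at hX hY h1 h2 h3 h4 h5
      change s₀ (X, Y) ≠ (X - 1, Y)
      by_cases hO : ∃ i, (X, Y) ∈ O i
      · obtain ⟨i, hi⟩ := hO
        rw [eO i _ hi]
        intro h'
        exact h5 i ⟨h' ▸ (hdec i).image_mem.1 hi, hi⟩
      · push Not at hO
        rw [eU _ ⟨by rw [mem_rect]; dsimp only; omega, hO⟩, blk_ee hX hY]
        exact ne_of_fst (by dsimp only; omega))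
    (by
      rintro ⟨X, Y⟩ hl
      rw [hLmem] at hl
      obtain ⟨hX, hY, h1, h2, h3, h4, h5⟩ := hl
      dsimp only at hX hY h1 h2 h3 h4 h5
      change s₀ (X - 1, Y + 1) ≠ (X, Y + 1)
      by_cases hXP : X = P
      · have hm : (X - 1, Y + 1) ∈ G := by rw [hG, mem_ring]; dsimp only; omega
        rw [eG _ hm]
        intro h'
        have := ring_mem (hAB := hAB) (hCD := hCD) hm
        rw [← hρ, h', mem_ring] at this
        dsimp only at this
        omega
      · by_cases hO : ∃ i, (X - 1, Y + 1) ∈ O i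
        · obtain ⟨i, hi⟩ := hO
          rw [eO i _ hi]
          intro h'
          have := inv1 i hX hY
          exact h5 i ⟨this.1.1 hi, this.2.1.1 (h' ▸ (hdec i).image_mem.1 hi)⟩
        · push Not at hO
          rw [eU _ ⟨by rw [mem_rect]; dsimp only; omega, hO⟩, blk_oo (by omega) (by omega)]
          exact ne_of_fst (by dsimp only; omega))
    (by
      rintro ⟨X, Y⟩ hl ⟨X', Y'⟩ hm
      rw [hLmem] at hl hm
      obtain ⟨hX, hY, -⟩ := hl
      obtain ⟨hX', hY', -⟩ := hm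
      dsimp only at hX hY hX' hY'
      simp only [la, lb, lc, ld]
      refine ⟨?_, ?_, ?_, ?_, ?_⟩ <;> intro h' <;> rw [Prod.mk.injEq] at h' <;> omega)
  -- vertices not touched by the links
  have notlink : ∀ v, (∀ l ∈ Ls, v ≠ (l.1 - 1, l.2) ∧ v ≠ (l.1, l.2 + 1)) → s v = s₀ v := by
    intro v h
    exact c3 v fun l hl => h l ((hLmem l).1 hl)
  have hringcyc : ∀ u ∈ G, ∀ v ∈ G, s.SameCycle u v := fun u hu v hv =>
    c4 u v (g4 u v (ring_sameCycle hu hv))
  -- connectivity
  have corner : (P - 1, R - 1) ∈ G := by rw [hG, mem_ring]; dsimp only; omega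
  have left_in_Ls : ∀ i X Y, X % 2 = 0 → Y % 2 = 0 → (X, Y) ∈ O i → (∀ v ∈ O i, X ≤ v.1) →
      (X, Y) ∈ Ls := by
    intro i X Y hX hY hXY hmin
    have h' := hsub i hXY
    rw [mem_rect] at h'
    dsimp only at h'
    refine ⟨hX, hY, by dsimp only; omega, by dsimp only; omega, by dsimp only; omega,
      by dsimp only; omega, ?_⟩
    rintro j ⟨h1, h2⟩
    have := hd i j _ hXY h2
    subst this
    have := hmin _ h1
    dsimp only at this
    omega
  have conn : ∀ n : ℕ, ∀ X Y : ℤ, (X - P).toNat < n → (X, Y) ∈ Ls →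
      s.SameCycle (P - 1, R - 1) (X, Y) := by
    intro n
    induction n with
    | zero => intro X Y h; omega
    | succ n ih =>
      intro X Y hn hXY
      have hlink : s.SameCycle (X - 1, Y) (X, Y) := c5 (X, Y) ((hLmem _).2 hXY)
      obtain ⟨hX, hY, h1, h2, h3, h4, h5⟩ := hXY
      dsimp only at hX hY h1 h2 h3 h4 h5
      refine SameCycle.trans ?_ hlink
      by_cases hXP : X = P
      · refine hringcyc _ corner _ ?_
        rw [hG, mem_ring]; dsimp only; omega
      · by_cases hO : ∃ i, (X - 1, Y) ∈ O i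
        · obtain ⟨i, hi⟩ := hO
          have hno : (X, Y) ∉ O i := fun h => h5 i ⟨hi, h⟩
          have b1 : (X - 1, Y) ∈ bd (O i) := ⟨hi, (X, Y), by rw [adj_mk]; omega, hno⟩
          obtain ⟨X', Y', hX', hY', hXY', hmin⟩ := leftmost (hblk i)
            ((rect_finite _ _ _ _).subset (hsub i)) ⟨_, hi⟩
          have hlt := hmin _ hi
          dsimp only at hlt
          have hmemLs := left_in_Ls i X' Y' hX' hY' hXY' hmin
          have hP' := hsub i hXY'
          rw [mem_rect] at hP'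
          dsimp only at hP'
          have := ih X' Y' (by omega) hmemLs
          refine this.trans (c4 _ _ (cO i _ _ ?_))
          refine (hdec i).cyc _ ⟨hXY', (X' - 1, Y'), by rw [adj_mk]; omega, fun h => ?_⟩ _ b1
          have := hmin _ h
          dsimp only at this
          omega
        · push Not at hO
          have hO' : ∀ i, (X - 2, Y) ∉ O i := fun i h => hO i ((inv1 i hX hY).2.2.1 h)
          have hmemLs : (X - 2, Y) ∈ Ls := by
            refine ⟨by dsimp only; omega, hY, by dsimp only; omega, by dsimp only; omega,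
              h3, h4, fun i h => hO' i h.2⟩
          have := ih (X - 2) Y (by omega) hmemLs
          refine this.trans (c4 _ _ ⟨1, ?_⟩)
          rw [zpow_one, eU _ ⟨by rw [mem_rect]; dsimp only; omega, hO'⟩, blk_ee (by omega) hY]
          ext <;> dsimp only; omega
  refine ⟨s, ⟨c1, c2, ?_, ?_⟩, fun i => ⟨?_, ?_, ?_, ?_⟩, ?_⟩
  · rw [hbd]
    intro v hv hv'
    have : s v = s₀ v := by
      refine notlink v ?_
      rintro ⟨X, Y⟩ ⟨hX, hY, h1, h2, h3, h4, h5⟩
      dsimp only at hX hY h1 h2 h3 h4 h5 ⊢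
      constructor
      · rintro rfl
        rw [blkm_right (by omega) (by omega), hG, mem_ring] at hv'
        dsimp only at hv'
        omega
      · rintro rfl
        rw [hG, mem_ring] at hv
        dsimp only at hv
        omega
    rw [this, eG v hv]
    exact ring_blkm le_rfl hP hQ hR hT hPQ hRT hAB hCD hv hv'
  · rw [hbd]; exact hringcyc
  · intro v hv
    rw [hK]
    exact Or.inr (hOR i v hv)
  · intro v hv hv'
    rw [notlink v, eO i v hv]
    rintro ⟨X, Y⟩ ⟨hX, hY, h1, h2, h3, h4, h5⟩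
    dsimp only at hX hY h1 h2 h3 h4 h5 ⊢
    have := inv1 i hX hY
    constructor
    · rintro rfl
      exact hv' ⟨hv, (X, Y), by rw [adj_mk]; omega, fun h => h5 i ⟨hv, h⟩⟩
    · rintro rfl
      exact hv' ⟨hv, (X - 1, Y + 1), by rw [adj_mk]; omega,
        fun h => h5 i ⟨this.1.1 h, this.2.1.1 hv⟩⟩
  · intro u _ v _ huv
    exact c4 u v (cO i u v huv)
  · rw [hbd]
    intro u hu v hv
    obtain ⟨X, Y, hX, hY, hXY, hmin⟩ := leftmost (hblk i)
      ((rect_finite _ _ _ _).subset (hsub i)) ⟨u, hu.1⟩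
    have hmemLs := left_in_Ls i X Y hX hY hXY hmin
    have b1 : (X, Y) ∈ bd (O i) := by
      refine ⟨hXY, (X - 1, Y), by rw [adj_mk]; omega, fun h => ?_⟩
      have := hmin _ h
      dsimp only at this
      omega
    have k1 : s.SameCycle u (X, Y) := c4 _ _ (cO i _ _ ((hdec i).cyc u hu _ b1))
    have k2 := conn ((X - P).toNat + 1) X Y (by omega) hmemLs
    exact k1.trans (k2.symm.trans (hringcyc _ corner v hv))
  · -- the barrier
    have ee : ∀ x y : ℤ, x % 2 = 0 → y % 2 = 0 → (x, y) ∈ U → s (x, y) = (x + 1, y) := by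
      intro x y hx hy hxy
      rw [notlink (x, y), eU _ hxy, blk_ee hx hy]
      rintro ⟨X, Y⟩ ⟨hX, hY, -⟩
      dsimp only at hX hY ⊢
      constructor <;> intro h' <;> rw [Prod.mk.injEq] at h' <;> omega
    have oo : ∀ x y : ℤ, x % 2 = 1 → y % 2 = 1 → (x, y) ∈ U → s (x, y) = (x - 1, y) := by
      intro x y hx hy hxy
      rw [notlink (x, y), eU _ hxy, blk_oo hx hy]
      rintro ⟨X, Y⟩ ⟨hX, hY, -⟩
      dsimp only at hX hY ⊢
      constructor <;> intro h' <;> rw [Prod.mk.injEq] at h' <;> omega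
    have oe : ∀ x y : ℤ, x % 2 = 1 → y % 2 = 0 → (x, y) ∈ U → (y < R + 2 ∨ T - 2 ≤ y) →
        s (x, y) = (x, y + 1) := by
      intro x y hx hy hxy hy'
      rw [notlink (x, y), eU _ hxy, blk_oe hx hy]
      rintro ⟨X, Y⟩ ⟨hX, hY, h1, h2, h3, h4, h5⟩
      dsimp only at hX hY h1 h2 h3 h4 h5 ⊢
      constructor <;> intro h' <;> rw [Prod.mk.injEq] at h' <;> omega
    have eo : ∀ x y : ℤ, x % 2 = 0 → y % 2 = 1 → (x, y) ∈ U → (y - 1 < R + 2 ∨ T - 2 ≤ y - 1) →
        s (x, y) = (x, y - 1) := by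
      intro x y hx hy hxy hy'
      rw [notlink (x, y), eU _ hxy, blk_eo hx hy]
      rintro ⟨X, Y⟩ ⟨hX, hY, h1, h2, h3, h4, h5⟩
      dsimp only at hX hY h1 h2 h3 h4 h5 ⊢
      constructor <;> intro h' <;> rw [Prod.mk.injEq] at h' <;> omega
    have memU : ∀ x y : ℤ, (x, y) ∈ Rect P Q R T →
        ¬ (P + 2 ≤ x ∧ x < Q - 2 ∧ R + 2 ≤ y ∧ y < T - 2) → (x, y) ∈ U := by
      intro x y h1 h2
      refine ⟨h1, fun i hi => h2 ?_⟩
      have := hsub i hi
      rw [mem_rect] at this
      exact this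
    rintro ⟨x, y⟩ hv ⟨x', y'⟩ hw hadj
    rw [mem_rect] at hv hw
    rw [adj_mk] at hadj
    dsimp only at hv hw
    have hv₁ : (x, y) ∈ U := memU x y (by rw [mem_rect]; dsimp only; omega) (by omega)
    have hw₁ : (x', y') ∈ U := memU x' y' (by rw [mem_rect]; dsimp only; omega) (by omega)
    rcases hadj with ⟨rfl, h⟩ | ⟨rfl, h⟩
    · -- vertical edge
      rcases Int.emod_two_eq_zero_or_one x with hx | hx
      · -- even column: the edge goes down
        rcases h with h | h
        · -- y = y' + 1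
          left
          rw [eo x y hx (by omega) hv₁ (by omega)]
          ext <;> dsimp only; omega
        · right
          rw [eo x y' hx (by omega) hw₁ (by omega)]
          ext <;> dsimp only; omega
      · rcases h with h | h
        · right
          rw [oe x y' hx (by omega) hw₁ (by omega)]
          ext <;> dsimp only; omega
        · left
          rw [oe x y hx (by omega) hv₁ (by omega)]
          ext <;> dsimp only; omega
    · rcases Int.emod_two_eq_zero_or_one y with hy | hy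
      · rcases h with h | h
        · right
          rw [ee x' y (by omega) hy hw₁]
          ext <;> dsimp only; omega
        · left
          rw [ee x y (by omega) hy hv₁]
          ext <;> dsimp only; omega
      · rcases h with h | h
        · left
          rw [oo x y (by omega) hy hv₁]
          ext <;> dsimp only; omega
        · right
          rw [oo x' y (by omega) hy hw₁]
          ext <;> dsimp only; omega

end Pool.Agent.Schreier60
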