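import Pool.Agent.Schreier60.Scale

set_option autoImplicit false

namespace Pool.Agent.Schreier60

open Equiv Equiv.Perm MeasureTheory ProbabilityTheory

/-- The square ball as a finite set. -/
@[irreducible] noncomputable def Bf (r : ℤ) : Finset V := Finset.Icc (-r) r ×ˢ Finset.Icc (-r) r

lemma mem_Bf {r : ℤ} {u : V} : u ∈ Bf r ↔ Near r (0, 0) u := by
  unfold Bf Near
  rw [Finset.mem_product, Finset.mem_Icc, Finset.mem_Icc]
  dsimp only
  omega

lemma card_Bf {r : ℤ} (hr : 0 ≤ r) : ((Bf r).card : ℤ) = (2 * r + 1) ^ 2 := by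
  unfold Bf
  rw [Finset.card_product, Int.card_Icc]
  have : ((r + 1 - -r).toNat : ℤ) = 2 * r + 1 := by omega
  push_cast
  rw [this]
  ring

/-- The strip around the boundary of the square of radius `M`. -/
@[irreducible] noncomputable def St (L M : ℤ) : Finset V :=
  ((Finset.Icc (M - 3 * L) (M + 3 * L) ∪ Finset.Icc (-M - 3 * L) (-M + 3 * L)) ×ˢ
    Finset.Icc (-M - 3 * L) (M + 3 * L)) ∪
  (Finset.Icc (-M - 3 * L) (M + 3 * L) ×ˢ
    (Finset.Icc (M - 3 * L) (M + 3 * L) ∪ Finset.Icc (-M - 3 * L) (-M + 3 * L)))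

lemma mem_St {L M : ℤ} {u : V} (h : Near (M + 3 * L) (0, 0) u)
    (h' : ¬ Near (M - 3 * L - 1) (0, 0) u) : u ∈ St L M := by
  unfold St
  unfold Near at h h'
  dsimp only at h h'
  simp only [Finset.mem_union, Finset.mem_product, Finset.mem_Icc]
  omega

lemma card_St {L M : ℤ} (hL : 1 ≤ L) (hLM : L ≤ M) : ((St L M).card : ℤ) ≤ 256 * L * M := by
  have h1 : ((Finset.Icc (M - 3 * L) (M + 3 * L) ∪ Finset.Icc (-M - 3 * L) (-M + 3 * L)).card : ℤ)
      ≤ 14 * L := by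
    have := Finset.card_union_le (Finset.Icc (M - 3 * L) (M + 3 * L))
      (Finset.Icc (-M - 3 * L) (-M + 3 * L))
    rw [Int.card_Icc, Int.card_Icc] at this
    omega
  have h2 : ((Finset.Icc (-M - 3 * L) (M + 3 * L)).card : ℤ) ≤ 9 * M := by
    rw [Int.card_Icc]
    omega
  have h3 := Finset.card_union_le
    ((Finset.Icc (M - 3 * L) (M + 3 * L) ∪ Finset.Icc (-M - 3 * L) (-M + 3 * L)) ×ˢ
    Finset.Icc (-M - 3 * L) (M + 3 * L)) (Finset.Icc (-M - 3 * L) (M + 3 * L) ×ˢ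
    (Finset.Icc (M - 3 * L) (M + 3 * L) ∪ Finset.Icc (-M - 3 * L) (-M + 3 * L)))
  rw [Finset.card_product, Finset.card_product] at h3
  unfold St
  generalize (Finset.Icc (M - 3 * L) (M + 3 * L) ∪ Finset.Icc (-M - 3 * L) (-M + 3 * L)).card = A
    at *
  generalize (Finset.Icc (-M - 3 * L) (M + 3 * L)).card = B at *
  have h4 : (A : ℤ) * B ≤ (14 * L) * (9 * M) := by
    apply mul_le_mul h1 h2 (by positivity) (by omega)
  have h5 : ((A * B + B * A : ℕ) : ℤ) = 2 * ((A : ℤ) * B) := by push_cast; ring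
  have h6 : ((((Finset.Icc (M - 3 * L) (M + 3 * L) ∪ Finset.Icc (-M - 3 * L) (-M + 3 * L)) ×ˢ
    Finset.Icc (-M - 3 * L) (M + 3 * L)) ∪ (Finset.Icc (-M - 3 * L) (M + 3 * L) ×ˢ
    (Finset.Icc (M - 3 * L) (M + 3 * L) ∪ Finset.Icc (-M - 3 * L) (-M + 3 * L)))).card : ℤ) ≤
      ((A * B + B * A : ℕ) : ℤ) := by exact_mod_cast h3
  have h7 : 0 ≤ L * M := by nlinarith
  rw [h5] at h6
  nlinarith

/-- Inner bad event for the level `n + 1`. -/
def Din (n : ℕ) : Set Om := {ω | ∃ u ∈ Bf (4 * lZ n + 1), ω u ∈ Set.Iic (thr (n + 1))}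

/-- Outer bad event for the levels `n + 1` and `n + 2 + k`. -/
def Cout (n k : ℕ) : Set Om :=
  {ω | ∃ u ∈ St (lZ (n + 1)) (lZ (n + 2 + k)), ω u ∈ Set.Iic (thr (n + 2 + k))}

/-- The bad events. -/
def Bad (n : ℕ) : Set Om := Din n ∪ ⋃ k, Cout n k

lemma half_pow (n : ℕ) : ENNReal.ofReal ((1 / 2 : ℝ) ^ n) = (2⁻¹ : ENNReal) ^ n := by
  rw [ENNReal.ofReal_pow (by norm_num), one_div, ENNReal.ofReal_inv_of_pos (by norm_num)]
  norm_num

lemma lN_pos (n : ℕ) : (0 : ℝ) < lN n := by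
  have := lN_big n
  exact_mod_cast (by omega : 0 < lN n)

lemma real_aux1 {c a b t : ℝ} (ha : 0 < a) (hb : 0 < b) (ht : 0 < t) (hc : c ≤ 256 * a ^ 2)
    (h1 : a * t ≤ b) (h2 : a ≤ b) : c * (1 / (256 * b ^ 2)) ≤ 1 / t := by
  rw [mul_one_div, div_le_div_iff₀ (by positivity) ht]
  have h3 : a ^ 2 * t ≤ b ^ 2 := by
    calc a ^ 2 * t = a * (a * t) := by ring
      _ ≤ b * b := mul_le_mul h2 h1 (by positivity) hb.le
      _ = b ^ 2 := by ring
  calc c * t ≤ 256 * a ^ 2 * t := mul_le_mul_of_nonneg_right hc ht.le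
    _ = 256 * (a ^ 2 * t) := by ring
    _ ≤ 256 * b ^ 2 := mul_le_mul_of_nonneg_left h3 (by norm_num)
    _ = 1 * (256 * b ^ 2) := by ring

lemma real_aux2 {c a b t : ℝ} (hb : 0 < b) (ht : 0 < t) (hc : c ≤ 256 * a * b)
    (h1 : a * t ≤ b) : c * (1 / (256 * b ^ 2)) ≤ 1 / t := by
  rw [mul_one_div, div_le_div_iff₀ (by positivity) ht]
  calc c * t ≤ 256 * a * b * t := mul_le_mul_of_nonneg_right hc ht.le
    _ = 256 * b * (a * t) := by ring
    _ ≤ 256 * b * b := mul_le_mul_of_nonneg_left h1 (by positivity)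
    _ = 1 * (256 * b ^ 2) := by ring

lemma mul_pow_le {n m k : ℕ} (h : n < m) (hk : k ≤ n + m + 16) :
    (lN n : ℝ) * 2 ^ k ≤ lN m := by
  have h2 : lN n * 2 ^ k ≤ lN m :=
    (Nat.mul_le_mul_left _ (Nat.pow_le_pow_right (by norm_num) hk)).trans (lN_mul_le h)
  exact_mod_cast h2

lemma card_inner (n : ℕ) : (((Bf (4 * lZ n + 1)).card : ℕ) : ℝ) ≤ 256 * (lN n : ℝ) ^ 2 := by
  have hbig := lN_big n
  have hlZ : lZ n = (lN n : ℤ) := lZ_def n
  generalize lN n = L at *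
  rw [hlZ]
  have hc := card_Bf (r := 4 * (L : ℤ) + 1) (by omega)
  have : (((Bf (4 * (L : ℤ) + 1)).card : ℕ) : ℤ) ≤ 256 * (L : ℤ) ^ 2 := by
    rw [hc]
    have : (3 : ℤ) ≤ L := by omega
    nlinarith
  exact_mod_cast this

lemma card_outer (n m : ℕ) (h : n ≤ m) : (((St (lZ n) (lZ m)).card : ℕ) : ℝ) ≤
    256 * (lN n : ℝ) * (lN m : ℝ) := by
  have hbig := lN_big n
  have hmono : lN n ≤ lN m := lN_mono h
  have e1 : lZ n = (lN n : ℤ) := lZ_def n
  have e2 : lZ m = (lN m : ℤ) := lZ_def m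
  generalize lN n = L at *
  generalize lN m = M at *
  rw [e1, e2]
  have : (((St (L : ℤ) (M : ℤ)).card : ℕ) : ℤ) ≤ 256 * (L : ℤ) * (M : ℤ) :=
    card_St (by omega) (by omega)
  exact_mod_cast this

lemma mu_Din (n : ℕ) : mu (Din n) ≤ (2⁻¹ : ENNReal) ^ n := by
  rw [← half_pow]
  refine (mu_exists_le _ measurableSet_Iic).trans (card_mul_thr ?_)
  rw [one_div_pow]
  exact real_aux1 (lN_pos n) (lN_pos (n + 1)) (by positivity) (card_inner n)
    (mul_pow_le (by omega) (by omega)) (Nat.cast_le.2 (lN_mono (by omega)))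

lemma mu_Cout (n k : ℕ) : mu (Cout n k) ≤ (2⁻¹ : ENNReal) ^ (n + k) := by
  rw [← half_pow]
  refine (mu_exists_le _ measurableSet_Iic).trans (card_mul_thr ?_)
  rw [one_div_pow]
  exact real_aux2 (lN_pos _) (by positivity) (card_outer (n + 1) (n + 2 + k) (by omega))
    (mul_pow_le (by omega) (by omega))

lemma geom_ne_top : (∑' n : ℕ, (2⁻¹ : ENNReal) ^ n) ≠ ⊤ := by
  rw [ENNReal.tsum_geometric, ENNReal.one_sub_inv_two, inv_inv]
  norm_num

lemma mu_Bad_sum : (∑' n, mu (Bad n)) ≠ ⊤ := by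
  have h : ∀ n, mu (Bad n) ≤ (1 + ∑' k : ℕ, (2⁻¹ : ENNReal) ^ k) * (2⁻¹ : ENNReal) ^ n := by
    intro n
    refine (measure_union_le _ _).trans ?_
    rw [add_mul, one_mul]
    refine add_le_add (mu_Din n) ((measure_iUnion_le _).trans ?_)
    rw [mul_comm, ← ENNReal.tsum_mul_left]
    refine ENNReal.tsum_le_tsum fun k => ?_
    rw [← pow_add]
    exact mu_Cout n k
  refine ne_top_of_le_ne_top ?_ (ENNReal.tsum_le_tsum h)
  rw [ENNReal.tsum_mul_left]
  exact ENNReal.mul_ne_top (ENNReal.add_ne_top.2 ⟨by norm_num, geom_ne_top⟩) geom_ne_top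

end Pool.Agent.Schreier60
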