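import Pool.Agent.Schreier60.Perms

set_option autoImplicit false

namespace Pool.Agent.Schreier60

open Equiv Equiv.Perm

/-- Half-open rectangle `[p,q) × [r,t)`. -/
def Rect (p q r t : ℤ) : Set V := {v | p ≤ v.1 ∧ v.1 < q ∧ r ≤ v.2 ∧ v.2 < t}

lemma mem_rect {p q r t : ℤ} {v : V} : v ∈ Rect p q r t ↔ p ≤ v.1 ∧ v.1 < q ∧ r ≤ v.2 ∧ v.2 < t :=
  Iff.rfl

lemma rect_finite (p q r t : ℤ) : (Rect p q r t).Finite := by
  have : Rect p q r t = (Set.Ico p q) ×ˢ (Set.Ico r t) := by
    ext v; simp only [mem_rect, Set.mem_prod, Set.mem_Ico]; tauto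
  rw [this]
  exact (Set.finite_Ico _ _).prod (Set.finite_Ico _ _)

/-- Inner vertex boundary. -/
def bd (K : Set V) : Set V := {v | v ∈ K ∧ ∃ w, Adj v w ∧ w ∉ K}

lemma mem_bd_rect {p q r t : ℤ} {v : V} : v ∈ bd (Rect p q r t) ↔
    v ∈ Rect p q r t ∧ (v.1 = p ∨ v.1 = q - 1 ∨ v.2 = r ∨ v.2 = t - 1) := by
  unfold bd
  simp only [Set.mem_ofPred_eq, mem_rect]
  constructor
  · rintro ⟨h, w, hw, hn⟩
    refine ⟨h, ?_⟩
    unfold Adj at hw
    omega
  · rintro ⟨h, h'⟩
    refine ⟨h, ?_⟩
    rcases h' with h' | h' | h' | h'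
    · exact ⟨(v.1 - 1, v.2), by unfold Adj; simp, by simp only; omega⟩
    · exact ⟨(v.1 + 1, v.2), by unfold Adj; simp, by simp only; omega⟩
    · exact ⟨(v.1, v.2 - 1), by unfold Adj; simp, by simp only; omega⟩
    · exact ⟨(v.1, v.2 + 1), by unfold Adj; simp, by simp only; omega⟩

lemma bd_subset (K : Set V) : bd K ⊆ K := fun _ h => h.1

/-- Neighbours of interior vertices are in the set. -/
lemma mem_of_adj_of_notMem_bd {K : Set V} {v w : V} (hv : v ∈ K) (hv' : v ∉ bd K) (h : Adj v w) :
    w ∈ K := by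
  by_contra hw
  exact hv' ⟨hv, w, h, hw⟩

/-- The core construction: removing cuts along links. -/
lemma core (K : Set V) (hK : K.Finite) (s₀ : Perm V) (h1 : ∀ v ∉ K, s₀ v = v)
    (h2 : ∀ v ∈ K, Adj v (s₀ v) ∧ s₀ (s₀ v) ≠ v) (L : Finset V)
    (hLK : ∀ l ∈ L, la l ∈ K ∧ lb l ∈ K ∧ lc l ∈ K ∧ ld l ∈ K)
    (hab : ∀ l ∈ L, s₀ (la l) = lb l) (hcd : ∀ l ∈ L, s₀ (lc l) = ld l)
    (hda : ∀ l ∈ L, s₀ (ld l) ≠ la l) (hbc : ∀ l ∈ L, s₀ (lb l) ≠ lc l)
    (hdis : ∀ l ∈ L, ∀ m ∈ L, la l ≠ lc m ∧ lb l ≠ la m ∧ lb l ≠ lc m ∧ ld l ≠ la m ∧ ld l ≠ lc m) :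
    ∃ s : Perm V, (∀ v ∉ K, s v = v) ∧ (∀ v ∈ K, Adj v (s v) ∧ s (s v) ≠ v) ∧
      (∀ v, (∀ l ∈ L, v ≠ la l ∧ v ≠ lc l) → s v = s₀ v) ∧
      (∀ u v, s₀.SameCycle u v → s.SameCycle u v) ∧ (∀ l ∈ L, s.SameCycle (la l) (ld l)) := by
  classical
  obtain ⟨s, k1, k2, k3, k4⟩ := links s₀ hK h1 L (fun l hl => ⟨(hLK l hl).1, (hLK l hl).2.2.1⟩)
    (fun l hl m hm => (hdis l hl m hm).1)
  have eb : ∀ l ∈ L, s (lb l) = s₀ (lb l) := fun l hl =>
    k1 _ fun m hm => ⟨(hdis l hl m hm).2.1, (hdis l hl m hm).2.2.1⟩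
  have ed : ∀ l ∈ L, s (ld l) = s₀ (ld l) := fun l hl =>
    k1 _ fun m hm => ⟨(hdis l hl m hm).2.2.2.1, (hdis l hl m hm).2.2.2.2⟩
  -- where the value of `s` can be
  have cases : ∀ v, s v = s₀ v ∨ (∃ l ∈ L, v = la l ∧ s v = ld l) ∨ (∃ l ∈ L, v = lc l ∧ s v = lb l) := by
    intro v
    by_cases hv : ∀ l ∈ L, v ≠ la l ∧ v ≠ lc l
    · exact Or.inl (k1 v hv)
    · push Not at hv
      obtain ⟨l, hl, hl'⟩ := hv
      by_cases hva : v = la l
      · subst hva
        rcases k2 l hl with h | h
        · exact Or.inl h.1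
        · exact Or.inr (Or.inl ⟨l, hl, rfl, by rw [h.1, hcd l hl]⟩)
      · have hvc := hl' hva
        subst hvc
        rcases k2 l hl with h | h
        · exact Or.inl h.2
        · exact Or.inr (Or.inr ⟨l, hl, rfl, by rw [h.2, hab l hl]⟩)
  have adj_ad : ∀ l : V, Adj (la l) (ld l) := by intro l; unfold la ld Adj; simp
  have adj_cb : ∀ l : V, Adj (lc l) (lb l) := by intro l; unfold lc lb Adj; simp
  refine ⟨s, ?_, ?_, k1, k3, ?_⟩
  · intro v hv
    rw [k1 v, h1 v hv]
    intro l hl
    exact ⟨fun h => hv (h ▸ (hLK l hl).1), fun h => hv (h ▸ (hLK l hl).2.2.1)⟩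
  · intro v hv
    constructor
    · rcases cases v with h | ⟨l, hl, rfl, h⟩ | ⟨l, hl, rfl, h⟩
      · rw [h]; exact (h2 v hv).1
      · rw [h]; exact adj_ad l
      · rw [h]; exact adj_cb l
    · rcases cases v with h | ⟨l, hl, rfl, h⟩ | ⟨l, hl, rfl, h⟩
      · rw [h]
        rcases cases (s₀ v) with h' | ⟨l, hl, e, h'⟩ | ⟨l, hl, e, h'⟩
        · rw [h']; exact (h2 v hv).2
        · -- `s₀ v = la l`, `s (la l) = ld l`
          rw [h']
          rintro rfl
          exact hda l hl e
        · rw [h']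
          rintro rfl
          exact hbc l hl e
      · rw [h, ed l hl]; exact hda l hl
      · rw [h, eb l hl]; exact hbc l hl
  · intro l hl
    refine (k4 l hl).trans (k3 _ _ ?_)
    exact ⟨1, by rw [zpow_one, hcd l hl]⟩

/-! ### Explicit permutations -/

/-- Counterclockwise rotation of the `2 × 2` blocks with even lower left corner. -/
def blk : Perm V where
  toFun v := if v.1 % 2 = 0 then (if v.2 % 2 = 0 then (v.1 + 1, v.2) else (v.1, v.2 - 1))
    else (if v.2 % 2 = 0 then (v.1, v.2 + 1) else (v.1 - 1, v.2))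
  invFun v := if v.1 % 2 = 0 then (if v.2 % 2 = 0 then (v.1, v.2 + 1) else (v.1 + 1, v.2))
    else (if v.2 % 2 = 0 then (v.1 - 1, v.2) else (v.1, v.2 - 1))
  left_inv := by
    rintro ⟨x, y⟩
    dsimp only
    by_cases h1 : x % 2 = 0 <;> by_cases h2 : y % 2 = 0 <;> simp only [h1, h2, if_true, if_false]
    · rw [if_neg (by omega)]; simp
    · rw [if_pos (by omega)]; simp
    · rw [if_neg (by omega)]; simp
    · rw [if_pos (by omega)]; simp
  right_inv := by
    rintro ⟨x, y⟩
    dsimp only
    by_cases h1 : x % 2 = 0 <;> by_cases h2 : y % 2 = 0 <;> simp only [h1, h2, if_true, if_false]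
    · rw [if_neg (by omega)]; simp
    · rw [if_neg (by omega)]; simp
    · rw [if_pos (by omega)]; simp
    · rw [if_pos (by omega)]; simp

lemma blk_apply (x y : ℤ) : blk (x, y) =
    if x % 2 = 0 then (if y % 2 = 0 then (x + 1, y) else (x, y - 1))
    else (if y % 2 = 0 then (x, y + 1) else (x - 1, y)) := rfl

lemma blk_ee {x y : ℤ} (hx : x % 2 = 0) (hy : y % 2 = 0) : blk (x, y) = (x + 1, y) := by
  rw [blk_apply, if_pos hx, if_pos hy]
lemma blk_eo {x y : ℤ} (hx : x % 2 = 0) (hy : y % 2 = 1) : blk (x, y) = (x, y - 1) := by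
  rw [blk_apply, if_pos hx, if_neg (by omega)]
lemma blk_oe {x y : ℤ} (hx : x % 2 = 1) (hy : y % 2 = 0) : blk (x, y) = (x, y + 1) := by
  rw [blk_apply, if_neg (by omega), if_pos hy]
lemma blk_oo {x y : ℤ} (hx : x % 2 = 1) (hy : y % 2 = 1) : blk (x, y) = (x - 1, y) := by
  rw [blk_apply, if_neg (by omega), if_neg (by omega)]

/-- The ring `{A,…,B} × {C,…,D}` minus its interior. -/
def Ring (A B C D : ℤ) : Set V :=
  {v | A ≤ v.1 ∧ v.1 ≤ B ∧ C ≤ v.2 ∧ v.2 ≤ D ∧ (v.1 = A ∨ v.1 = B ∨ v.2 = C ∨ v.2 = D)}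

lemma mem_ring {A B C D : ℤ} {v : V} : v ∈ Ring A B C D ↔
    A ≤ v.1 ∧ v.1 ≤ B ∧ C ≤ v.2 ∧ v.2 ≤ D ∧ (v.1 = A ∨ v.1 = B ∨ v.2 = C ∨ v.2 = D) := Iff.rfl

instance (A B C D : ℤ) : DecidablePred (· ∈ Ring A B C D) := fun _ =>
  decidable_of_iff _ (Iff.symm mem_ring)

/-- Clockwise step on the ring. -/
def ringNext (A B C D : ℤ) (v : V) : V :=
  if v ∈ Ring A B C D then
    (if v.1 = A ∧ v.2 < D then (v.1, v.2 + 1)
    else if v.2 = D ∧ v.1 < B then (v.1 + 1, v.2)
    else if v.1 = B ∧ C < v.2 then (v.1, v.2 - 1)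
    else (v.1 - 1, v.2))
  else v

/-- Counterclockwise step on the ring. -/
def ringPrev (A B C D : ℤ) (v : V) : V :=
  if v ∈ Ring A B C D then
    (if v.1 = A ∧ C < v.2 then (v.1, v.2 - 1)
    else if v.2 = C ∧ v.1 < B then (v.1 + 1, v.2)
    else if v.1 = B ∧ v.2 < D then (v.1, v.2 + 1)
    else (v.1 - 1, v.2))
  else v

lemma ringPrev_ringNext {A B C D : ℤ} (hAB : A < B) (hCD : C < D) (v : V) :
    ringPrev A B C D (ringNext A B C D v) = v := by
  obtain ⟨x, y⟩ := v
  by_cases h : (x, y) ∈ Ring A B C D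
  · have h' := h
    rw [mem_ring] at h'
    simp only at h'
    unfold ringNext
    rw [if_pos h]
    simp only
    by_cases c1 : x = A ∧ y < D
    · rw [if_pos c1]
      unfold ringPrev
      rw [if_pos (by rw [mem_ring]; dsimp only; omega)]
      simp only
      rw [if_pos (by omega)]
      simp
    · rw [if_neg c1]
      by_cases c2 : y = D ∧ x < B
      · rw [if_pos c2]
        unfold ringPrev
        rw [if_pos (by rw [mem_ring]; dsimp only; omega)]
        simp only
        rw [if_neg (by omega), if_neg (by omega), if_neg (by omega)]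
        simp
      · rw [if_neg c2]
        by_cases c3 : x = B ∧ C < y
        · rw [if_pos c3]
          unfold ringPrev
          rw [if_pos (by rw [mem_ring]; dsimp only; omega)]
          simp only
          rw [if_neg (by omega), if_neg (by omega), if_pos (by omega)]
          simp
        · rw [if_neg c3]
          unfold ringPrev
          rw [if_pos (by rw [mem_ring]; dsimp only; omega)]
          simp only
          rw [if_neg (by omega), if_pos (by omega)]
          simp
  · unfold ringNext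
    rw [if_neg h]
    unfold ringPrev
    rw [if_neg h]

lemma ringNext_ringPrev {A B C D : ℤ} (hAB : A < B) (hCD : C < D) (v : V) :
    ringNext A B C D (ringPrev A B C D v) = v := by
  obtain ⟨x, y⟩ := v
  by_cases h : (x, y) ∈ Ring A B C D
  · have h' := h
    rw [mem_ring] at h'
    simp only at h'
    unfold ringPrev
    rw [if_pos h]
    simp only
    by_cases c1 : x = A ∧ C < y
    · rw [if_pos c1]
      unfold ringNext
      rw [if_pos (by rw [mem_ring]; dsimp only; omega)]
      simp only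
      rw [if_pos (by omega)]
      simp
    · rw [if_neg c1]
      by_cases c2 : y = C ∧ x < B
      · rw [if_pos c2]
        unfold ringNext
        rw [if_pos (by rw [mem_ring]; dsimp only; omega)]
        simp only
        rw [if_neg (by omega), if_neg (by omega), if_neg (by omega)]
        simp
      · rw [if_neg c2]
        by_cases c3 : x = B ∧ y < D
        · rw [if_pos c3]
          unfold ringNext
          rw [if_pos (by rw [mem_ring]; dsimp only; omega)]
          simp only
          rw [if_neg (by omega), if_neg (by omega), if_pos (by omega)]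
          simp
        · rw [if_neg c3]
          unfold ringNext
          rw [if_pos (by rw [mem_ring]; dsimp only; omega)]
          simp only
          rw [if_neg (by omega), if_pos (by omega)]
          simp
  · unfold ringPrev
    rw [if_neg h]
    unfold ringNext
    rw [if_neg h]

/-- The clockwise rotation of the ring. -/
def ringPerm (A B C D : ℤ) (hAB : A < B) (hCD : C < D) : Perm V where
  toFun := ringNext A B C D
  invFun := ringPrev A B C D
  left_inv := ringPrev_ringNext hAB hCD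
  right_inv := ringNext_ringPrev hAB hCD

section ring

variable {A B C D : ℤ} {hAB : A < B} {hCD : C < D}

lemma ringPerm_notMem {v : V} (h : v ∉ Ring A B C D) : ringPerm A B C D hAB hCD v = v := by
  change ringNext A B C D v = v
  unfold ringNext; rw [if_neg h]

lemma ringPerm_left {y : ℤ} (h1 : C ≤ y) (h2 : y < D) :
    ringPerm A B C D hAB hCD (A, y) = (A, y + 1) := by
  change ringNext A B C D (A, y) = _
  unfold ringNext
  rw [if_pos (by rw [mem_ring]; dsimp only; omega)]
  dsimp only
  rw [if_pos (by omega)]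

lemma ringPerm_top {x : ℤ} (h1 : A ≤ x) (h2 : x < B) :
    ringPerm A B C D hAB hCD (x, D) = (x + 1, D) := by
  change ringNext A B C D (x, D) = _
  unfold ringNext
  rw [if_pos (by rw [mem_ring]; dsimp only; omega)]
  dsimp only
  rw [if_neg (by omega), if_pos (by omega)]

lemma ringPerm_right {y : ℤ} (h1 : C < y) (h2 : y ≤ D) :
    ringPerm A B C D hAB hCD (B, y) = (B, y - 1) := by
  change ringNext A B C D (B, y) = _
  unfold ringNext
  rw [if_pos (by rw [mem_ring]; dsimp only; omega)]
  dsimp only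
  rw [if_neg (by omega), if_neg (by omega), if_pos (by omega)]

lemma ringPerm_bottom {x : ℤ} (h1 : A < x) (h2 : x ≤ B) :
    ringPerm A B C D hAB hCD (x, C) = (x - 1, C) := by
  change ringNext A B C D (x, C) = _
  unfold ringNext
  rw [if_pos (by rw [mem_ring]; dsimp only; omega)]
  dsimp only
  rw [if_neg (by omega), if_neg (by omega), if_neg (by omega)]

lemma ring_sameCycle_step (v : V) :
    (ringPerm A B C D hAB hCD).SameCycle v (ringPerm A B C D hAB hCD v) := ⟨1, by simp⟩

lemma ring_left {y : ℤ} (h1 : C ≤ y) (h2 : y ≤ D) :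
    (ringPerm A B C D hAB hCD).SameCycle (A, C) (A, y) := by
  induction y, h1 using Int.leInduction with
  | base => exact SameCycle.refl _ _
  | succ y hy ih =>
    refine (ih (by omega)).trans ?_
    have := ring_sameCycle_step (hAB := hAB) (hCD := hCD) (A, y)
    rwa [ringPerm_left hy (by omega)] at this

lemma ring_top {x : ℤ} (h1 : A ≤ x) (h2 : x ≤ B) :
    (ringPerm A B C D hAB hCD).SameCycle (A, C) (x, D) := by
  induction x, h1 using Int.leInduction with
  | base => exact ring_left hCD.le le_rfl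
  | succ x hx ih =>
    refine (ih (by omega)).trans ?_
    have := ring_sameCycle_step (hAB := hAB) (hCD := hCD) (x, D)
    rwa [ringPerm_top hx (by omega)] at this

lemma ring_bottom {x : ℤ} (h1 : A ≤ x) (h2 : x ≤ B) :
    (ringPerm A B C D hAB hCD).SameCycle (A, C) (x, C) := by
  induction x, h1 using Int.leInduction with
  | base => exact SameCycle.refl _ _
  | succ x hx ih =>
    refine (ih (by omega)).trans ?_
    have := ring_sameCycle_step (hAB := hAB) (hCD := hCD) (x + 1, C)
    rw [ringPerm_bottom (by omega) (by omega)] at this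
    simpa using this.symm

lemma ring_right {y : ℤ} (h1 : C ≤ y) (h2 : y ≤ D) :
    (ringPerm A B C D hAB hCD).SameCycle (A, C) (B, y) := by
  induction y, h1 using Int.leInduction with
  | base => exact ring_bottom hAB.le le_rfl
  | succ y hy ih =>
    refine (ih (by omega)).trans ?_
    have := ring_sameCycle_step (hAB := hAB) (hCD := hCD) (B, y + 1)
    rw [ringPerm_right (by omega) (by omega)] at this
    simpa using this.symm

lemma ring_sameCycle {u v : V} (hu : u ∈ Ring A B C D) (hv : v ∈ Ring A B C D) :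
    (ringPerm A B C D hAB hCD).SameCycle u v := by
  have key : ∀ u ∈ Ring A B C D, (ringPerm A B C D hAB hCD).SameCycle (A, C) u := by
    rintro ⟨x, y⟩ h
    rw [mem_ring] at h
    simp only at h
    rcases h with ⟨h1, h2, h3, h4, rfl | rfl | rfl | rfl⟩
    · exact ring_left h3 h4
    · exact ring_right h3 h4
    · exact ring_bottom h1 h2
    · exact ring_top h1 h2
  exact (key u hu).symm.trans (key v hv)

lemma ring_mem {v : V} (h : v ∈ Ring A B C D) : ringPerm A B C D hAB hCD v ∈ Ring A B C D := by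
  obtain ⟨x, y⟩ := v
  have h' := h
  rw [mem_ring] at h'
  simp only at h'
  rcases h' with ⟨h1, h2, h3, h4, h5⟩
  by_cases c1 : x = A ∧ y < D
  · obtain ⟨rfl, c⟩ := c1
    rw [ringPerm_left h3 c, mem_ring]; dsimp only; omega
  · by_cases c2 : y = D ∧ x < B
    · obtain ⟨rfl, c⟩ := c2
      rw [ringPerm_top h1 c, mem_ring]; dsimp only; omega
    · by_cases c3 : x = B ∧ C < y
      · obtain ⟨rfl, c⟩ := c3
        rw [ringPerm_right c h4, mem_ring]; dsimp only; omega
      · have : y = C := by omega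
        subst this
        rw [ringPerm_bottom (by omega) h2, mem_ring]; dsimp only; omega

/-- The ring rotation moves along edges and has no 2-cycle. -/
lemma ring_adj {v : V} (h : v ∈ Ring A B C D) :
    Adj v (ringPerm A B C D hAB hCD v) ∧
      ringPerm A B C D hAB hCD (ringPerm A B C D hAB hCD v) ≠ v := by
  obtain ⟨x, y⟩ := v
  have h' := h
  rw [mem_ring] at h'
  simp only at h'
  rcases h' with ⟨h1, h2, h3, h4, h5⟩
  by_cases c1 : x = A ∧ y < D
  · obtain ⟨rfl, c⟩ := c1
    rw [ringPerm_left h3 c]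
    refine ⟨by rw [adj_mk]; omega, ?_⟩
    by_cases d : y + 1 < D
    · rw [ringPerm_left (by omega) d]; apply ne_of_snd; simp only; omega
    · have e : y + 1 = D := by omega
      rw [e, ringPerm_top le_rfl hAB]; apply ne_of_fst; simp only; omega
  · by_cases c2 : y = D ∧ x < B
    · obtain ⟨rfl, c⟩ := c2
      rw [ringPerm_top h1 c]
      refine ⟨by rw [adj_mk]; omega, ?_⟩
      by_cases d : x + 1 < B
      · rw [ringPerm_top (by omega) d]; apply ne_of_fst; simp only; omega
      · have e : x + 1 = B := by omega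
        rw [e, ringPerm_right hCD le_rfl]; apply ne_of_snd; simp only; omega
    · by_cases c3 : x = B ∧ C < y
      · obtain ⟨rfl, c⟩ := c3
        rw [ringPerm_right c h4]
        refine ⟨by rw [adj_mk]; omega, ?_⟩
        by_cases d : C < y - 1
        · rw [ringPerm_right d (by omega)]; apply ne_of_snd; simp only; omega
        · have e : y - 1 = C := by omega
          rw [e, ringPerm_bottom hAB le_rfl]; apply ne_of_fst; simp only; omega
      · have : y = C := by omega
        subst this
        rw [ringPerm_bottom (by omega) h2]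
        refine ⟨by rw [adj_mk]; omega, ?_⟩
        by_cases d : A < x - 1
        · rw [ringPerm_bottom d (by omega)]; apply ne_of_fst; simp only; omega
        · have e : x - 1 = A := by omega
          rw [e, ringPerm_left le_rfl hCD]; apply ne_of_snd; simp only; omega

end ring

end Pool.Agent.Schreier60
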