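import Pool.Agent.Schreier60.Assembly

set_option autoImplicit false

namespace Pool.Agent.Schreier60

open Equiv Equiv.Perm

lemma parity_adj {u v : V} (h : Adj u v) : ((u.1 + u.2) % 2 = 0 ↔ ¬ (v.1 + v.2) % 2 = 0) := by
  unfold Adj at h
  omega

/-- Orienting a finite bipartite 2-regular graph. -/
lemma blue_exists {Z : Set V} (hZ : Z.Finite) (N : V → V → Prop) (hs : ∀ u v, N u v → N v u)
    (hp : ∀ u v, N u v → Adj u v)
    (h2 : ∀ v ∈ Z, ∃ x ∈ Z, ∃ y ∈ Z, x ≠ y ∧ ∀ w, N v w ↔ w = x ∨ w = y) :
    ∃ b : Perm V, (∀ v ∉ Z, b v = v) ∧ ∀ v ∈ Z, N v (b v) ∧ b (b v) ≠ v := by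
  classical
  have : Fintype Z := hZ.fintype
  let t : Z → Finset Z := fun v => Finset.univ.filter fun w => N v w
  have ht : ∀ v w : Z, w ∈ t v ↔ N v w := fun v w => by simp [t]
  have hpair : ∀ v : Z, ∃ x y : Z, x ≠ y ∧ t v = {x, y} := by
    intro v
    obtain ⟨x, hx, y, hy, hxy, h⟩ := h2 v v.2
    refine ⟨⟨x, hx⟩, ⟨y, hy⟩, fun e => hxy (congrArg Subtype.val e), ?_⟩
    ext w
    rw [ht, h, Finset.mem_insert, Finset.mem_singleton, Subtype.ext_iff, Subtype.ext_iff]
  have hcard : ∀ v : Z, (t v).card = 2 := by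
    intro v
    obtain ⟨x, y, hxy, h⟩ := hpair v
    rw [h, Finset.card_pair hxy]
  have hother : ∀ v a : Z, a ∈ t v → ∃ a' ∈ t v, a' ≠ a ∧ ∀ w ∈ t v, w = a ∨ w = a' := by
    intro v a ha
    obtain ⟨x, y, hxy, h⟩ := hpair v
    rw [h] at ha ⊢
    rw [Finset.mem_insert, Finset.mem_singleton] at ha
    rcases ha with rfl | rfl
    · exact ⟨y, by simp, hxy.symm, fun w hw => by simpa using hw⟩
    · exact ⟨x, by simp, hxy, fun w hw => by
        rw [Finset.mem_insert, Finset.mem_singleton] at hw; tauto⟩
  have hall : ∀ S : Finset Z, S.card ≤ (S.biUnion t).card := by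
    intro S
    have := Finset.card_mul_le_card_mul (s := S) (t := S.biUnion t) (m := 2) (n := 2)
      (fun a b : Z => N a b)
      (by
        intro a ha
        have hsub : t a ⊆ (S.biUnion t).bipartiteAbove (fun a b : Z => N a b) a := by
          intro w hw
          rw [Finset.mem_bipartiteAbove]
          exact ⟨Finset.mem_biUnion.2 ⟨a, ha, hw⟩, (ht _ _).1 hw⟩
        have := Finset.card_le_card hsub
        rwa [hcard] at this)
      (by
        intro b _
        have hsub : S.bipartiteBelow (fun a b : Z => N a b) b ⊆ t b := by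
          intro w hw
          rw [Finset.mem_bipartiteBelow] at hw
          rw [ht]
          exact hs _ _ hw.2
        have := Finset.card_le_card hsub
        rwa [hcard] at this)
    omega
  obtain ⟨f, hfi, hft⟩ := (Finset.all_card_le_biUnion_card_iff_exists_injective t).1 hall
  have hfb : Function.Bijective f := Finite.injective_iff_bijective.1 hfi
  let F : Perm Z := Equiv.ofBijective f hfb
  have hF : ∀ v, F v ∈ t v := hft
  have hFs : ∀ v, F.symm v ∈ t v := by
    intro v
    rw [ht]
    have := (ht _ _).1 (hF (F.symm v))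
    rw [Equiv.apply_symm_apply] at this
    exact hs _ _ this
  choose o ho1 ho2 ho3 using fun v => hother v (F.symm v) (hFs v)
  let ev : Z → Prop := fun v => (v.1.1 + v.1.2) % 2 = 0
  have hev : ∀ v w : Z, w ∈ t v → (ev v ↔ ¬ ev w) := fun v w h => parity_adj (hp _ _ ((ht _ _).1 h))
  let B : Z → Z := fun v => if ev v then F v else o v
  have hB1 : ∀ v, ev v → B v = F v := fun v h => if_pos h
  have hB2 : ∀ v, ¬ ev v → B v = o v := fun v h => if_neg h
  have hBt : ∀ v, B v ∈ t v := by
    intro v
    by_cases h : ev v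
    · rw [hB1 v h]; exact hF v
    · rw [hB2 v h]; exact ho1 v
  have hBi : Function.Injective B := by
    intro v w hvw
    have a1 := hev _ _ (hBt v)
    have a2 := hev _ _ (hBt w)
    rw [← hvw] at a2
    by_cases h : ev v
    · have h' : ev w := by tauto
      rw [hB1 v h, hB1 w h'] at hvw
      exact F.injective hvw
    · have h' : ¬ ev w := by tauto
      rw [hB2 v h, hB2 w h'] at hvw
      by_contra hne
      -- `u = o v = o w` has neighbours `v` and `w`
      have nv : v ∈ t (o v) := by
        rw [ht]; exact hs _ _ ((ht _ _).1 (ho1 v))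
      have nw : w ∈ t (o v) := by
        rw [hvw, ht]; exact hs _ _ ((ht _ _).1 (ho1 w))
      obtain ⟨a', _, _, h3⟩ := hother (o v) (F (o v)) (hF _)
      have kv : F (o v) ≠ v := by
        intro e
        apply ho2 v
        rw [Equiv.eq_symm_apply]; exact e
      have kw : F (o v) ≠ w := by
        intro e
        apply ho2 w
        rw [Equiv.eq_symm_apply, ← hvw]; exact e
      rcases h3 v nv with e1 | e1
      · exact kv e1.symm
      · rcases h3 w nw with e2 | e2
        · exact kw e2.symm
        · exact hne (e1.trans e2.symm)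
  have hBb : Function.Bijective B := Finite.injective_iff_bijective.1 hBi
  let b : Perm V := Perm.ofSubtype (Equiv.ofBijective B hBb)
  have hb : ∀ v (hv : v ∈ Z), b v = B ⟨v, hv⟩ := by
    intro v hv
    exact Perm.ofSubtype_apply_of_mem _ hv
  refine ⟨b, ?_, ?_⟩
  · intro v hv
    exact Perm.ofSubtype_apply_of_not_mem _ hv
  · intro v hv
    refine ⟨?_, ?_⟩
    · rw [hb v hv]; exact (ht ⟨v, hv⟩ _).1 (hBt ⟨v, hv⟩)
    · rw [hb v hv, hb _ (B ⟨v, hv⟩).2]
      intro e
      have e' : B (B ⟨v, hv⟩) = ⟨v, hv⟩ := Subtype.ext e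
      have a1 := hev _ _ (hBt ⟨v, hv⟩)
      by_cases h : ev ⟨v, hv⟩
      · have h' : ¬ ev (B ⟨v, hv⟩) := by tauto
        rw [hB2 _ h'] at e'
        rw [hB1 _ h] at e'
        apply ho2 (F ⟨v, hv⟩)
        rw [e', Equiv.symm_apply_apply]
      · have h' : ev (B ⟨v, hv⟩) := by tauto
        rw [hB1 _ h', hB2 _ h] at e'
        apply ho2 ⟨v, hv⟩
        rw [Equiv.eq_symm_apply]; exact e'

/-- The non-red adjacency. -/
def NR (s : Perm V) (u v : V) : Prop := Adj u v ∧ s u ≠ v ∧ s v ≠ u

lemma NR.symm {s : Perm V} {u v : V} (h : NR s u v) : NR s v u := ⟨h.1.symm, h.2.2, h.2.1⟩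

/-- Removing two neighbours leaves exactly two neighbours. -/
lemma two_left {v a b : V} (ha : Adj v a) (hb : Adj v b) (hab : a ≠ b) :
    ∃ x y : V, x ≠ y ∧ ∀ w, (Adj v w ∧ w ≠ a ∧ w ≠ b) ↔ w = x ∨ w = y := by
  obtain ⟨x, y⟩ := v
  have nb : ∀ w : V, Adj (x, y) w ↔ w = (x + 1, y) ∨ w = (x - 1, y) ∨ w = (x, y + 1) ∨
      w = (x, y - 1) := by
    rintro ⟨x', y'⟩
    rw [adj_mk, Prod.mk.injEq, Prod.mk.injEq, Prod.mk.injEq, Prod.mk.injEq]
    omega
  have d12 : ((x + 1, y) : V) ≠ (x - 1, y) := ne_of_fst (by dsimp only; omega)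
  have d13 : ((x + 1, y) : V) ≠ (x, y + 1) := ne_of_fst (by dsimp only; omega)
  have d14 : ((x + 1, y) : V) ≠ (x, y - 1) := ne_of_fst (by dsimp only; omega)
  have d23 : ((x - 1, y) : V) ≠ (x, y + 1) := ne_of_fst (by dsimp only; omega)
  have d24 : ((x - 1, y) : V) ≠ (x, y - 1) := ne_of_fst (by dsimp only; omega)
  have d34 : ((x, y + 1) : V) ≠ (x, y - 1) := ne_of_snd (by dsimp only; omega)
  rw [nb] at ha hb
  generalize ((x + 1, y) : V) = p1 at *
  generalize ((x - 1, y) : V) = p2 at *
  generalize ((x, y + 1) : V) = p3 at *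
  generalize ((x, y - 1) : V) = p4 at *
  rcases ha with rfl | rfl | rfl | rfl <;> rcases hb with rfl | rfl | rfl | rfl
  · exact absurd rfl hab
  · exact ⟨p3, p4, d34, fun w => by rw [nb]; constructor
                                    · tauto
                                    · rintro (rfl | rfl) <;> tauto⟩
  · exact ⟨p2, p4, d24, fun w => by rw [nb]; constructor
                                    · tauto
                                    · rintro (rfl | rfl) <;> tauto⟩
  · exact ⟨p2, p3, d23, fun w => by rw [nb]; constructor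
                                    · tauto
                                    · rintro (rfl | rfl) <;> tauto⟩
  · exact ⟨p3, p4, d34, fun w => by rw [nb]; constructor
                                    · tauto
                                    · rintro (rfl | rfl) <;> tauto⟩
  · exact absurd rfl hab
  · exact ⟨p1, p4, d14, fun w => by rw [nb]; constructor
                                    · tauto
                                    · rintro (rfl | rfl) <;> tauto⟩
  · exact ⟨p1, p3, d13, fun w => by rw [nb]; constructor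
                                    · tauto
                                    · rintro (rfl | rfl) <;> tauto⟩
  · exact ⟨p2, p4, d24, fun w => by rw [nb]; constructor
                                    · tauto
                                    · rintro (rfl | rfl) <;> tauto⟩
  · exact ⟨p1, p4, d14, fun w => by rw [nb]; constructor
                                    · tauto
                                    · rintro (rfl | rfl) <;> tauto⟩
  · exact absurd rfl hab
  · exact ⟨p1, p2, d12, fun w => by rw [nb]; constructor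
                                    · tauto
                                    · rintro (rfl | rfl) <;> tauto⟩
  · exact ⟨p2, p3, d23, fun w => by rw [nb]; constructor
                                    · tauto
                                    · rintro (rfl | rfl) <;> tauto⟩
  · exact ⟨p1, p3, d13, fun w => by rw [nb]; constructor
                                    · tauto
                                    · rintro (rfl | rfl) <;> tauto⟩
  · exact ⟨p1, p2, d12, fun w => by rw [nb]; constructor
                                    · tauto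
                                    · rintro (rfl | rfl) <;> tauto⟩
  · exact absurd rfl hab

/-- A vertex has exactly two non-red neighbours. -/
lemma two_NR {s : Perm V} {v : V} (h1 : Adj v (s v)) (h2 : Adj v (s⁻¹ v)) (h3 : s (s v) ≠ v) :
    ∃ x y : V, x ≠ y ∧ ∀ w, NR s v w ↔ w = x ∨ w = y := by
  have hne : s v ≠ s⁻¹ v := by
    intro e
    apply h3
    rw [e]; simp
  obtain ⟨x, y, hxy, h⟩ := two_left h1 h2 hne
  refine ⟨x, y, hxy, fun w => ?_⟩
  rw [← h]
  unfold NR
  constructor
  · rintro ⟨a, b, c⟩
    refine ⟨a, fun e => b e.symm, fun e => c ?_⟩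
    rw [e]; simp
  · rintro ⟨a, b, c⟩
    refine ⟨a, fun e => b e.symm, fun e => c ?_⟩
    rw [← e]; simp

/-- Validity of a pair (red, blue) with respect to the outer set `K` and the core `C`. -/
structure Valid (K C : Set V) (β s b : Perm V) : Prop where
  dec : Dec K β s
  sub : C ⊆ K
  deep : ∀ v ∈ C, v ∉ bd K
  barrier : ∀ v ∈ C, ∀ w ∉ C, Adj v w → s v = w ∨ s w = v
  bout : ∀ v ∉ C, b v = v
  blue : ∀ v ∈ C, NR s v (b v) ∧ b (b v) ≠ v

/-- Extending the blue permutations of the children. -/
lemma blue_extend {ι : Type*} {K C : Set V} {β s : Perm V} (hK : K.Finite) (hdec : Dec K β s)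
    (hsub : C ⊆ K) (hdeep : ∀ v ∈ C, v ∉ bd K)
    (hbar : ∀ v ∈ C, ∀ w ∉ C, Adj v w → s v = w ∨ s w = v)
    (Ki Ci : ι → Set V) (βi si bi : ι → Perm V)
    (hV : ∀ i, Valid (Ki i) (Ci i) (βi i) (si i) (bi i))
    (hCC : ∀ i, Ci i ⊆ C)
    (hlayer : ∀ i, ∀ v ∈ Ci i, ∀ w, Adj v w → w ∈ Ki i ∧ w ∉ bd (Ki i))
    (hd : ∀ i j v, v ∈ Ci i → v ∈ Ci j → i = j)
    (hE : ∀ i, Ext (Ki i) (si i) K s) :
    ∃ b : Perm V, Valid K C β s b ∧ ∀ i, ∀ v ∈ Ci i, b v = bi i v := by
  classical
  have hbar' : ∀ i, ∀ v ∈ Ci i, ∀ w ∉ Ci i, Adj v w → s v = w ∨ s w = v := by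
    intro i v hv w hw hvw
    have hv' := (hE i).agree v ((hV i).sub hv) ((hV i).deep v hv)
    have hw' := (hE i).agree w (hlayer i v hv w hvw).1 (hlayer i v hv w hvw).2
    rw [hv', hw']
    exact (hV i).barrier v hv w hw hvw
  set Z : Set V := {v | v ∈ C ∧ ∀ i, v ∉ Ci i} with hZ
  have hinv : ∀ v ∈ C, Adj v (s⁻¹ v) := by
    intro v hv
    have hv1 : s⁻¹ v ∈ K := by
      rw [hdec.image_mem]; simpa using hsub hv
    have := (hdec.adj _ hv1).1
    simpa using this.symm
  obtain ⟨b₀, h1, h2⟩ := blue_exists (Z := Z) (hK.subset fun v hv => hsub hv.1) (NR s)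
    (fun _ _ h => h.symm) (fun _ _ h => h.1) (by
      rintro v ⟨hv, hv'⟩
      have hstay : ∀ w, NR s v w → w ∈ Z := by
        rintro w ⟨ha, hb, hc⟩
        have hwC : w ∈ C := by
          by_contra hcon
          rcases hbar v hv w hcon ha with h | h
          · exact hb h
          · exact hc h
        refine ⟨hwC, fun i hi => ?_⟩
        rcases hbar' i w hi v (hv' i) ha.symm with h | h
        · exact hc h
        · exact hb h
      obtain ⟨x, y, hxy, h⟩ := two_NR (hdec.adj v (hsub hv)).1 (hinv v hv) (hdec.adj v (hsub hv)).2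
      exact ⟨x, hstay x ((h x).2 (Or.inl rfl)), y, hstay y ((h y).2 (Or.inr rfl)), hxy, h⟩)
  -- glue everything
  obtain ⟨p, p1, p2, -⟩ := glueAll (ι := Option ι) (O := fun o => o.elim Z Ci)
    (σ := fun o => o.elim b₀ bi)
    (by
      intro o v hv
      cases o with
      | none => exact h1 v hv
      | some i => exact (hV i).bout v hv)
    (by
      intro o o' v hv hv'
      cases o with
      | none =>
        cases o' with
        | none => rfl
        | some j => exact absurd hv' (hv.2 j)
      | some i =>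
        cases o' with
        | none => exact absurd hv (hv'.2 i)
        | some j => rw [hd i j v hv hv'])
  have pZ : ∀ v ∈ Z, p v = b₀ v := p1 none
  have pC : ∀ i, ∀ v ∈ Ci i, p v = bi i v := fun i => p1 (some i)
  refine ⟨p, ⟨hdec, hsub, hdeep, hbar, ?_, ?_⟩, pC⟩
  · intro v hv
    refine p2 v ?_
    intro o
    cases o with
    | none => exact fun h => hv h.1
    | some i => exact fun h => hv (hCC i h)
  · intro v hv
    by_cases hc : ∃ i, v ∈ Ci i
    · obtain ⟨i, hi⟩ := hc
      have hbi : bi i v ∈ Ci i := supp_image_mem (hV i).bout hi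
      rw [pC i v hi, pC i _ hbi]
      obtain ⟨⟨a1, a2, a3⟩, a4⟩ := (hV i).blue v hi
      have e1 := (hE i).agree v ((hV i).sub hi) ((hV i).deep v hi)
      have e2 := (hE i).agree _ ((hV i).sub hbi) ((hV i).deep _ hbi)
      refine ⟨⟨a1, ?_, ?_⟩, a4⟩
      · rw [e1]; exact a2
      · rw [e2]; exact a3
    · push Not at hc
      have hvZ : v ∈ Z := ⟨hv, hc⟩
      have hbZ : b₀ v ∈ Z := supp_image_mem h1 hvZ
      rw [pZ v hvZ, pZ _ hbZ]
      exact h2 v hvZ

end Pool.Agent.Schreier60
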