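import Pool.Agent.Schreier60.Seed

set_option autoImplicit false

namespace Pool.Agent.Schreier60

open Equiv Equiv.Perm MeasureTheory ProbabilityTheory

/-- The seed events. -/
@[irreducible] def SS (n : ℕ) : Set Om :=
  {ω | ω (0, 0) ∈ Set.Iic (thr n) ∧ ω (1, 0) ∈ Set.Ioi q3 ∧ ω (0, 1) ∈ Set.Ioc q2 q3 ∧
    ω (-1, 0) ∈ Set.Ioc q1 q2 ∧ ω (0, -1) ∈ Set.Ioc q1 q2}

lemma mem_SS {n : ℕ} {ω : Om} : ω ∈ SS n ↔
    ω (0, 0) ∈ Set.Iic (thr n) ∧ ω (1, 0) ∈ Set.Ioi q3 ∧ ω (0, 1) ∈ Set.Ioc q2 q3 ∧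
    ω (-1, 0) ∈ Set.Ioc q1 q2 ∧ ω (0, -1) ∈ Set.Ioc q1 q2 := by
  unfold SS; rfl

lemma SS_meas (n : ℕ) : MeasurableSet (SS n) := by
  have h : ∀ (u : V) {s : Set unitInterval}, MeasurableSet s → MeasurableSet {ω : Om | ω u ∈ s} :=
    fun u s hs => measurable_pi_apply u hs
  have : SS n = {ω : Om | ω (0, 0) ∈ Set.Iic (thr n)} ∩ ({ω : Om | ω (1, 0) ∈ Set.Ioi q3} ∩
      ({ω : Om | ω (0, 1) ∈ Set.Ioc q2 q3} ∩ ({ω : Om | ω (-1, 0) ∈ Set.Ioc q1 q2} ∩
        {ω : Om | ω (0, -1) ∈ Set.Ioc q1 q2}))) := by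
    ext ω
    rw [mem_SS]
    rfl
  rw [this]
  exact (h _ measurableSet_Iic).inter ((h _ measurableSet_Ioi).inter ((h _ measurableSet_Ioc).inter
    ((h _ measurableSet_Ioc).inter (h _ measurableSet_Ioc))))

/-- Translations. -/
def tr (v : V) : Perm V where
  toFun u := (v.1 + u.1, v.2 + u.2)
  invFun u := (u.1 - v.1, u.2 - v.2)
  left_inv := by rintro ⟨x, y⟩; simp
  right_inv := by rintro ⟨x, y⟩; simp

lemma tr_apply (v u : V) : tr v u = (v.1 + u.1, v.2 + u.2) := rfl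

lemma isAut_tr (v : V) : IsAut (tr v) := by
  intro u w
  rw [tr_apply, tr_apply]
  unfold Adj
  dsimp only
  omega

lemma near_of_box {g : Perm V} (hg : IsAut g) {L : ℤ} {w : V} (hw : w ∈ g '' Box L) :
    Near L (g (0, 0)) w := by
  obtain ⟨z, hz, rfl⟩ := hw
  rw [hg.near]
  rw [mem_box] at hz
  unfold Near
  dsimp only
  omega

lemma box_of_near {g : Perm V} (hg : IsAut g) {L : ℤ} {w : V} (h : Near (L - 1) (g (0, 0)) w) :
    w ∈ g '' Box L := by
  refine ⟨g⁻¹ w, ?_, by simp⟩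
  have e : w = g (g⁻¹ w) := by simp
  rw [e, hg.near] at h
  rw [mem_box]
  unfold Near at h
  dsimp only at h
  omega

lemma TT_of {ell : ℕ → ℤ} {S : ℕ → Set Om} {n : ℕ} {g : Perm V} {ω : Om} (hg : IsAut g)
    (h1 : sh ω g ∈ S n)
    (h2 : ∀ m, n ≤ m → ∀ h', IsAut h' → sh ω h' ∈ S m → ¬ (m = n ∧ h' = g) →
      Sep (g '' Box (ell n)) (h' '' Box (ell m)) ∨
        (n < m ∧ Ins (g '' Box (ell n)) (h' '' Box (ell m)))) : TT ell S n g ω := by
  refine ⟨hg, h1, ?_⟩
  intro m hnm h hh hS hne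
  have k := h2 m hnm (g * h) (hg.mul hh) (by rw [sh_mul]; exact hS) (by
    rintro ⟨e1, e2⟩
    exact hne ⟨e1, by simpa using e2⟩)
  have e1 : (g⁻¹ : Perm V) '' (g '' Box (ell n)) = Box (ell n) := by
    rw [← image_mul, inv_mul_cancel]; simp
  have e2 : (g⁻¹ : Perm V) '' ((g * h) '' Box (ell m)) = h '' Box (ell m) := by
    rw [← image_mul, inv_mul_cancel_left]
  rcases k with k | ⟨k, k'⟩
  · left
    have := k.image hg.inv
    rwa [e1, e2] at this
  · right
    refine ⟨k, ?_⟩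
    have := k'.image hg.inv
    rwa [e1, e2] at this

section values

variable {n : ℕ} {v : V} {ω : Om}

lemma tt_e1 : tt n v (v.1 + 1, v.2) = Set.Ioi q3 := by
  unfold tt
  rw [if_neg (ne_of_fst (by dsimp only; omega)), if_pos rfl]

lemma tt_e2 : tt n v (v.1, v.2 + 1) = Set.Ioc q2 q3 := by
  unfold tt
  rw [if_neg (ne_of_snd (by dsimp only; omega)), if_neg (ne_of_snd (by dsimp only; omega)),
    if_pos rfl]

lemma tt_e3 : tt n v (v.1 - 1, v.2) = Set.Ioc q1 q2 := by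
  unfold tt
  rw [if_neg (ne_of_fst (by dsimp only; omega)), if_neg (ne_of_fst (by dsimp only; omega)),
    if_neg (ne_of_snd (by dsimp only; omega)), if_pos rfl]

lemma tt_e4 : tt n v (v.1, v.2 - 1) = Set.Ioc q1 q2 := by
  unfold tt
  rw [if_neg (ne_of_snd (by dsimp only; omega)), if_neg (ne_of_snd (by dsimp only; omega)),
    if_neg (ne_of_snd (by dsimp only; omega)), if_neg (ne_of_snd (by dsimp only; omega)),
    if_pos rfl]

lemma nbr_cases {v u : V} (h : Adj v u) : u = (v.1 + 1, v.2) ∨ u = (v.1, v.2 + 1) ∨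
    u = (v.1 - 1, v.2) ∨ u = (v.1, v.2 - 1) := by
  obtain ⟨x, y⟩ := u
  unfold Adj at h
  dsimp only at h
  simp only [Prod.mk.injEq]
  omega

lemma val_e (hv : v ∈ Wn n) (hF : ω ∈ Fn n v) : ω v ∈ Set.Iic (thr (n + 1)) ∧
    ω (v.1 + 1, v.2) ∈ Set.Ioi q3 ∧ ω (v.1, v.2 + 1) ∈ Set.Ioc q2 q3 ∧
    ω (v.1 - 1, v.2) ∈ Set.Ioc q1 q2 ∧ ω (v.1, v.2 - 1) ∈ Set.Ioc q1 q2 := by
  rw [mem_Fn] at hF
  refine ⟨?_, ?_, ?_, ?_, ?_⟩
  · rw [← tt_self n v]; exact hF _ (nbr_mem hv (by unfold Near; omega))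
  · rw [← tt_e1 (n := n)]; exact hF _ (nbr_mem hv (by unfold Near; dsimp only; omega))
  · rw [← tt_e2 (n := n)]; exact hF _ (nbr_mem hv (by unfold Near; dsimp only; omega))
  · rw [← tt_e3 (n := n)]; exact hF _ (nbr_mem hv (by unfold Near; dsimp only; omega))
  · rw [← tt_e4 (n := n)]; exact hF _ (nbr_mem hv (by unfold Near; dsimp only; omega))

lemma frame_unique {m : ℕ} (hv : v ∈ Wn n) (hF : ω ∈ Fn n v) {h : Perm V} (hh : IsAut h)
    (h0 : h (0, 0) = v) (hS : sh ω h ∈ SS m) : h = tr v := by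
  obtain ⟨-, a1, a2, a3, a4⟩ := val_e hv hF
  rw [mem_SS] at hS
  obtain ⟨-, b1, b2, -, -⟩ := hS
  have adj1 : Adj v (h (1, 0)) := by
    rw [← h0, hh]; unfold Adj; dsimp only; omega
  have adj2 : Adj v (h (0, 1)) := by
    rw [← h0, hh]; unfold Adj; dsimp only; omega
  have c1 : h (1, 0) = (v.1 + 1, v.2) := by
    have b1' : q3 < ω (h (1, 0)) := b1
    rcases nbr_cases adj1 with e | e | e | e
    · exact e
    · rw [e] at b1'; exact absurd a2.2 (not_le.2 b1')
    · rw [e] at b1'; exact absurd (a3.2.trans q2_lt_q3.le) (not_le.2 b1')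
    · rw [e] at b1'; exact absurd (a4.2.trans q2_lt_q3.le) (not_le.2 b1')
  have c2 : h (0, 1) = (v.1, v.2 + 1) := by
    have b2' : q2 < ω (h (0, 1)) := b2.1
    have b3' : ω (h (0, 1)) ≤ q3 := b2.2
    rcases nbr_cases adj2 with e | e | e | e
    · rw [e] at b3'; exact absurd b3' (not_le.2 a1)
    · exact e
    · rw [e] at b2'; exact absurd a3.2 (not_le.2 b2')
    · rw [e] at b2'; exact absurd a4.2 (not_le.2 b2')
  refine hh.ext (isAut_tr v) ?_ ?_ ?_
  · rw [h0, tr_apply]; ext <;> dsimp only <;> omega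
  · rw [c1, tr_apply]; ext <;> dsimp only; omega
  · rw [c2, tr_apply]; ext <;> dsimp only; omega

end values

/-- The good event without the bad event produces a surviving piece covering the origin. -/
theorem main_step {n : ℕ} {ω : Om} (hE : ω ∈ En n) (hB : ω ∉ Bad n) :
    ∃ g, TT lZ SS (n + 1) g ω ∧ ((0, 0) : V) ∈ g '' Box (lZ (n + 1)) := by
  obtain ⟨v, hv, hF⟩ : ∃ v ∈ Wn n, ω ∈ Fn n v := by
    unfold En at hE; exact hE
  have hvW := mem_Wn.1 hv
  have hq := four_qq n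
  have hL := lZ_big (n + 1)
  have htr0 : tr v (0, 0) = v := by rw [tr_apply]; ext <;> dsimp only <;> omega
  obtain ⟨a0, a1, a2, a3, a4⟩ := val_e hv hF
  have hin : ω ∉ Din n := fun h => hB (Or.inl h)
  have hout : ∀ k, ω ∉ Cout n k := fun k h => hB (Or.inr (Set.mem_iUnion.2 ⟨k, h⟩))
  refine ⟨tr v, TT_of (isAut_tr v) ?_ ?_, ?_⟩
  · rw [mem_SS]
    have e0 : tr v (0, 0) = v := htr0
    have e1 : tr v (1, 0) = (v.1 + 1, v.2) := by rw [tr_apply]; ext <;> dsimp only; omega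
    have e2 : tr v (0, 1) = (v.1, v.2 + 1) := by rw [tr_apply]; ext <;> dsimp only; omega
    have e3 : tr v (-1, 0) = (v.1 - 1, v.2) := by rw [tr_apply]; ext <;> dsimp only <;> omega
    have e4 : tr v (0, -1) = (v.1, v.2 - 1) := by rw [tr_apply]; ext <;> dsimp only <;> omega
    unfold sh
    rw [e0, e1, e2, e3, e4]
    exact ⟨a0, a1, a2, a3, a4⟩
  · intro m hnm h hh hS hne
    have hS' := mem_SS.1 hS
    obtain ⟨b0, -⟩ := hS'
    have b0' : ω (h (0, 0)) ≤ thr m := b0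
    -- the two possible conclusions
    have hsep : ∀ M : ℤ, ¬ Near (M + 3 * lZ (n + 1)) (0, 0) (h (0, 0)) →
        Sep (tr v '' Box (lZ (n + 1))) (h '' Box M) := by
      intro M hfar w1 hw1 w2 hw2 hn
      apply hfar
      have k1 := near_of_box (isAut_tr v) hw1
      have k2 := near_of_box hh hw2
      rw [htr0] at k1
      generalize h (0, 0) = c at *
      unfold Near at *
      dsimp only at *
      omega
    rcases hnm.eq_or_lt with heq | hlt
    · subst heq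
      left
      apply hsep
      intro hnear
      have hnear' : Near (4 * lZ (n + 1)) (0, 0) (h (0, 0)) := hnear.mono (by omega)
      by_cases hin' : Near (4 * lZ n + 1) (0, 0) (h (0, 0))
      · exact hin ⟨h (0, 0), mem_Bf.2 hin', b0'⟩
      · have hA : h (0, 0) ∈ An n := mem_An.2 ⟨hnear', hin'⟩
        by_cases hc : h (0, 0) = v
        · exact hne ⟨rfl, frame_unique hv hF hh hc hS⟩
        · have := tt_other hc (mem_Fn.1 hF _ hA)
          exact absurd b0' (not_le.2 this)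
    · obtain ⟨k, rfl⟩ : ∃ k, m = n + 2 + k := ⟨m - n - 2, by omega⟩
      have hM : 65536 * lZ (n + 1) ≤ lZ (n + 2 + k) := lZ_lt (by omega)
      by_cases h1 : Near (lZ (n + 2 + k) + 3 * lZ (n + 1)) (0, 0) (h (0, 0))
      · by_cases h2 : Near (lZ (n + 2 + k) - 3 * lZ (n + 1) - 1) (0, 0) (h (0, 0))
        · right
          refine ⟨by omega, ?_⟩
          intro w hw z hwz
          apply box_of_near hh
          have k1 := near_of_box (isAut_tr v) hw
          rw [htr0] at k1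
          generalize h (0, 0) = c at *
          generalize lZ (n + 2 + k) = M at *
          generalize lZ (n + 1) = L at *
          unfold Near at *
          dsimp only at *
          omega
        · exact absurd (show ω ∈ Cout n k from ⟨h (0, 0), mem_St h1 h2, b0'⟩) (hout k)
      · left
        exact hsep _ h1
  · apply box_of_near (isAut_tr v)
    rw [htr0]
    unfold Near
    dsimp only
    omega

/-- Almost every configuration is good. -/
theorem ae_good : ∀ᵐ ω ∂mu, Good lZ SS ω := by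
  filter_upwards [En_frequently, ae_eventually_notMem mu_Bad_sum] with ω h1 h2
  intro N
  obtain ⟨n, ⟨hn1, hn2⟩, hn3⟩ := (h1.and_eventually (h2.and (Filter.eventually_ge_atTop N))).exists.imp
    fun n h => (⟨⟨h.1, h.2.1⟩, h.2.2⟩ : (ω ∈ En n ∧ ω ∉ Bad n) ∧ N ≤ n)
  obtain ⟨g, hg, h0⟩ := main_step hn1 hn2
  exact ⟨n + 1, by omega, g, hg, h0⟩

end Pool.Agent.Schreier60
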