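import Mathlib

set_option autoImplicit false

namespace Pool.Agent.Schreier60

/-- Vertices of the square lattice. -/
abbrev V := ℤ × ℤ

/-- Nearest-neighbour adjacency, in a form suited to `omega`. -/
def Adj (u v : V) : Prop :=
  (u.1 = v.1 ∧ (u.2 = v.2 + 1 ∨ v.2 = u.2 + 1)) ∨ (u.2 = v.2 ∧ (u.1 = v.1 + 1 ∨ v.1 = u.1 + 1))

lemma Adj.symm {u v : V} (h : Adj u v) : Adj v u := by
  unfold Adj at *; omega

lemma adj_comm {u v : V} : Adj u v ↔ Adj v u := ⟨Adj.symm, Adj.symm⟩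

lemma not_adj_self (u : V) : ¬ Adj u u := by unfold Adj; omega

lemma Adj.ne {u v : V} (h : Adj u v) : u ≠ v := by
  rintro rfl; exact not_adj_self _ h

lemma adj_mk {a b c d : ℤ} : Adj (a, b) (c, d) ↔
    (a = c ∧ (b = d + 1 ∨ d = b + 1)) ∨ (b = d ∧ (a = c + 1 ∨ c = a + 1)) := Iff.rfl

/-- A permutation of the vertices which preserves adjacency. -/
def IsAut (g : Equiv.Perm V) : Prop := ∀ u v, Adj (g u) (g v) ↔ Adj u v

lemma IsAut.one : IsAut 1 := fun _ _ => Iff.rfl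

lemma IsAut.mul {g h : Equiv.Perm V} (hg : IsAut g) (hh : IsAut h) : IsAut (g * h) := by
  intro u v
  rw [Equiv.Perm.mul_apply, Equiv.Perm.mul_apply, hg, hh]

lemma IsAut.inv {g : Equiv.Perm V} (hg : IsAut g) : IsAut g⁻¹ := by
  intro u v
  rw [← hg]
  simp

/-- The four cases of a unit square. -/
lemma square_aux {a1 a2 b1 b2 c1 c2 d1 d2 : ℤ}
    (hab : Adj (a1, a2) (b1, b2)) (hac : Adj (a1, a2) (c1, c2)) (hdb : Adj (d1, d2) (b1, b2))
    (hdc : Adj (d1, d2) (c1, c2)) (hbc : ¬ (b1 = c1 ∧ b2 = c2)) (had : ¬ (a1 = d1 ∧ a2 = d2)) :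
    d1 = b1 + c1 - a1 ∧ d2 = b2 + c2 - a2 ∧ ¬ (b1 + c1 = 2 * a1 ∧ b2 + c2 = 2 * a2) := by
  rw [adj_mk] at *
  omega

lemma straight_aux {a1 a2 b1 b2 c1 c2 e1 e2 f1 f2 : ℤ}
    (hab : Adj (a1, a2) (b1, b2)) (hac : Adj (a1, a2) (c1, c2)) (hae : Adj (a1, a2) (e1, e2))
    (haf : Adj (a1, a2) (f1, f2)) (hbe : ¬ (b1 = e1 ∧ b2 = e2)) (hce : ¬ (c1 = e1 ∧ c2 = e2))
    (hfe : ¬ (f1 = e1 ∧ f2 = e2)) (hbc : ¬ (b1 = c1 ∧ b2 = c2)) (hbf : ¬ (b1 = f1 ∧ b2 = f2))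
    (hcf : ¬ (c1 = f1 ∧ c2 = f2))
    (h1 : ¬ (b1 + c1 = 2 * a1 ∧ b2 + c2 = 2 * a2)) (h2 : ¬ (b1 + f1 = 2 * a1 ∧ b2 + f2 = 2 * a2)) :
    b1 + e1 = 2 * a1 ∧ b2 + e2 = 2 * a2 := by
  have key : ∀ {x1 x2 y1 y2 : ℤ}, Adj (x1, x2) (y1, y2) →
      (y1 = x1 + 1 ∧ y2 = x2) ∨ (y1 = x1 - 1 ∧ y2 = x2) ∨ (y1 = x1 ∧ y2 = x2 + 1) ∨
        (y1 = x1 ∧ y2 = x2 - 1) := by
    intro x1 x2 y1 y2 h
    rw [adj_mk] at h
    omega
  rcases key hab with ⟨rfl, rfl⟩ | ⟨rfl, rfl⟩ | ⟨rfl, rfl⟩ | ⟨rfl, rfl⟩ <;>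
    rcases key hae with ⟨rfl, rfl⟩ | ⟨rfl, rfl⟩ | ⟨rfl, rfl⟩ | ⟨rfl, rfl⟩ <;>
    first
    | omega
    | (exfalso
       rcases key hac with ⟨rfl, rfl⟩ | ⟨rfl, rfl⟩ | ⟨rfl, rfl⟩ | ⟨rfl, rfl⟩ <;>
       first
       | omega
       | (rcases key haf with ⟨rfl, rfl⟩ | ⟨rfl, rfl⟩ | ⟨rfl, rfl⟩ | ⟨rfl, rfl⟩ <;> omega))

lemma IsAut.square {g : Equiv.Perm V} (hg : IsAut g) {a b c d : V}
    (hab : Adj a b) (hac : Adj a c) (hdb : Adj d b) (hdc : Adj d c) (hbc : b ≠ c) (had : a ≠ d) :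
    (g d).1 = (g b).1 + (g c).1 - (g a).1 ∧ (g d).2 = (g b).2 + (g c).2 - (g a).2 ∧
      ¬ ((g b).1 + (g c).1 = 2 * (g a).1 ∧ (g b).2 + (g c).2 = 2 * (g a).2) :=
  square_aux ((hg _ _).2 hab) ((hg _ _).2 hac) ((hg _ _).2 hdb) ((hg _ _).2 hdc)
    (fun h => hbc (g.injective (Prod.ext h.1 h.2))) (fun h => had (g.injective (Prod.ext h.1 h.2)))

lemma IsAut.straight {g : Equiv.Perm V} (hg : IsAut g) {a b c e f : V}
    (hab : Adj a b) (hac : Adj a c) (hae : Adj a e) (haf : Adj a f)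
    (hbe : b ≠ e) (hce : c ≠ e) (hfe : f ≠ e) (hbc : b ≠ c) (hbf : b ≠ f) (hcf : c ≠ f)
    (h1 : ¬ ((g b).1 + (g c).1 = 2 * (g a).1 ∧ (g b).2 + (g c).2 = 2 * (g a).2))
    (h2 : ¬ ((g b).1 + (g f).1 = 2 * (g a).1 ∧ (g b).2 + (g f).2 = 2 * (g a).2)) :
    (g b).1 + (g e).1 = 2 * (g a).1 ∧ (g b).2 + (g e).2 = 2 * (g a).2 :=
  straight_aux ((hg _ _).2 hab) ((hg _ _).2 hac) ((hg _ _).2 hae) ((hg _ _).2 haf)
    (fun h => hbe (g.injective (Prod.ext h.1 h.2))) (fun h => hce (g.injective (Prod.ext h.1 h.2)))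
    (fun h => hfe (g.injective (Prod.ext h.1 h.2))) (fun h => hbc (g.injective (Prod.ext h.1 h.2)))
    (fun h => hbf (g.injective (Prod.ext h.1 h.2))) (fun h => hcf (g.injective (Prod.ext h.1 h.2)))
    h1 h2

/-- Second differences of an automorphism vanish. -/
lemma IsAut.diffs {g : Equiv.Perm V} (hg : IsAut g) (x y : ℤ) :
    ((g (x + 1, y)).1 + (g (x - 1, y)).1 = 2 * (g (x, y)).1 ∧
      (g (x + 1, y)).2 + (g (x - 1, y)).2 = 2 * (g (x, y)).2) ∧
    ((g (x, y + 1)).1 + (g (x, y - 1)).1 = 2 * (g (x, y)).1 ∧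
      (g (x, y + 1)).2 + (g (x, y - 1)).2 = 2 * (g (x, y)).2) ∧
    ((g (x + 1, y + 1)).1 = (g (x + 1, y)).1 + (g (x, y + 1)).1 - (g (x, y)).1 ∧
      (g (x + 1, y + 1)).2 = (g (x + 1, y)).2 + (g (x, y + 1)).2 - (g (x, y)).2) := by
  have ne : ∀ {a b c d : ℤ}, ¬ (a = c ∧ b = d) → ((a, b) : V) ≠ (c, d) := by
    intro a b c d h h'
    exact h ⟨congrArg Prod.fst h', congrArg Prod.snd h'⟩
  have s1 := hg.square (a := (x, y)) (b := (x + 1, y)) (c := (x, y + 1)) (d := (x + 1, y + 1))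
    (by rw [adj_mk]; omega) (by rw [adj_mk]; omega) (by rw [adj_mk]; omega) (by rw [adj_mk]; omega)
    (ne (by omega)) (ne (by omega))
  have s2 := hg.square (a := (x, y)) (b := (x + 1, y)) (c := (x, y - 1)) (d := (x + 1, y - 1))
    (by rw [adj_mk]; omega) (by rw [adj_mk]; omega) (by rw [adj_mk]; omega) (by rw [adj_mk]; omega)
    (ne (by omega)) (ne (by omega))
  have s3 := hg.square (a := (x, y)) (b := (x, y + 1)) (c := (x - 1, y)) (d := (x - 1, y + 1))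
    (by rw [adj_mk]; omega) (by rw [adj_mk]; omega) (by rw [adj_mk]; omega) (by rw [adj_mk]; omega)
    (ne (by omega)) (ne (by omega))
  have t1 := hg.straight (a := (x, y)) (b := (x + 1, y)) (c := (x, y + 1)) (e := (x - 1, y))
    (f := (x, y - 1))
    (by rw [adj_mk]; omega) (by rw [adj_mk]; omega) (by rw [adj_mk]; omega) (by rw [adj_mk]; omega)
    (ne (by omega)) (ne (by omega)) (ne (by omega)) (ne (by omega)) (ne (by omega)) (ne (by omega))
    s1.2.2 s2.2.2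
  have t2 := hg.straight (a := (x, y)) (b := (x, y + 1)) (c := (x + 1, y)) (e := (x, y - 1))
    (f := (x - 1, y))
    (by rw [adj_mk]; omega) (by rw [adj_mk]; omega) (by rw [adj_mk]; omega) (by rw [adj_mk]; omega)
    (ne (by omega)) (ne (by omega)) (ne (by omega)) (ne (by omega)) (ne (by omega)) (ne (by omega))
    (by have := s1.2.2; omega) s3.2.2
  exact ⟨t1, t2, s1.1, s1.2.1⟩

/-- A sequence indexed by `ℤ` with vanishing second differences is affine. -/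
lemma affine_of_diff {f : ℤ → ℤ} (h : ∀ x, f (x + 1) + f (x - 1) = 2 * f x) (x : ℤ) :
    f x = f 0 + x * (f 1 - f 0) := by
  have key : ∀ x, f (x + 1) - f x = f 1 - f 0 := by
    intro x
    induction x using Int.induction_on with
    | zero => simp
    | succ i ih =>
      have := h (i + 1)
      have e : (i : ℤ) + 1 - 1 = i := by ring
      rw [e] at this
      linarith
    | pred i ih =>
      have := h (-i)
      have e : -(i : ℤ) - 1 + 1 = -i := by ring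
      rw [e]
      linarith
  induction x using Int.induction_on with
  | zero => simp
  | succ i ih => have := key i; linarith
  | pred i ih =>
    have := key (-i - 1)
    have e : -(i : ℤ) - 1 + 1 = -i := by ring
    rw [e] at this
    linarith

/-- Classification of the automorphisms of the square lattice. -/
theorem IsAut.classify {g : Equiv.Perm V} (hg : IsAut g) :
    ∃ a b c d t₁ t₂ : ℤ,
      (((a = 1 ∨ a = -1) ∧ b = 0 ∧ c = 0 ∧ (d = 1 ∨ d = -1)) ∨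
        (a = 0 ∧ (b = 1 ∨ b = -1) ∧ (c = 1 ∨ c = -1) ∧ d = 0)) ∧
      ∀ x y : ℤ, g (x, y) = (t₁ + a * x + b * y, t₂ + c * x + d * y) := by
  have hD := hg.diffs
  -- difference in the vertical direction is independent of x
  have hv : ∀ x y, (g (x, y + 1)).1 - (g (x, y)).1 = (g (0, y + 1)).1 - (g (0, y)).1 ∧
      (g (x, y + 1)).2 - (g (x, y)).2 = (g (0, y + 1)).2 - (g (0, y)).2 := by
    intro x y
    induction x using Int.induction_on with
    | zero => simp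
    | succ i ih => have := (hD i y).2.2; omega
    | pred i ih =>
      have := (hD (-i - 1) y).2.2
      have e : -(i : ℤ) - 1 + 1 = -i := by ring
      rw [e] at this
      omega
  have h1 : ∀ x y, (g (x, y)).1 = (g (0, y)).1 + x * ((g (1, y)).1 - (g (0, y)).1) := fun x y =>
    affine_of_diff (f := fun x => (g (x, y)).1) (fun x => (hD x y).1.1) x
  have h2 : ∀ x y, (g (x, y)).2 = (g (0, y)).2 + x * ((g (1, y)).2 - (g (0, y)).2) := fun x y =>
    affine_of_diff (f := fun x => (g (x, y)).2) (fun x => (hD x y).1.2) x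
  have h3 : ∀ y, (g (0, y)).1 = (g (0, 0)).1 + y * ((g (0, 1)).1 - (g (0, 0)).1) := fun y =>
    affine_of_diff (f := fun y => (g (0, y)).1) (fun y => (hD 0 y).2.1.1) y
  have h4 : ∀ y, (g (0, y)).2 = (g (0, 0)).2 + y * ((g (0, 1)).2 - (g (0, 0)).2) := fun y =>
    affine_of_diff (f := fun y => (g (0, y)).2) (fun y => (hD 0 y).2.1.2) y
  have h5 : ∀ y, (g (1, y)).1 = (g (1, 0)).1 + y * ((g (0, 1)).1 - (g (0, 0)).1) := by
    intro y
    have := affine_of_diff (f := fun y => (g (1, y)).1) (fun y => (hD 1 y).2.1.1) y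
    have h6 := (hv 1 0).1
    rw [zero_add] at h6
    rw [this, h6]
  have h6 : ∀ y, (g (1, y)).2 = (g (1, 0)).2 + y * ((g (0, 1)).2 - (g (0, 0)).2) := by
    intro y
    have := affine_of_diff (f := fun y => (g (1, y)).2) (fun y => (hD 1 y).2.1.2) y
    have h6 := (hv 1 0).2
    rw [zero_add] at h6
    rw [this, h6]
  refine ⟨(g (1, 0)).1 - (g (0, 0)).1, (g (0, 1)).1 - (g (0, 0)).1,
    (g (1, 0)).2 - (g (0, 0)).2, (g (0, 1)).2 - (g (0, 0)).2, (g (0, 0)).1, (g (0, 0)).2, ?_, ?_⟩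
  · have e1 : Adj (g (0, 0)) (g (1, 0)) := (hg _ _).2 (by rw [adj_mk]; omega)
    have e2 : Adj (g (0, 0)) (g (0, 1)) := (hg _ _).2 (by rw [adj_mk]; omega)
    have e3 := hg.square (a := (0, 0)) (b := (1, 0)) (c := (0, 1)) (d := (1, 1))
      (by rw [adj_mk]; omega) (by rw [adj_mk]; omega) (by rw [adj_mk]; omega)
      (by rw [adj_mk]; omega) (by simp) (by simp)
    have e4 : g (1, 0) ≠ g (0, 1) := fun h => by
      have := g.injective h; simp at this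
    have e5 : ¬ ((g (1, 0)).1 = (g (0, 1)).1 ∧ (g (1, 0)).2 = (g (0, 1)).2) :=
      fun h => e4 (Prod.ext h.1 h.2)
    have e6 := e3.2.2
    unfold Adj at e1 e2
    omega
  · intro x y
    apply Prod.ext
    · simp only
      rw [h1, h5, h3]; ring
    · simp only
      rw [h2, h6, h4]; ring

/-- Two automorphisms which agree at `0`, `e₁` and `e₂` are equal. -/
theorem IsAut.ext {g h : Equiv.Perm V} (hg : IsAut g) (hh : IsAut h) (h0 : g (0, 0) = h (0, 0))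
    (h1 : g (1, 0) = h (1, 0)) (h2 : g (0, 1) = h (0, 1)) : g = h := by
  obtain ⟨a, b, c, d, t₁, t₂, -, H⟩ := hg.classify
  obtain ⟨a', b', c', d', t₁', t₂', -, H'⟩ := hh.classify
  rw [H, H'] at h0 h1 h2
  simp only [Prod.mk.injEq] at h0 h1 h2
  ext ⟨x, y⟩
  · rw [H, H']
    have : t₁ = t₁' ∧ a = a' ∧ b = b' := by omega
    simp only [this.1, this.2.1, this.2.2]
  · rw [H, H']
    have : t₂ = t₂' ∧ c = c' ∧ d = d' := by omega
    simp only [this.1, this.2.1, this.2.2]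

/-- Sup-norm closeness. -/
def Near (r : ℤ) (u v : V) : Prop :=
  u.1 - v.1 ≤ r ∧ v.1 - u.1 ≤ r ∧ u.2 - v.2 ≤ r ∧ v.2 - u.2 ≤ r

lemma Near.symm {r : ℤ} {u v : V} (h : Near r u v) : Near r v u := by
  unfold Near at *; omega

lemma Near.trans {r s : ℤ} {u v w : V} (h : Near r u v) (h' : Near s v w) : Near (r + s) u w := by
  unfold Near at *; omega

lemma Near.mono {r s : ℤ} {u v : V} (h : Near r u v) (hrs : r ≤ s) : Near s u v := by
  unfold Near at *; omega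

lemma near_refl {r : ℤ} (hr : 0 ≤ r) (u : V) : Near r u u := by
  unfold Near; omega

lemma Adj.near {u v : V} (h : Adj u v) : Near 1 u v := by
  unfold Adj at h; unfold Near; omega

/-- Automorphisms preserve the sup-norm. -/
lemma IsAut.near {g : Equiv.Perm V} (hg : IsAut g) (r : ℤ) (u v : V) :
    Near r (g u) (g v) ↔ Near r u v := by
  obtain ⟨a, b, c, d, t₁, t₂, hc, H⟩ := hg.classify
  obtain ⟨x, y⟩ := u
  obtain ⟨x', y'⟩ := v
  rw [H, H]
  unfold Near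
  simp only
  rcases hc with ⟨rfl | rfl, rfl, rfl, rfl | rfl⟩ | ⟨rfl, rfl | rfl, rfl | rfl, rfl⟩ <;> omega

end Pool.Agent.Schreier60
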