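import Pool.Agent.Schreier60.Toast

set_option autoImplicit false

namespace Pool.Agent.Schreier60

open Equiv Equiv.Perm

/-- Direct limit of permutations. -/
lemma exists_limit {I : Type*} (A : I → Set V) (p : I → Perm V)
    (hcov : ∀ r : ℤ, ∃ i, ∀ v, Near r (0, 0) v → v ∈ A i)
    (hcons : ∀ i j v, v ∈ A i → v ∈ A j → p i v = p j v)
    (hadj : ∀ i, ∀ v ∈ A i, Adj v ((p i)⁻¹ v)) :
    ∃ s : Perm V, ∀ i, ∀ v ∈ A i, s v = p i v := by
  have hone : ∀ v : V, ∃ i, v ∈ A i := by
    intro v
    obtain ⟨i, hi⟩ := hcov (v.1.natAbs + v.2.natAbs)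
    exact ⟨i, hi v (by unfold Near; dsimp only; omega)⟩
  choose k hk using hone
  let f : V → V := fun v => p (k v) v
  have hf : ∀ i, ∀ v ∈ A i, f v = p i v := fun i v hv => hcons _ _ v (hk v) hv
  have hinj : Function.Injective f := by
    intro u v huv
    obtain ⟨i, hi⟩ := hcov (u.1.natAbs + u.2.natAbs + v.1.natAbs + v.2.natAbs)
    have hu : u ∈ A i := hi u (by unfold Near; dsimp only; omega)
    have hv : v ∈ A i := hi v (by unfold Near; dsimp only; omega)
    rw [hf i u hu, hf i v hv] at huv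
    exact (p i).injective huv
  have hsurj : Function.Surjective f := by
    intro w
    obtain ⟨i, hi⟩ := hcov (w.1.natAbs + w.2.natAbs + 1)
    have hw : w ∈ A i := hi w (by unfold Near; dsimp only; omega)
    have ha := hadj i w hw
    have hu : (p i)⁻¹ w ∈ A i := hi _ (by
      unfold Adj at ha; unfold Near; dsimp only; omega)
    exact ⟨(p i)⁻¹ w, by rw [hf i _ hu]; simp⟩
  exact ⟨Equiv.ofBijective f ⟨hinj, hsurj⟩, hf⟩

section toast

variable (ell : ℕ → ℤ) (S : ℕ → Set Om)

/-- The origin is covered by surviving pieces of arbitrarily large level. -/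
def Good (ω : Om) : Prop :=
  ∀ N : ℕ, ∃ n, N ≤ n ∧ ∃ g, TT ell S n g ω ∧ ((0, 0) : V) ∈ g '' Box (ell n)

/-- The arrows of the decoration; `true` is red and `false` is blue. -/
def Arr (ω : Om) (c : Bool) (u v : V) : Prop :=
  ∃ n g, TT ell S n g ω ∧ u ∈ g '' Cor (ell n) ∧
    (if c = true then red ell S n g ω u else blu ell S n g ω u) = v

variable {ell S}

lemma cover_box {ω : Om} (hG : Good ell S ω) (k : ℕ) : ∃ n g, TT ell S n g ω ∧
    ∀ v, Near (30 * k) (0, 0) v → v ∈ g '' Box (ell n) := by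
  induction k with
  | zero =>
    obtain ⟨n, -, g, hg, h0⟩ := hG 0
    refine ⟨n, g, hg, ?_⟩
    rintro ⟨a, b⟩ hv
    unfold Near at hv
    dsimp only at hv
    have h1 : a = 0 := by omega
    have h2 : b = 0 := by omega
    subst h1; subst h2
    exact h0
  | succ k ih =>
    obtain ⟨n, g, hg, hc⟩ := ih
    obtain ⟨n', hn', g', hg', h0⟩ := hG (n + 1)
    refine ⟨n', g', hg', ?_⟩
    have hz : ((0, 0) : V) ∈ g '' Box (ell n) := hc _ (near_refl (by positivity) _)
    rcases pairwise_T hg.1 hg'.1 hg.2 hg'.2 (by omega) (fun e => by omega) with h | ⟨-, h⟩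
    · exact absurd (near_refl (by norm_num) _) (h _ hz _ h0)
    · intro v hv
      refine h (max (-(30 * (k : ℤ))) (min v.1 (30 * k)), max (-(30 * (k : ℤ))) (min v.2 (30 * k)))
        (hc _ ?_) v ?_
      · unfold Near; dsimp only; omega
      · unfold Near at hv ⊢
        dsimp only at hv ⊢
        push_cast at hv
        omega

lemma cover_cor {ω : Om} (hG : Good ell S ω) (r : ℤ) : ∃ n g, TT ell S n g ω ∧
    ∀ v, Near r (0, 0) v → v ∈ g '' Cor (ell n) := by
  obtain ⟨n, g, hg, hc⟩ := cover_box hG (r + 2).toNat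
  refine ⟨n, g, hg, ?_⟩
  intro v hv
  have hbig : ∀ w, Near 2 w (g⁻¹ v) → w ∈ Box (ell n) := by
    intro w hw
    have hw' : Near 2 (g w) v := by
      have := hg.1.near 2 w (g⁻¹ v)
      rw [← this] at hw
      simpa using hw
    obtain ⟨z, hz, hz'⟩ := hc (g w) (by
      unfold Near at hv hw' ⊢
      dsimp only at hv ⊢
      omega)
    rwa [← g.injective hz']
  refine ⟨g⁻¹ v, ?_, by simp⟩
  generalize g⁻¹ v = z at hbig
  obtain ⟨a, b⟩ := z
  have h1 := hbig (a - 2, b - 2) (by unfold Near; dsimp only; omega)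
  have h2 := hbig (a + 2, b + 2) (by unfold Near; dsimp only; omega)
  rw [mem_box] at h1 h2
  rw [mem_cor]
  dsimp only at h1 h2 ⊢
  omega

lemma valid_placed (hell : ∀ n, ell n % 2 = 0 ∧ 2 ≤ ell n) {ω : Om} {n : ℕ} {g : Perm V}
    (hg : TT ell S n g ω) : Valid (g '' Box (ell n)) (g '' Cor (ell n)) (g * blk * g⁻¹)
      (red ell S n g ω) (blu ell S n g ω) := (deco_spec hell n (sh ω g)).1.conj hg.1

lemma Valid.adj_inv {K C : Set V} {β s b : Perm V} (h : Valid K C β s b) {v : V} (hv : v ∈ K) :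
    Adj v (s⁻¹ v) := by
  have h1 : s⁻¹ v ∈ K := by rw [h.dec.image_mem]; simpa using hv
  have := (h.dec.adj _ h1).1
  simpa using this.symm

lemma Valid.adj_inv' {K C : Set V} {β s b : Perm V} (h : Valid K C β s b) {v : V} (hv : v ∈ C) :
    Adj v (b⁻¹ v) := by
  have h1 : b⁻¹ v ∈ C := by
    by_contra hcon
    have h2 := h.bout _ hcon
    rw [show b (b⁻¹ v) = v by simp] at h2
    rw [← h2] at hcon
    exact hcon hv
  have := (h.blue _ h1).1.1
  simpa using this.symm

/-- Powers agree on an orbit which stays in the set of agreement. -/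
lemma zpow_agree {s p : Perm V} {A : Set V} {u : V} (hA : ∀ k : ℤ, (s ^ k) u ∈ A)
    (h : ∀ v ∈ A, s v = p v) (k : ℤ) : (p ^ k) u = (s ^ k) u := by
  induction k using Int.induction_on with
  | zero => simp
  | succ k ih =>
    have e1 : (p ^ ((k : ℤ) + 1)) u = p ((p ^ (k : ℤ)) u) := by
      rw [add_comm, zpow_add, zpow_one]; rfl
    have e2 : (s ^ ((k : ℤ) + 1)) u = s ((s ^ (k : ℤ)) u) := by
      rw [add_comm, zpow_add, zpow_one]; rfl
    rw [e1, e2, ih, h _ (hA k)]
  | pred k ih =>
    have e1 : (p ^ (-(k : ℤ))) u = p ((p ^ (-(k : ℤ) - 1)) u) := by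
      have : -(k : ℤ) = 1 + (-(k : ℤ) - 1) := by ring
      conv_lhs => rw [this, zpow_add, zpow_one]
      rfl
    have e2 : (s ^ (-(k : ℤ))) u = s ((s ^ (-(k : ℤ) - 1)) u) := by
      have : -(k : ℤ) = 1 + (-(k : ℤ) - 1) := by ring
      conv_lhs => rw [this, zpow_add, zpow_one]
      rfl
    rw [e1, e2, h _ (hA _)] at ih
    exact p.injective ih

theorem good_limit (hell : ∀ n, ell n % 2 = 0 ∧ 2 ≤ ell n) {ω : Om} (hG : Good ell S ω) :
    ∃ s b : Perm V, (∀ u v, Arr ell S ω true u v ↔ s u = v) ∧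
      (∀ u v, Arr ell S ω false u v ↔ b u = v) ∧
      (∀ v, Adj v (s v) ∧ s (s v) ≠ v ∧ NR s v (b v) ∧ b (b v) ≠ v) ∧
      ∃ u₀, ∀ i j : ℤ, i ≠ j → (s ^ i) u₀ ≠ (s ^ j) u₀ := by
  let I := {x : ℕ × Perm V // TT ell S x.1 x.2 ω}
  obtain ⟨s, hs⟩ := exists_limit (I := I) (fun x => x.1.2 '' Cor (ell x.1.1))
    (fun x => red ell S x.1.1 x.1.2 ω)
    (fun r => by
      obtain ⟨n, g, hg, h⟩ := cover_cor hG r
      exact ⟨⟨(n, g), hg⟩, h⟩)
    (fun i j v hi hj => (agree_cor hell i.2 j.2 hi hj).1)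
    (fun i v hv => (valid_placed hell i.2).adj_inv (Set.image_mono (cor_subset_box _) hv))
  obtain ⟨b, hb⟩ := exists_limit (I := I) (fun x => x.1.2 '' Cor (ell x.1.1))
    (fun x => blu ell S x.1.1 x.1.2 ω)
    (fun r => by
      obtain ⟨n, g, hg, h⟩ := cover_cor hG r
      exact ⟨⟨(n, g), hg⟩, h⟩)
    (fun i j v hi hj => (agree_cor hell i.2 j.2 hi hj).2)
    (fun i v hv => (valid_placed hell i.2).adj_inv' hv)
  have hs' : ∀ n g, TT ell S n g ω → ∀ v ∈ g '' Cor (ell n), s v = red ell S n g ω v :=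
    fun n g hg v hv => hs ⟨(n, g), hg⟩ v hv
  have hb' : ∀ n g, TT ell S n g ω → ∀ v ∈ g '' Cor (ell n), b v = blu ell S n g ω v :=
    fun n g hg v hv => hb ⟨(n, g), hg⟩ v hv
  refine ⟨s, b, ?_, ?_, ?_, ?_⟩
  · intro u v
    constructor
    · rintro ⟨n, g, hg, hu, h⟩
      rw [if_pos rfl] at h
      rw [hs' n g hg u hu, h]
    · intro h
      obtain ⟨n, g, hg, hc⟩ := cover_cor hG (u.1.natAbs + u.2.natAbs)
      have hu := hc u (by unfold Near; dsimp only; omega)
      refine ⟨n, g, hg, hu, ?_⟩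
      rw [if_pos rfl, ← hs' n g hg u hu, h]
  · intro u v
    constructor
    · rintro ⟨n, g, hg, hu, h⟩
      rw [if_neg (by simp)] at h
      rw [hb' n g hg u hu, h]
    · intro h
      obtain ⟨n, g, hg, hc⟩ := cover_cor hG (u.1.natAbs + u.2.natAbs)
      have hu := hc u (by unfold Near; dsimp only; omega)
      refine ⟨n, g, hg, hu, ?_⟩
      rw [if_neg (by simp), ← hb' n g hg u hu, h]
  · intro v
    obtain ⟨n, g, hg, hc⟩ := cover_cor hG (v.1.natAbs + v.2.natAbs + 1)
    have hv := hc v (by unfold Near; dsimp only; omega)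
    have hval := valid_placed hell hg
    have h1 := hval.dec.adj v (hval.sub hv)
    have h2 := hval.blue v hv
    have hsv : red ell S n g ω v ∈ g '' Cor (ell n) := hc _ (by
      have := h1.1
      unfold Adj at this; unfold Near; dsimp only; omega)
    have hbv : blu ell S n g ω v ∈ g '' Cor (ell n) := supp_image_mem hval.bout hv
    rw [hs' n g hg v hv, hb' n g hg v hv, hs' n g hg _ hsv, hb' n g hg _ hbv]
    refine ⟨h1.1, h1.2, ⟨h2.1.1, ?_, ?_⟩, h2.2⟩
    · rw [hs' n g hg v hv]; exact h2.1.2.1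
    · rw [hs' n g hg _ hbv]; exact h2.1.2.2
  · obtain ⟨m, -, h, hh, -⟩ := hG 0
    have hl := (hell m).2
    set u₀ : V := h (-ell m, -ell m) with hu₀
    have hub : u₀ ∈ bd (h '' Box (ell m)) := by
      rw [bd_image hh.1]
      exact ⟨_, by rw [mem_bd_box, mem_box]; dsimp only; omega, rfl⟩
    refine ⟨u₀, ?_⟩
    -- it is enough to exclude periods
    have key : ∀ k : ℕ, 0 < k → (s ^ (k : ℤ)) u₀ ≠ u₀ := by
      intro k hk hper
      -- all iterates are among the first `k`
      have hmod : ∀ j : ℤ, (s ^ j) u₀ = (s ^ (j % k)) u₀ := by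
        intro j
        have e : j = j % k + k * (j / k) := (Int.emod_add_mul_ediv j k).symm
        have hper' : ∀ q : ℤ, (s ^ ((k : ℤ) * q)) u₀ = u₀ := by
          intro q
          rw [zpow_mul]
          induction q using Int.induction_on with
          | zero => simp
          | succ q ih =>
            rw [add_comm, zpow_add, zpow_one, Perm.mul_apply, ih, hper]
          | pred q ih =>
            have e' : ((s ^ (k : ℤ)) ^ (-(q : ℤ))) u₀ =
                (s ^ (k : ℤ)) (((s ^ (k : ℤ)) ^ (-(q : ℤ) - 1)) u₀) := by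
              have : -(q : ℤ) = 1 + (-(q : ℤ) - 1) := by ring
              conv_lhs => rw [this, zpow_add, zpow_one]
              rfl
            rw [e'] at ih
            nth_rewrite 2 [← hper] at ih
            exact (s ^ (k : ℤ)).injective ih
        conv_lhs => rw [e, zpow_add, Perm.mul_apply, hper']
      -- a bound for the orbit
      obtain ⟨r, hr⟩ : ∃ r : ℤ, ∀ j : ℤ, Near r (0, 0) ((s ^ j) u₀) := by
        have hfin : (Set.range fun j : Finset.range k => (s ^ ((j : ℕ) : ℤ)) u₀).Finite :=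
          Set.finite_range _
        obtain ⟨r, hr⟩ : ∃ r : ℕ, ∀ v ∈ (Set.range fun j : Finset.range k =>
            (s ^ ((j : ℕ) : ℤ)) u₀), v.1.natAbs + v.2.natAbs ≤ r := by
          obtain ⟨r, hr⟩ := (hfin.image fun v => v.1.natAbs + v.2.natAbs).bddAbove
          exact ⟨r, fun v hv => hr ⟨v, hv, rfl⟩⟩
        refine ⟨r, fun j => ?_⟩
        have h0 : 0 ≤ j % k := Int.emod_nonneg _ (by omega)
        have h1 : j % k < k := Int.emod_lt_of_pos _ (by omega)
        have := hr ((s ^ j) u₀) ⟨⟨(j % k).toNat, by rw [Finset.mem_range]; omega⟩, by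
          dsimp only
          rw [Int.toNat_of_nonneg h0, ← hmod]⟩
        unfold Near; dsimp only; omega
      obtain ⟨n, g, hg, hc⟩ := cover_cor hG r
      have hval := valid_placed hell hg
      have hu₀c : u₀ ∈ g '' Cor (ell n) := by
        have := hc _ (hr 0)
        simpa using this
      have hu₀b : u₀ ∈ g '' Box (ell n) := hval.sub hu₀c
      -- compare the two pieces
      have hext : Ext (h '' Box (ell m)) (red ell S m h ω) (g '' Box (ell n))
          (red ell S n g ω) := by
        rcases lt_trichotomy m n with hlt | heq | hlt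
        · rcases pairwise_T hh.1 hg.1 hh.2 hg.2 hlt.le (fun e => by omega) with k1 | ⟨k1, k2⟩
          · exact absurd (near_refl (by norm_num) _) (k1 _ hub.1 _ hu₀b)
          · exact (consist_placed hell hg hh k1 k2).1
        · by_cases he : n = m ∧ g = h
          · exfalso
            obtain ⟨rfl, rfl⟩ := he
            exact hval.deep _ hu₀c hub
          · rcases pairwise_T hh.1 hg.1 hh.2 hg.2 heq.le he with k1 | ⟨k1, k2⟩
            · exact absurd (near_refl (by norm_num) _) (k1 _ hub.1 _ hu₀b)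
            · omega
        · exfalso
          rcases pairwise_T hg.1 hh.1 hg.2 hh.2 hlt.le (fun e => by omega) with k1 | ⟨k1, k2⟩
          · exact absurd (near_refl (by norm_num) _) (k1 _ hu₀b _ hub.1)
          · obtain ⟨-, w, hw, hw'⟩ := hub
            exact hw' (k2 _ hu₀b w (hw.near.mono (by norm_num)))
      have hne : (bd (g '' Box (ell n))).Nonempty := by
        rw [bd_image hg.1]
        have := (hell n).2
        exact (bd_rect_nonempty (by omega) (by omega)).image _
      obtain ⟨w, hw⟩ := hne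
      obtain ⟨j, hj⟩ := hext.conn _ hub w hw
      rw [zpow_agree (A := g '' Cor (ell n)) (fun k => hc _ (hr k)) (fun v hv => hs' n g hg v hv)]
        at hj
      exact hval.deep w (hj ▸ hc _ (hr j)) hw
    have key2 : ∀ i j : ℤ, i < j → (s ^ i) u₀ ≠ (s ^ j) u₀ := by
      intro i j hij he
      have e : j = i + ((j - i).toNat : ℤ) := by omega
      rw [e, zpow_add, Perm.mul_apply] at he
      exact key (j - i).toNat (by omega) ((s ^ i).injective he).symm
    intro i j hij
    rcases lt_or_gt_of_ne hij with hlt | hlt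
    · exact key2 i j hlt
    · exact (key2 j i hlt).symm

end toast

end Pool.Agent.Schreier60
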