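import Pool.Agent.Schreier60.Limit

set_option autoImplicit false

namespace Pool.Agent.Schreier60

open Equiv Equiv.Perm

/-- Maps with countable range and measurable fibres. -/
structure SM {Ω α : Type*} [MeasurableSpace Ω] (f : Ω → α) : Prop where
  count : (Set.range f).Countable
  meas : ∀ x, MeasurableSet (f ⁻¹' {x})

section SM

variable {Ω Ω' α β : Type*} [MeasurableSpace Ω] [MeasurableSpace Ω'] {f : Ω → α} {g : Ω → β}

lemma SM.measurableSet (h : SM f) (P : α → Prop) : MeasurableSet {ω | P (f ω)} := by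
  have : {ω | P (f ω)} = ⋃ x ∈ (Set.range f ∩ {x | P x}), f ⁻¹' {x} := by
    ext ω
    simp only [Set.mem_ofPred_eq, Set.mem_iUnion, Set.mem_preimage, Set.mem_singleton_iff,
      exists_prop]
    constructor
    · intro hω
      exact ⟨f ω, ⟨⟨ω, rfl⟩, hω⟩, rfl⟩
    · rintro ⟨x, ⟨-, hx⟩, rfl⟩
      exact hx
  rw [this]
  exact MeasurableSet.biUnion (h.count.mono Set.inter_subset_left) fun x _ => h.meas x

lemma SM.factor (hf : SM f) (h : ∀ ω ω', f ω = f ω' → g ω = g ω') : SM g where
  count := by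
    have hc : Countable (Set.range f) := hf.count.to_subtype
    have : Set.range g ⊆ Set.range (fun y : Set.range f => g y.2.choose) := by
      rintro _ ⟨ω, rfl⟩
      refine ⟨⟨f ω, ω, rfl⟩, ?_⟩
      apply h
      exact (⟨ω, rfl⟩ : ∃ ω', f ω' = f ω).choose_spec
    exact (Set.countable_range _).mono this
  meas x := by
    have : g ⁻¹' {x} = {ω | ∃ ω', f ω' = f ω ∧ g ω' = x} := by
      ext ω
      simp only [Set.mem_preimage, Set.mem_singleton_iff, Set.mem_ofPred_eq]
      constructor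
      · intro e; exact ⟨ω, rfl, e⟩
      · rintro ⟨ω', h1, h2⟩
        rw [← h _ _ h1, h2]
    rw [this]
    exact hf.measurableSet fun y => ∃ ω', f ω' = y ∧ g ω' = x

lemma SM.pi {J : Type*} [Finite J] {γ : J → Type*} {D : ∀ j, Ω → γ j} (h : ∀ j, SM (D j)) :
    SM (fun ω j => D j ω) where
  count := by
    have h1 : (Set.pi Set.univ fun j => Set.range (D j)).Countable :=
      Set.countable_univ_pi fun j => (h j).count
    refine h1.mono ?_
    rintro _ ⟨ω, rfl⟩ j -
    exact ⟨ω, rfl⟩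
  meas x := by
    have : (fun ω j => D j ω) ⁻¹' {x} = ⋂ j, D j ⁻¹' {x j} := by
      ext ω
      simp only [Set.mem_preimage, Set.mem_singleton_iff, Set.mem_iInter]
      exact funext_iff
    rw [this]
    exact MeasurableSet.iInter fun j => (h j).meas _

lemma SM.comp {f : Ω' → α} (hf : SM f) {φ : Ω → Ω'} (hφ : Measurable φ) : SM (fun ω => f (φ ω)) where
  count := hf.count.mono (by rintro _ ⟨ω, rfl⟩; exact ⟨φ ω, rfl⟩)
  meas x := hφ (hf.meas x)

open Classical in
lemma SM.opt (hf : SM f) {A : Set Ω} (hA : MeasurableSet A) :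
    SM (fun ω => if ω ∈ A then some (f ω) else none) where
  count := by
    refine ((hf.count.image some).union (Set.countable_singleton none)).mono ?_
    rintro _ ⟨ω, rfl⟩
    by_cases h : ω ∈ A
    · left; exact ⟨f ω, ⟨ω, rfl⟩, by dsimp only; rw [if_pos h]⟩
    · right; dsimp only; rw [if_neg h]; rfl
  meas x := by
    cases x with
    | none =>
      have : (fun ω => if ω ∈ A then some (f ω) else none) ⁻¹' {none} = Aᶜ := by
        ext ω
        simp only [Set.mem_preimage, Set.mem_singleton_iff, Set.mem_compl_iff]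
        by_cases h : ω ∈ A
        · simp [h]
        · simp [h]
      rw [this]; exact hA.compl
    | some x =>
      have : (fun ω => if ω ∈ A then some (f ω) else none) ⁻¹' {some x} = A ∩ f ⁻¹' {x} := by
        ext ω
        simp only [Set.mem_preimage, Set.mem_singleton_iff, Set.mem_inter_iff]
        by_cases h : ω ∈ A
        · simp [h]
        · simp [h]
      rw [this]; exact hA.inter (hf.meas x)

end SM

/-- Three vertices determining an automorphism. -/
lemma aut_triple {g h : Perm V} (hg : IsAut g) (hh : IsAut h)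
    (e : (g (0, 0), g (1, 0), g (0, 1)) = (h (0, 0), h (1, 0), h (0, 1))) : g = h := by
  exact hg.ext hh (congrArg Prod.fst e) (congrArg (fun x => x.2.1) e)
    (congrArg (fun x => x.2.2) e)

instance : Countable {g : Perm V // IsAut g} := by
  refine Function.Injective.countable (β := V × V × V)
    (f := fun g => (g.1 (0, 0), g.1 (1, 0), g.1 (0, 1))) ?_
  rintro ⟨g, hg⟩ ⟨h, hh⟩ e
  exact Subtype.ext (aut_triple hg hh e)

section toast

variable {ell : ℕ → ℤ} {S : ℕ → Set Om}

/-- Possible positions of smaller boxes. -/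
def JJ (ell : ℕ → ℤ) (n : ℕ) : Set (ℕ × Perm V) :=
  {j | j.1 < n ∧ IsAut j.2 ∧ Ins (j.2 '' Box (ell j.1)) (Box (ell n))}

lemma JJ_finite (hell : ∀ n, ell n % 2 = 0 ∧ 2 ≤ ell n) (n : ℕ) : (JJ ell n).Finite := by
  have hfin : (Set.Iio n ×ˢ (Box (ell n) ×ˢ (Box (ell n) ×ˢ Box (ell n)))).Finite :=
    (Set.finite_Iio n).prod ((box_finite _).prod ((box_finite _).prod (box_finite _)))
  refine Set.Finite.of_injOn (f := fun j : ℕ × Perm V =>
    (j.1, j.2 (0, 0), j.2 (1, 0), j.2 (0, 1))) ?_ ?_ hfin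
  · rintro ⟨m, h⟩ ⟨h1, h2, h3⟩
    dsimp only at h1 h2 h3
    have hm := (hell m).2
    have hb : ∀ v ∈ Box (ell m), h v ∈ Box (ell n) := fun v hv => h3.sub ⟨v, hv, rfl⟩
    refine ⟨h1, hb _ ?_, hb _ ?_, hb _ ?_⟩ <;> rw [mem_box] <;> dsimp only <;> omega
  · rintro ⟨m, h⟩ ⟨-, h2, -⟩ ⟨m', h'⟩ ⟨-, h2', -⟩ e
    dsimp only at h2 h2' e
    have e1 : m = m' := congrArg Prod.fst e
    have e2 : h = h' := aut_triple h2 h2' (congrArg Prod.snd e)
    rw [e1, e2]

lemma measurable_sh (g : Perm V) : Measurable fun ω : Om => sh ω g :=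
  measurable_pi_lambda _ fun v => measurable_pi_apply (g v)

lemma measurableSet_Tset (hS : ∀ n, MeasurableSet (S n)) (n : ℕ) :
    MeasurableSet (Tset ell S n) := by
  have : Tset ell S n = S n ∩ ⋂ m : ℕ, ⋂ h : {g : Perm V // IsAut g},
      ({ω | sh ω h.1 ∈ S m}ᶜ ∪ {_ω : Om | n ≤ m → ¬ (m = n ∧ h.1 = 1) →
        Sep (Box (ell n)) (h.1 '' Box (ell m)) ∨
          (n < m ∧ Ins (Box (ell n)) (h.1 '' Box (ell m)))}) := by
    ext ω
    simp only [Tset, Set.mem_ofPred_eq, Set.mem_inter_iff, Set.mem_iInter, Set.mem_union,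
      Set.mem_compl_iff]
    refine and_congr_right fun _ => ?_
    constructor
    · intro H m h
      by_cases hm : sh ω h.1 ∈ S m
      · right
        intro h1 h2
        exact H m h1 h.1 h.2 hm h2
      · left; exact hm
    · intro H m hnm h hh hm hne
      rcases H m ⟨h, hh⟩ with h1 | h1
      · exact absurd hm h1
      · exact h1 hnm hne
  rw [this]
  refine (hS n).inter (MeasurableSet.iInter fun m => MeasurableSet.iInter fun h => ?_)
  refine MeasurableSet.union ?_ (MeasurableSet.const _)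
  exact (measurable_sh h.1 (hS m)).compl

open Classical in
lemma deco_SM (hell : ∀ n, ell n % 2 = 0 ∧ 2 ≤ ell n) (hS : ∀ n, MeasurableSet (S n)) (n : ℕ) :
    SM (deco ell S n) := by
  induction n using Nat.strong_induction_on with
  | _ n ih =>
    have hJ : Finite (JJ ell n) := (JJ_finite hell n).to_subtype
    have hD : ∀ j : JJ ell n, SM (fun ω : Om => if ω ∈ {ω | sh ω j.1.2 ∈ Tset ell S j.1.1} then
        some (deco ell S j.1.1 (sh ω j.1.2)) else none) := by
      intro j
      exact ((ih j.1.1 j.2.1).comp (measurable_sh j.1.2)).opt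
        (measurable_sh j.1.2 (measurableSet_Tset hS _))
    refine (SM.pi hD).factor ?_
    intro ω ω' h
    have hT : ∀ m h, m < n → IsAut h → Ins (h '' Box (ell m)) (Box (ell n)) →
        (sh ω h ∈ Tset ell S m ↔ sh ω' h ∈ Tset ell S m) ∧
        (sh ω h ∈ Tset ell S m → deco ell S m (sh ω h) = deco ell S m (sh ω' h)) := by
      intro m k h1 h2 h3
      have hj := congrFun h ⟨(m, k), h1, h2, h3⟩
      dsimp only [Set.mem_ofPred_eq] at hj
      by_cases c1 : sh ω k ∈ Tset ell S m
      · by_cases c2 : sh ω' k ∈ Tset ell S m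
        · rw [if_pos c1, if_pos c2] at hj
          exact ⟨⟨fun _ => c2, fun _ => c1⟩, fun _ => Option.some.inj hj⟩
        · rw [if_pos c1, if_neg c2] at hj
          exact absurd hj (by simp)
      · by_cases c2 : sh ω' k ∈ Tset ell S m
        · rw [if_neg c1, if_pos c2] at hj
          exact absurd hj (by simp)
        · exact ⟨⟨fun h => absurd h c1, fun h => absurd h c2⟩, fun h => absurd h c1⟩
    have hchild : ∀ m h, Child ell S ω n m h ↔ Child ell S ω' n m h := by
      intro m k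
      constructor
      · rintro ⟨a1, a2, a3, a4, a5⟩
        exact ⟨a1, a2, (hT m k a2 a1 a4).1.1 a3, a4, fun m' h' b1 b2 b3 b4 b5 =>
          a5 m' h' b1 b2 b3 ((hT m' h' b2 b3 b5).1.2 b4) b5⟩
      · rintro ⟨a1, a2, a3, a4, a5⟩
        exact ⟨a1, a2, (hT m k a2 a1 a4).1.2 a3, a4, fun m' h' b1 b2 b3 b4 b5 =>
          a5 m' h' b1 b2 b3 ((hT m' h' b2 b3 b5).1.1 b4) b5⟩
    rw [deco_eq, deco_eq]
    congr 1
    ext y
    refine and_congr_right fun _ => ?_
    constructor
    · intro H m hm k hk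
      have hk' := (hchild m k).2 hk
      rw [← (hT m k hm hk'.aut hk'.ins).2 hk'.mem]
      exact H m hm k hk'
    · intro H m hm k hk
      have := H m hm k ((hchild m k).1 hk)
      rwa [← (hT m k hm hk.aut hk.ins).2 hk.mem] at this

lemma measurableSet_Arr (hell : ∀ n, ell n % 2 = 0 ∧ 2 ≤ ell n) (hS : ∀ n, MeasurableSet (S n))
    (c : Bool) (u v : V) : MeasurableSet {ω | Arr ell S ω c u v} := by
  have : {ω | Arr ell S ω c u v} = ⋃ n : ℕ, ⋃ g : {g : Perm V // IsAut g},
      ({ω | sh ω g.1 ∈ Tset ell S n} ∩ ({_ω : Om | u ∈ g.1 '' Cor (ell n)} ∩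
        {ω : Om | (if c = true then (g.1 * (deco ell S n (sh ω g.1)).1 * g.1⁻¹) u
          else (g.1 * (deco ell S n (sh ω g.1)).2 * g.1⁻¹) u) = v})) := by
    ext ω
    simp only [Set.mem_ofPred_eq, Set.mem_iUnion, Set.mem_inter_iff]
    constructor
    · rintro ⟨n, g, hg, h1, h2⟩
      exact ⟨n, ⟨g, hg.1⟩, hg.2, h1, h2⟩
    · rintro ⟨n, g, h0, h1, h2⟩
      exact ⟨n, g.1, ⟨g.2, h0⟩, h1, h2⟩
  rw [this]
  refine MeasurableSet.iUnion fun n => MeasurableSet.iUnion fun g => ?_
  refine (measurable_sh g.1 (measurableSet_Tset hS n)).inter ((MeasurableSet.const _).inter ?_)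
  exact (((deco_SM hell hS n).comp (measurable_sh g.1))).measurableSet fun x =>
    (if c = true then (g.1 * x.1 * g.1⁻¹) u else (g.1 * x.2 * g.1⁻¹) u) = v

lemma Arr_equivariant {g : Perm V} (hg : IsAut g) (ω : Om) (c : Bool) (u v : V) :
    Arr ell S (sh ω g) c u v ↔ Arr ell S ω c (g u) (g v) := by
  constructor
  · rintro ⟨n, h, hh, hu, e⟩
    refine ⟨n, g * h, ⟨hg.mul hh.1, hh.2⟩, ?_, ?_⟩
    · rw [image_mul]; exact ⟨u, hu, rfl⟩
    · have e1 : red ell S n (g * h) ω = g * red ell S n h (sh ω g) * g⁻¹ := by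
        unfold red; rw [sh_mul]; group
      have e2 : blu ell S n (g * h) ω = g * blu ell S n h (sh ω g) * g⁻¹ := by
        unfold blu; rw [sh_mul]; group
      rw [e1, e2, conj_apply, conj_apply, ← e]
      split_ifs <;> rfl
  · rintro ⟨n, h, hh, hu, e⟩
    have hsh : sh (sh ω g) (g⁻¹ * h) = sh ω h := by rw [← sh_mul, mul_inv_cancel_left]
    refine ⟨n, g⁻¹ * h, ⟨hg.inv.mul hh.1, by rw [hsh]; exact hh.2⟩, ?_, ?_⟩
    · rw [image_mul]; exact ⟨g u, hu, by simp⟩
    · have e1 : red ell S n (g⁻¹ * h) (sh ω g) = g⁻¹ * red ell S n h ω * g := by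
        unfold red; rw [hsh]; group
      have e2 : blu ell S n (g⁻¹ * h) (sh ω g) = g⁻¹ * blu ell S n h ω * g := by
        unfold blu; rw [hsh]; group
      rw [e1, e2]
      simp only [Perm.mul_apply]
      apply g.injective
      rw [← e]
      split_ifs <;> simp

end toast

end Pool.Agent.Schreier60
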