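import Pool.Agent.Schreier60.Basic

set_option autoImplicit false

namespace Pool.Agent.Schreier60

open Equiv Equiv.Perm

/-- The change of frame `(x, y) ↦ (y - k, x - 1)`. -/
def cfr (k : ℤ) : Perm V where
  toFun v := (v.2 - k, v.1 - 1)
  invFun v := (v.2 + 1, v.1 + k)
  left_inv := by rintro ⟨x, y⟩; simp
  right_inv := by rintro ⟨x, y⟩; simp

lemma cfr_apply (k x y : ℤ) : cfr k (x, y) = (y - k, x - 1) := rfl
lemma cfr_inv_apply (k x y : ℤ) : (cfr k)⁻¹ (x, y) = (y + 1, x + k) := rfl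
lemma cfr_symm_apply (k x y : ℤ) : (cfr k).symm (x, y) = (y + 1, x + k) := rfl

lemma isAut_cfr (k : ℤ) : IsAut (cfr k) := by
  rintro ⟨x, y⟩ ⟨x', y'⟩
  rw [cfr_apply, cfr_apply, adj_mk, adj_mk]
  omega

/-- The conjugate of `blk` by the change of frame. -/
def blkm (k : ℤ) : Perm V := cfr k * blk * (cfr k)⁻¹

lemma blkm_apply (k x y : ℤ) : blkm k (x, y) = cfr k (blk (y + 1, x + k)) := rfl

lemma blkm_up {k x y : ℤ} (hx : (x + k) % 2 = 0) (hy : y % 2 = 1) :
    blkm k (x, y) = (x, y + 1) := by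
  rw [blkm_apply, blk_ee (by omega) hx, cfr_apply]; ext <;> dsimp only <;> omega
lemma blkm_left {k x y : ℤ} (hx : (x + k) % 2 = 1) (hy : y % 2 = 1) :
    blkm k (x, y) = (x - 1, y) := by
  rw [blkm_apply, blk_eo (by omega) hx, cfr_apply]; ext <;> dsimp only <;> omega
lemma blkm_right {k x y : ℤ} (hx : (x + k) % 2 = 0) (hy : y % 2 = 0) :
    blkm k (x, y) = (x + 1, y) := by
  rw [blkm_apply, blk_oe (by omega) hx, cfr_apply]; ext <;> dsimp only <;> omega
lemma blkm_down {k x y : ℤ} (hx : (x + k) % 2 = 1) (hy : y % 2 = 0) :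
    blkm k (x, y) = (x, y - 1) := by
  rw [blkm_apply, blk_oo (by omega) hx, cfr_apply]; ext <;> dsimp only <;> omega

/-- On the ring around an even rectangle, the clockwise rotation agrees with `blkm k` wherever the
latter moves along the ring. -/
lemma ring_blkm {k p q r t : ℤ} (hk : 1 ≤ k) (hp : p % 2 = 0) (hq : q % 2 = 0) (hr : r % 2 = 0)
    (ht : t % 2 = 0) (hpq : p < q) (hrt : r < t) (hAB : p - k < q + k - 1) (hCD : r - 1 < t)
    {v : V} (hv : v ∈ Ring (p - k) (q + k - 1) (r - 1) t)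
    (hv' : blkm k v ∈ Ring (p - k) (q + k - 1) (r - 1) t) :
    ringPerm (p - k) (q + k - 1) (r - 1) t hAB hCD v = blkm k v := by
  obtain ⟨x, y⟩ := v
  have h := hv
  rw [mem_ring] at h
  dsimp only at h
  rcases Int.emod_two_eq_zero_or_one (x + k) with hx | hx <;>
    rcases Int.emod_two_eq_zero_or_one y with hy | hy
  · rw [blkm_right hx hy] at hv' ⊢
    rw [mem_ring] at hv'
    dsimp only at hv'
    have : y = t := by omega
    subst this
    rw [ringPerm_top (by omega) (by omega)]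
  · rw [blkm_up hx hy] at hv' ⊢
    rw [mem_ring] at hv'
    dsimp only at hv'
    have : x = p - k := by omega
    subst this
    rw [ringPerm_left (by omega) (by omega)]
  · rw [blkm_down hx hy] at hv' ⊢
    rw [mem_ring] at hv'
    dsimp only at hv'
    have : x = q + k - 1 := by omega
    subst this
    rw [ringPerm_right (by omega) (by omega)]
  · rw [blkm_left hx hy] at hv' ⊢
    rw [mem_ring] at hv'
    dsimp only at hv'
    have : y = r - 1 := by omega
    subst this
    rw [ringPerm_bottom (by omega) (by omega)]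

/-- Decorated sets: `s` is a permutation of `K` moving along edges without 2-cycles; along the
boundary it agrees with `β` whenever `β` moves along the boundary; the boundary lies in one
cycle. -/
structure Dec (K : Set V) (β s : Perm V) : Prop where
  out : ∀ v ∉ K, s v = v
  adj : ∀ v ∈ K, Adj v (s v) ∧ s (s v) ≠ v
  ring : ∀ v ∈ bd K, β v ∈ bd K → s v = β v
  cyc : ∀ u ∈ bd K, ∀ v ∈ bd K, s.SameCycle u v

/-- `(K', s')` extends `(K, s)`. -/
structure Ext (K : Set V) (s : Perm V) (K' : Set V) (s' : Perm V) : Prop where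
  sub : K ⊆ K'
  agree : ∀ v ∈ K, v ∉ bd K → s' v = s v
  coarse : ∀ u ∈ K, ∀ v ∈ K, s.SameCycle u v → s'.SameCycle u v
  conn : ∀ u ∈ bd K, ∀ v ∈ bd K', s'.SameCycle u v

lemma bd_of_subset {K K' : Set V} (h : K ⊆ K') {v : V} (hv : v ∈ K) (hv' : v ∉ bd K) :
    v ∉ bd K' := by
  rintro ⟨-, w, hw, hw'⟩
  exact hw' (h (mem_of_adj_of_notMem_bd hv hv' hw))

lemma Ext.trans {K K' K'' : Set V} {s s' s'' : Perm V} (h : Ext K s K' s') (h' : Ext K' s' K'' s'')
    (hne : (bd K').Nonempty) : Ext K s K'' s'' where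
  sub := h.sub.trans h'.sub
  agree v hv hv' := by rw [h'.agree v (h.sub hv) (bd_of_subset h.sub hv hv'), h.agree v hv hv']
  coarse u hu v hv huv := h'.coarse u (h.sub hu) v (h.sub hv) (h.coarse u hu v hv huv)
  conn u hu v hv := by
    obtain ⟨w, hw⟩ := hne
    exact (h'.coarse u (h.sub hu.1) w hw.1 (h.conn u hu w hw)).trans (h'.conn w hw v hv)

lemma bd_image {g : Perm V} (hg : IsAut g) (K : Set V) : bd (g '' K) = g '' bd K := by
  ext v
  constructor
  · rintro ⟨⟨u, hu, rfl⟩, w, hw, hw'⟩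
    refine ⟨u, ⟨hu, g⁻¹ w, ?_, ?_⟩, rfl⟩
    · rw [← hg]; simpa using hw
    · intro h; exact hw' ⟨_, h, by simp⟩
  · rintro ⟨u, ⟨hu, w, hw, hw'⟩, rfl⟩
    refine ⟨⟨u, hu, rfl⟩, g w, (hg _ _).2 hw, ?_⟩
    rintro ⟨z, hz, hz'⟩
    exact hw' (g.injective hz' ▸ hz)

lemma conj_apply (g s : Perm V) (v : V) : (g * s * g⁻¹) (g v) = g (s v) := by simp

lemma sameCycle_conj_iff {g s : Perm V} {u v : V} :
    (g * s * g⁻¹).SameCycle (g u) (g v) ↔ s.SameCycle u v := by
  rw [sameCycle_conj]; simp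

lemma Dec.conj {K : Set V} {β s g : Perm V} (h : Dec K β s) (hg : IsAut g) :
    Dec (g '' K) (g * β * g⁻¹) (g * s * g⁻¹) where
  out v hv := by
    have : g⁻¹ v ∉ K := fun h' => hv ⟨_, h', by simp⟩
    have h2 := h.out _ this
    have e : v = g (g⁻¹ v) := by simp
    rw [e, conj_apply, h2]
  adj := by
    rintro _ ⟨v, hv, rfl⟩
    rw [conj_apply, conj_apply, hg]
    exact ⟨(h.adj v hv).1, fun h' => (h.adj v hv).2 (g.injective h')⟩
  ring := by
    rw [bd_image hg]
    rintro _ ⟨v, hv, rfl⟩ h'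
    rw [conj_apply] at h' ⊢
    rw [conj_apply]
    obtain ⟨w, hw, hw'⟩ := h'
    rw [h.ring v hv (g.injective hw' ▸ hw)]
  cyc := by
    rw [bd_image hg]
    rintro _ ⟨u, hu, rfl⟩ _ ⟨v, hv, rfl⟩
    rw [sameCycle_conj_iff]
    exact h.cyc u hu v hv

lemma Ext.conj {K K' : Set V} {s s' g : Perm V} (h : Ext K s K' s') (hg : IsAut g) :
    Ext (g '' K) (g * s * g⁻¹) (g '' K') (g * s' * g⁻¹) where
  sub := Set.image_mono h.sub
  agree := by
    rw [bd_image hg]
    rintro _ ⟨v, hv, rfl⟩ hv'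
    rw [conj_apply, conj_apply, h.agree v hv fun h' => hv' ⟨v, h', rfl⟩]
  coarse := by
    rintro _ ⟨u, hu, rfl⟩ _ ⟨v, hv, rfl⟩ h'
    rw [sameCycle_conj_iff] at h' ⊢
    exact h.coarse u hu v hv h'
  conn := by
    rw [bd_image hg, bd_image hg]
    rintro _ ⟨u, hu, rfl⟩ _ ⟨v, hv, rfl⟩
    rw [sameCycle_conj_iff]
    exact h.conn u hu v hv

lemma Dec.image_mem {K : Set V} {β s : Perm V} (h : Dec K β s) {v : V} : v ∈ K ↔ s v ∈ K := by
  constructor
  · intro hv
    by_contra hcon
    have h1 := h.out _ hcon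
    have h2 := s.injective h1
    rw [h2] at hcon
    exact hcon hv
  · intro hv
    by_contra hcon
    rw [h.out _ hcon] at hv
    exact hcon hv

lemma supp_image_mem {A : Set V} {p : Perm V} (hA : ∀ v ∉ A, p v = v) {v : V} (hv : v ∈ A) :
    p v ∈ A := by
  by_contra hcon
  have h1 := hA _ hcon
  have h2 := p.injective h1
  rw [h2] at hcon
  exact hcon hv

/-- Gluing two permutations with disjoint supports. -/
lemma glue {p q : Perm V} {A B : Set V} (hA : ∀ v ∉ A, p v = v) (hB : ∀ v ∉ B, q v = v)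
    (hd : ∀ v ∈ A, v ∉ B) :
    (∀ v ∈ A, (p * q) v = p v) ∧ (∀ v ∈ B, (p * q) v = q v) ∧
      (∀ v, v ∉ A → v ∉ B → (p * q) v = v) ∧ (∀ u v, p.SameCycle u v → (p * q).SameCycle u v) ∧
      (∀ u v, q.SameCycle u v → (p * q).SameCycle u v) := by
  have h1 : ∀ v ∈ A, (p * q) v = p v := fun v hv => by
    rw [Perm.mul_apply, hB v (hd v hv)]
  have h2 : ∀ v ∈ B, (p * q) v = q v := fun v hv => by
    rw [Perm.mul_apply]
    exact hA _ fun h => hd _ h (supp_image_mem hB hv)
  have hstep : ∀ y, (p * q).SameCycle y ((p * q) y) := fun y => ⟨1, by simp⟩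
  refine ⟨h1, h2, fun v hv hv' => by rw [Perm.mul_apply, hB v hv', hA v hv], ?_, ?_⟩
  · intro u v huv
    refine sameCycle_of_step (fun y => ?_) huv
    by_cases hy : y ∈ A
    · rw [← h1 y hy]; exact hstep y
    · rw [hA y hy]
  · intro u v huv
    refine sameCycle_of_step (fun y => ?_) huv
    by_cases hy : y ∈ B
    · rw [← h2 y hy]; exact hstep y
    · rw [hB y hy]

lemma rect_not_ring {k p q r t : ℤ} (hk : 1 ≤ k) {v : V} (hv : v ∈ Rect p q r t) :
    v ∉ Ring (p - k) (q + k - 1) (r - 1) t := by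
  rw [mem_rect] at hv
  rw [mem_ring]
  omega

lemma bd_eq_ring {k p q r t : ℤ} :
    bd (Rect (p - k) (q + k) (r - 1) (t + 1)) = Ring (p - k) (q + k - 1) (r - 1) t := by
  ext v
  rw [mem_bd_rect, mem_rect, mem_ring]
  omega

/-- Adding a ring around an even rectangle. -/
lemma op0 {p q r t : ℤ} {s : Perm V} (hp : p % 2 = 0) (hq : q % 2 = 0) (hr : r % 2 = 0)
    (ht : t % 2 = 0) (hpq : p < q) (hrt : r < t) (h : Dec (Rect p q r t) blk s) :
    ∃ s' : Perm V, Dec (Rect (p - 1) (q + 1) (r - 1) (t + 1)) (blkm 1) s' ∧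
      Ext (Rect p q r t) s (Rect (p - 1) (q + 1) (r - 1) (t + 1)) s' := by
  have hAB : p - 1 < q + 1 - 1 := by omega
  have hCD : r - 1 < t := by omega
  set ρ := ringPerm (p - 1) (q + 1 - 1) (r - 1) t hAB hCD with hρ
  set R := Rect p q r t with hR
  set G := Ring (p - 1) (q + 1 - 1) (r - 1) t with hG
  have hρout : ∀ v ∉ G, ρ v = v := fun v hv => ringPerm_notMem hv
  have hdisj : ∀ v ∈ G, v ∉ R := fun v hv hv' => rect_not_ring (k := 1) le_rfl hv' hv
  obtain ⟨g1, g2, g3, g4, g5⟩ := glue hρout h.out hdisj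
  set s₀ := ρ * s with hs₀
  have hK : ∀ v, v ∈ Rect (p - 1) (q + 1) (r - 1) (t + 1) ↔ v ∈ G ∨ v ∈ R := by
    intro v
    rw [hG, hR, mem_rect, mem_ring, mem_rect]
    omega
  have hbd : bd (Rect (p - 1) (q + 1) (r - 1) (t + 1)) = G := bd_eq_ring (k := 1)
  -- the link
  have eLa : la (p, r) = (p - 1, r) := rfl
  have eLb : lb (p, r) = (p - 1, r + 1) := rfl
  have eLc : lc (p, r) = (p, r + 1) := rfl
  have eLd : ld (p, r) = (p, r) := rfl
  have mLa : ((p - 1, r) : V) ∈ G := by rw [hG, mem_ring]; dsimp only; omega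
  have mLb : ((p - 1, r + 1) : V) ∈ G := by rw [hG, mem_ring]; dsimp only; omega
  have mLc : ((p, r + 1) : V) ∈ R := by rw [hR, mem_rect]; dsimp only; omega
  have mLd : ((p, r) : V) ∈ R := by rw [hR, mem_rect]; dsimp only; omega
  have bLc : ((p, r + 1) : V) ∈ bd R := by rw [hR, mem_bd_rect]; exact ⟨mLc, by simp⟩
  have bLd : ((p, r) : V) ∈ bd R := by rw [hR, mem_bd_rect]; exact ⟨mLd, by simp⟩
  have sLc : s (p, r + 1) = (p, r) := by
    have e : blk (p, r + 1) = (p, r) := by rw [blk_eo hp (by omega)]; simp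
    rw [h.ring _ bLc (by rw [e]; exact bLd), e]
  have ρLa : ρ (p - 1, r) = (p - 1, r + 1) := ringPerm_left (by omega) (by omega)
  obtain ⟨s', c1, c2, c3, c4, c5⟩ := core (Rect (p - 1) (q + 1) (r - 1) (t + 1))
    (rect_finite _ _ _ _) s₀
    (by
      intro v hv
      rw [hK] at hv
      push Not at hv
      exact g3 v hv.1 hv.2)
    (by
      intro v hv
      rw [hK] at hv
      rcases hv with hv | hv
      · have := ring_adj (hAB := hAB) (hCD := hCD) hv
        rw [g1 v hv, g1 _ (ring_mem hv)]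
        exact this
      · rw [g2 v hv, g2 _ (h.image_mem.1 hv)]
        exact h.adj v hv)
    {(p, r)}
    (by
      intro l hl
      rw [Finset.mem_singleton] at hl
      subst hl
      rw [eLa, eLb, eLc, eLd, hK, hK, hK, hK]
      exact ⟨Or.inl mLa, Or.inl mLb, Or.inr mLc, Or.inr mLd⟩)
    (by
      intro l hl
      rw [Finset.mem_singleton] at hl
      subst hl
      rw [eLa, eLb, g1 _ mLa, ρLa])
    (by
      intro l hl
      rw [Finset.mem_singleton] at hl
      subst hl
      rw [eLc, eLd, g2 _ mLc, sLc])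
    (by
      intro l hl
      rw [Finset.mem_singleton] at hl
      subst hl
      rw [eLa, eLd, g2 _ mLd]
      intro h'
      exact hdisj _ mLa (h' ▸ h.image_mem.1 mLd))
    (by
      intro l hl
      rw [Finset.mem_singleton] at hl
      subst hl
      rw [eLb, eLc, g1 _ mLb]
      intro h'
      have := ring_mem (hAB := hAB) (hCD := hCD) mLb
      rw [← hρ, h'] at this
      exact hdisj _ this mLc)
    (by
      intro l hl m hm
      rw [Finset.mem_singleton] at hl hm
      subst hl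
      subst hm
      rw [eLa, eLb, eLc, eLd]
      refine ⟨?_, ?_, ?_, ?_, ?_⟩ <;> intro h' <;> rw [Prod.mk.injEq] at h' <;> omega)
  have notlink : ∀ v, v ≠ (p - 1, r) → v ≠ (p, r + 1) → s' v = s₀ v := by
    intro v h1 h2
    refine c3 v ?_
    intro l hl
    rw [Finset.mem_singleton] at hl
    subst hl
    exact ⟨h1, h2⟩
  have hringcyc : ∀ u ∈ G, ∀ v ∈ G, s'.SameCycle u v := fun u hu v hv =>
    c4 u v (g4 u v (ring_sameCycle hu hv))
  refine ⟨s', ⟨c1, c2, ?_, ?_⟩, ⟨?_, ?_, ?_, ?_⟩⟩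
  · rw [hbd]
    intro v hv hv'
    have h1 : v ≠ (p - 1, r) := by
      rintro rfl
      rw [blkm_right (by omega) (by omega)] at hv'
      exact hdisj _ hv' (by rw [hR, mem_rect]; dsimp only; omega)
    have h2 : v ≠ (p, r + 1) := by
      rintro rfl
      exact hdisj _ hv mLc
    rw [notlink v h1 h2, g1 v hv]
    exact ring_blkm le_rfl hp hq hr ht hpq hrt hAB hCD hv hv'
  · rw [hbd]; exact hringcyc
  · intro v hv; rw [hK]; exact Or.inr hv
  · intro v hv hv'
    rw [notlink v (fun h' => hdisj _ mLa (h' ▸ hv)) (fun h' => hv' (h' ▸ bLc)), g2 v hv]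
  · intro u _ v _ huv
    exact c4 u v (g5 u v huv)
  · rw [hbd]
    intro u hu v hv
    have k1 : s'.SameCycle u (p, r) := c4 _ _ (g5 _ _ (h.cyc u hu _ bLd))
    have k2 : s'.SameCycle (p - 1, r) (p, r) := c5 (p, r) (Finset.mem_singleton_self _)
    exact k1.trans (k2.symm.trans (hringcyc _ mLa v hv))

/-- The two side strips of width three. -/
def Strip (p q r t : ℤ) : Set V :=
  {v | r ≤ v.2 ∧ v.2 < t ∧ ((p - 3 ≤ v.1 ∧ v.1 < p) ∨ (q ≤ v.1 ∧ v.1 < q + 3))}

lemma mem_strip {p q r t : ℤ} {v : V} : v ∈ Strip p q r t ↔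
    r ≤ v.2 ∧ v.2 < t ∧ ((p - 3 ≤ v.1 ∧ v.1 < p) ∨ (q ≤ v.1 ∧ v.1 < q + 3)) := Iff.rfl

instance (p q r t : ℤ) : DecidablePred (· ∈ Strip p q r t) := fun _ =>
  decidable_of_iff _ (Iff.symm mem_strip)

/-- Counterclockwise rotation of the `3 × 2` blocks of the two strips. -/
def stripNext (p q r t : ℤ) (v : V) : V :=
  if v ∈ Strip p q r t then
    (if v.2 % 2 = 0 then (if v.1 = p - 1 ∨ v.1 = q + 2 then (v.1, v.2 + 1) else (v.1 + 1, v.2))
    else (if v.1 = p - 3 ∨ v.1 = q then (v.1, v.2 - 1) else (v.1 - 1, v.2)))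
  else v

/-- The inverse of `stripNext`. -/
def stripPrev (p q r t : ℤ) (v : V) : V :=
  if v ∈ Strip p q r t then
    (if v.2 % 2 = 0 then (if v.1 = p - 3 ∨ v.1 = q then (v.1, v.2 + 1) else (v.1 - 1, v.2))
    else (if v.1 = p - 1 ∨ v.1 = q + 2 then (v.1, v.2 - 1) else (v.1 + 1, v.2)))
  else v

lemma stripPrev_next {p q r t : ℤ} (hr : r % 2 = 0) (ht : t % 2 = 0) (hpq : p < q) (v : V) :
    stripPrev p q r t (stripNext p q r t v) = v := by
  obtain ⟨x, y⟩ := v
  by_cases h : (x, y) ∈ Strip p q r t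
  · have h' := h
    rw [mem_strip] at h'
    dsimp only at h'
    unfold stripNext
    rw [if_pos h]
    dsimp only
    by_cases c1 : y % 2 = 0
    · rw [if_pos c1]
      by_cases c2 : x = p - 1 ∨ x = q + 2
      · rw [if_pos c2]
        unfold stripPrev
        rw [if_pos (by rw [mem_strip]; dsimp only; omega)]
        dsimp only
        rw [if_neg (by omega), if_pos (by omega)]
        simp
      · rw [if_neg c2]
        unfold stripPrev
        rw [if_pos (by rw [mem_strip]; dsimp only; omega)]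
        dsimp only
        rw [if_pos (by omega), if_neg (by omega)]
        simp
    · rw [if_neg c1]
      by_cases c2 : x = p - 3 ∨ x = q
      · rw [if_pos c2]
        unfold stripPrev
        rw [if_pos (by rw [mem_strip]; dsimp only; omega)]
        dsimp only
        rw [if_pos (by omega), if_pos (by omega)]
        simp
      · rw [if_neg c2]
        unfold stripPrev
        rw [if_pos (by rw [mem_strip]; dsimp only; omega)]
        dsimp only
        rw [if_neg (by omega), if_neg (by omega)]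
        simp
  · unfold stripNext
    rw [if_neg h]
    unfold stripPrev
    rw [if_neg h]

lemma stripNext_prev {p q r t : ℤ} (hr : r % 2 = 0) (ht : t % 2 = 0) (hpq : p < q) (v : V) :
    stripNext p q r t (stripPrev p q r t v) = v := by
  obtain ⟨x, y⟩ := v
  by_cases h : (x, y) ∈ Strip p q r t
  · have h' := h
    rw [mem_strip] at h'
    dsimp only at h'
    unfold stripPrev
    rw [if_pos h]
    dsimp only
    by_cases c1 : y % 2 = 0
    · rw [if_pos c1]
      by_cases c2 : x = p - 3 ∨ x = q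
      · rw [if_pos c2]
        unfold stripNext
        rw [if_pos (by rw [mem_strip]; dsimp only; omega)]
        dsimp only
        rw [if_neg (by omega), if_pos (by omega)]
        simp
      · rw [if_neg c2]
        unfold stripNext
        rw [if_pos (by rw [mem_strip]; dsimp only; omega)]
        dsimp only
        rw [if_pos (by omega), if_neg (by omega)]
        simp
    · rw [if_neg c1]
      by_cases c2 : x = p - 1 ∨ x = q + 2
      · rw [if_pos c2]
        unfold stripNext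
        rw [if_pos (by rw [mem_strip]; dsimp only; omega)]
        dsimp only
        rw [if_pos (by omega), if_pos (by omega)]
        simp
      · rw [if_neg c2]
        unfold stripNext
        rw [if_pos (by rw [mem_strip]; dsimp only; omega)]
        dsimp only
        rw [if_neg (by omega), if_neg (by omega)]
        simp
  · unfold stripPrev
    rw [if_neg h]
    unfold stripNext
    rw [if_neg h]

/-- The strip permutation. -/
def stripPerm (p q r t : ℤ) (hr : r % 2 = 0) (ht : t % 2 = 0) (hpq : p < q) : Perm V where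
  toFun := stripNext p q r t
  invFun := stripPrev p q r t
  left_inv := stripPrev_next hr ht hpq
  right_inv := stripNext_prev hr ht hpq

section strip

variable {p q r t : ℤ} {hr : r % 2 = 0} {ht : t % 2 = 0} {hpq : p < q}

lemma stripPerm_notMem {v : V} (h : v ∉ Strip p q r t) : stripPerm p q r t hr ht hpq v = v := by
  change stripNext p q r t v = v
  unfold stripNext; rw [if_neg h]

lemma stripPerm_up {x y : ℤ} (h : (x, y) ∈ Strip p q r t) (hy : y % 2 = 0)
    (hx : x = p - 1 ∨ x = q + 2) : stripPerm p q r t hr ht hpq (x, y) = (x, y + 1) := by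
  change stripNext p q r t (x, y) = _
  unfold stripNext
  rw [if_pos h]
  dsimp only
  rw [if_pos hy, if_pos hx]

lemma stripPerm_right {x y : ℤ} (h : (x, y) ∈ Strip p q r t) (hy : y % 2 = 0)
    (hx : ¬ (x = p - 1 ∨ x = q + 2)) : stripPerm p q r t hr ht hpq (x, y) = (x + 1, y) := by
  change stripNext p q r t (x, y) = _
  unfold stripNext
  rw [if_pos h]
  dsimp only
  rw [if_pos hy, if_neg hx]

lemma stripPerm_down {x y : ℤ} (h : (x, y) ∈ Strip p q r t) (hy : ¬ y % 2 = 0)
    (hx : x = p - 3 ∨ x = q) : stripPerm p q r t hr ht hpq (x, y) = (x, y - 1) := by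
  change stripNext p q r t (x, y) = _
  unfold stripNext
  rw [if_pos h]
  dsimp only
  rw [if_neg hy, if_pos hx]

lemma stripPerm_left {x y : ℤ} (h : (x, y) ∈ Strip p q r t) (hy : ¬ y % 2 = 0)
    (hx : ¬ (x = p - 3 ∨ x = q)) : stripPerm p q r t hr ht hpq (x, y) = (x - 1, y) := by
  change stripNext p q r t (x, y) = _
  unfold stripNext
  rw [if_pos h]
  dsimp only
  rw [if_neg hy, if_neg hx]

lemma strip_mem {v : V} (h : v ∈ Strip p q r t) : stripPerm p q r t hr ht hpq v ∈ Strip p q r t :=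
  supp_image_mem (fun _ hv => stripPerm_notMem hv) h

lemma strip_adj {v : V} (h : v ∈ Strip p q r t) :
    Adj v (stripPerm p q r t hr ht hpq v) ∧
      stripPerm p q r t hr ht hpq (stripPerm p q r t hr ht hpq v) ≠ v := by
  obtain ⟨x, y⟩ := v
  have h2 := strip_mem (hr := hr) (ht := ht) (hpq := hpq) h
  have h' := h
  rw [mem_strip] at h'
  dsimp only at h'
  by_cases c1 : y % 2 = 0
  · by_cases c2 : x = p - 1 ∨ x = q + 2
    · rw [stripPerm_up h c1 c2] at h2 ⊢
      rw [stripPerm_left h2 (by omega) (by omega)]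
      refine ⟨by rw [adj_mk]; omega, ?_⟩
      apply ne_of_fst; dsimp only; omega
    · rw [stripPerm_right h c1 c2] at h2 ⊢
      refine ⟨by rw [adj_mk]; omega, ?_⟩
      by_cases c3 : x + 1 = p - 1 ∨ x + 1 = q + 2
      · rw [stripPerm_up h2 c1 c3]; apply ne_of_fst; dsimp only; omega
      · rw [stripPerm_right h2 c1 c3]; apply ne_of_fst; dsimp only; omega
  · by_cases c2 : x = p - 3 ∨ x = q
    · rw [stripPerm_down h c1 c2] at h2 ⊢
      rw [stripPerm_right h2 (by omega) (by omega)]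
      refine ⟨by rw [adj_mk]; omega, ?_⟩
      apply ne_of_fst; dsimp only; omega
    · rw [stripPerm_left h c1 c2] at h2 ⊢
      refine ⟨by rw [adj_mk]; omega, ?_⟩
      by_cases c3 : x - 1 = p - 3 ∨ x - 1 = q
      · rw [stripPerm_down h2 c1 c3]; apply ne_of_fst; dsimp only; omega
      · rw [stripPerm_left h2 c1 c3]; apply ne_of_fst; dsimp only; omega

end strip

/-- Adding two strips of width three and a ring around an even rectangle. -/
lemma op3 {p q r t : ℤ} {s : Perm V} (hp : p % 2 = 0) (hq : q % 2 = 0) (hr : r % 2 = 0)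
    (ht : t % 2 = 0) (hpq : p < q) (hrt : r < t) (h : Dec (Rect p q r t) blk s) :
    ∃ s' : Perm V, Dec (Rect (p - 4) (q + 4) (r - 1) (t + 1)) (blkm 4) s' ∧
      Ext (Rect p q r t) s (Rect (p - 4) (q + 4) (r - 1) (t + 1)) s' := by
  have hAB : p - 4 < q + 4 - 1 := by omega
  have hCD : r - 1 < t := by omega
  set ρ := ringPerm (p - 4) (q + 4 - 1) (r - 1) t hAB hCD with hρ
  set σ := stripPerm p q r t hr ht hpq with hσ
  set R := Rect p q r t with hR
  set G := Ring (p - 4) (q + 4 - 1) (r - 1) t with hG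
  set S := Strip p q r t with hS
  have hρout : ∀ v ∉ G, ρ v = v := fun v hv => ringPerm_notMem hv
  have hσout : ∀ v ∉ S, σ v = v := fun v hv => stripPerm_notMem hv
  have hdSR : ∀ v ∈ S, v ∉ R := by
    intro v hv hv'
    rw [hS, mem_strip] at hv
    rw [hR, mem_rect] at hv'
    omega
  have hdG : ∀ v ∈ G, v ∉ S ∪ R := by
    intro v hv hv'
    rw [hG, mem_ring] at hv
    rw [Set.mem_union, hS, mem_strip, hR, mem_rect] at hv'
    omega
  obtain ⟨f1, f2, f3, f4, f5⟩ := glue hσout h.out hdSR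
  have hin : ∀ v ∉ S ∪ R, (σ * s) v = v := by
    intro v hv
    rw [Set.mem_union] at hv
    push Not at hv
    exact f3 v hv.1 hv.2
  obtain ⟨g1, g2, g3, g4, g5⟩ := glue hρout hin hdG
  set s₀ := ρ * (σ * s) with hs₀
  have eG : ∀ v ∈ G, s₀ v = ρ v := g1
  have eS : ∀ v ∈ S, s₀ v = σ v := fun v hv => by rw [g2 v (Or.inl hv), f1 v hv]
  have eR : ∀ v ∈ R, s₀ v = s v := fun v hv => by rw [g2 v (Or.inr hv), f2 v hv]
  have hK : ∀ v, v ∈ Rect (p - 4) (q + 4) (r - 1) (t + 1) ↔ v ∈ G ∨ v ∈ S ∨ v ∈ R := by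
    intro v
    rw [hG, hS, hR, mem_rect, mem_ring, mem_strip, mem_rect]
    omega
  have hbd : bd (Rect (p - 4) (q + 4) (r - 1) (t + 1)) = G := bd_eq_ring (k := 4)
  have mA1 : ((p - 1, r) : V) ∈ S := by rw [hS, mem_strip]; dsimp only; omega
  have mB1 : ((p - 1, r + 1) : V) ∈ S := by rw [hS, mem_strip]; dsimp only; omega
  have mC1 : ((p, r + 1) : V) ∈ R := by rw [hR, mem_rect]; dsimp only; omega
  have mD1 : ((p, r) : V) ∈ R := by rw [hR, mem_rect]; dsimp only; omega
  have mA2 : ((p - 4, r) : V) ∈ G := by rw [hG, mem_ring]; dsimp only; omega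
  have mB2 : ((p - 4, r + 1) : V) ∈ G := by rw [hG, mem_ring]; dsimp only; omega
  have mC2 : ((p - 3, r + 1) : V) ∈ S := by rw [hS, mem_strip]; dsimp only; omega
  have mD2 : ((p - 3, r) : V) ∈ S := by rw [hS, mem_strip]; dsimp only; omega
  have bLc : ((p, r + 1) : V) ∈ bd R := by rw [hR, mem_bd_rect]; exact ⟨mC1, by simp⟩
  have bLd : ((p, r) : V) ∈ bd R := by rw [hR, mem_bd_rect]; exact ⟨mD1, by simp⟩
  have sLc : s (p, r + 1) = (p, r) := by
    have e : blk (p, r + 1) = (p, r) := by rw [blk_eo hp (by omega)]; simp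
    rw [h.ring _ bLc (by rw [e]; exact bLd), e]
  have ρLa : ρ (p - 4, r) = (p - 4, r + 1) := ringPerm_left (by omega) (by omega)
  have hlinks : ∀ l ∈ ({(p, r), (p - 3, r)} : Finset V), l = (p, r) ∨ l = (p - 3, r) := by
    intro l hl
    simpa using hl
  have eA1 : la (p, r) = (p - 1, r) := rfl
  have eB1 : lb (p, r) = (p - 1, r + 1) := rfl
  have eC1 : lc (p, r) = (p, r + 1) := rfl
  have eD1 : ld (p, r) = (p, r) := rfl
  have eA2 : la (p - 3, r) = (p - 4, r) := by unfold la; ext <;> dsimp only <;> omega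
  have eB2 : lb (p - 3, r) = (p - 4, r + 1) := by unfold lb; ext <;> dsimp only <;> omega
  have eC2 : lc (p - 3, r) = (p - 3, r + 1) := rfl
  have eD2 : ld (p - 3, r) = (p - 3, r) := rfl
  obtain ⟨s', c1, c2, c3, c4, c5⟩ := core (Rect (p - 4) (q + 4) (r - 1) (t + 1))
    (rect_finite _ _ _ _) s₀
    (by
      intro v hv
      rw [hK] at hv
      push Not at hv
      exact g3 v hv.1 (by rw [Set.mem_union]; push Not; exact hv.2))
    (by
      intro v hv
      rw [hK] at hv
      rcases hv with hv | hv | hv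
      · have := ring_adj (hAB := hAB) (hCD := hCD) hv
        rw [eG v hv, eG _ (ring_mem hv)]
        exact this
      · have := strip_adj (hr := hr) (ht := ht) (hpq := hpq) hv
        rw [eS v hv, eS _ (strip_mem hv)]
        exact this
      · rw [eR v hv, eR _ (h.image_mem.1 hv)]
        exact h.adj v hv)
    {(p, r), (p - 3, r)}
    (by
      intro l hl
      rcases hlinks l hl with rfl | rfl
      · rw [eA1, eB1, eC1, eD1, hK, hK, hK, hK]
        exact ⟨Or.inr (Or.inl mA1), Or.inr (Or.inl mB1), Or.inr (Or.inr mC1), Or.inr (Or.inr mD1)⟩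
      · rw [eA2, eB2, eC2, eD2, hK, hK, hK, hK]
        exact ⟨Or.inl mA2, Or.inl mB2, Or.inr (Or.inl mC2), Or.inr (Or.inl mD2)⟩)
    (by
      intro l hl
      rcases hlinks l hl with rfl | rfl
      · rw [eA1, eB1, eS _ mA1]; exact stripPerm_up mA1 hr (Or.inl rfl)
      · rw [eA2, eB2, eG _ mA2, ρLa])
    (by
      intro l hl
      rcases hlinks l hl with rfl | rfl
      · rw [eC1, eD1, eR _ mC1, sLc]
      · rw [eC2, eD2, eS _ mC2]
        have := stripPerm_down (hr := hr) (ht := ht) (hpq := hpq) mC2 (by omega) (Or.inl rfl)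
        rw [this]; simp)
    (by
      intro l hl
      rcases hlinks l hl with rfl | rfl
      · rw [eA1, eD1, eR _ mD1]
        intro h'
        exact hdSR _ mA1 (h' ▸ h.image_mem.1 mD1)
      · rw [eA2, eD2, eS _ mD2]
        intro h'
        have := strip_mem (hr := hr) (ht := ht) (hpq := hpq) mD2
        rw [← hσ, h'] at this
        exact hdG _ mA2 (Or.inl this))
    (by
      intro l hl
      rcases hlinks l hl with rfl | rfl
      · rw [eB1, eC1, eS _ mB1]
        intro h'
        have := strip_mem (hr := hr) (ht := ht) (hpq := hpq) mB1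
        rw [← hσ, h'] at this
        exact hdSR _ this mC1
      · rw [eB2, eC2, eG _ mB2]
        intro h'
        have := ring_mem (hAB := hAB) (hCD := hCD) mB2
        rw [← hρ, h'] at this
        exact hdG _ this (Or.inl mC2))
    (by
      intro l hl m hm
      rcases hlinks l hl with rfl | rfl <;> rcases hlinks m hm with rfl | rfl <;>
        simp only [eA1, eB1, eC1, eD1, eA2, eB2, eC2, eD2] <;>
        refine ⟨?_, ?_, ?_, ?_, ?_⟩ <;> intro h' <;> rw [Prod.mk.injEq] at h' <;> omega)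
  have notlink : ∀ v, v ≠ (p - 1, r) → v ≠ (p, r + 1) → v ≠ (p - 4, r) → v ≠ (p - 3, r + 1) →
      s' v = s₀ v := by
    intro v h1 h2 h3 h4
    refine c3 v ?_
    intro l hl
    rcases hlinks l hl with rfl | rfl
    · exact ⟨h1, h2⟩
    · rw [eA2, eC2]; exact ⟨h3, h4⟩
  have hringcyc : ∀ u ∈ G, ∀ v ∈ G, s'.SameCycle u v := fun u hu v hv =>
    c4 u v (g4 u v (ring_sameCycle hu hv))
  refine ⟨s', ⟨c1, c2, ?_, ?_⟩, ⟨?_, ?_, ?_, ?_⟩⟩
  · rw [hbd]
    intro v hv hv'
    have h1 : v ≠ (p - 4, r) := by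
      rintro rfl
      rw [blkm_right (by omega) (by omega)] at hv'
      refine hdG _ hv' (Or.inl ?_)
      rw [hS, mem_strip]; dsimp only; omega
    rw [notlink v (fun h' => hdG _ hv (Or.inl (h' ▸ mA1)))
      (fun h' => hdG _ hv (Or.inr (h' ▸ mC1))) h1 (fun h' => hdG _ hv (Or.inl (h' ▸ mC2))), eG v hv]
    exact ring_blkm (by norm_num) hp hq hr ht hpq hrt hAB hCD hv hv'
  · rw [hbd]; exact hringcyc
  · intro v hv; rw [hK]; exact Or.inr (Or.inr hv)
  · intro v hv hv'
    rw [notlink v (fun h' => hdSR _ mA1 (h' ▸ hv)) (fun h' => hv' (h' ▸ bLc))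
      (fun h' => hdG _ mA2 (Or.inr (h' ▸ hv))) (fun h' => hdSR _ mC2 (h' ▸ hv)), eR v hv]
  · intro u _ v _ huv
    exact c4 u v (g5 u v (f5 u v huv))
  · rw [hbd]
    intro u hu v hv
    have k1 : s'.SameCycle u (p, r) := c4 _ _ (g5 _ _ (f5 _ _ (h.cyc u hu _ bLd)))
    have k2 := c5 (p, r) (by simp)
    rw [eA1, eD1] at k2
    have k3 := c5 (p - 3, r) (by simp)
    rw [eA2, eD2] at k3
    have k4 : s'.SameCycle (p - 3, r) (p - 1, r) := by
      apply c4
      have a1 : s₀ (p - 3, r) = (p - 2, r) := by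
        rw [eS _ mD2]
        have := stripPerm_right (hr := hr) (ht := ht) (hpq := hpq) mD2 hr (by omega)
        rw [this]; ext <;> dsimp only <;> omega
      have m2 : ((p - 2, r) : V) ∈ S := by rw [hS, mem_strip]; dsimp only; omega
      have a2 : s₀ (p - 2, r) = (p - 1, r) := by
        rw [eS _ m2]
        have := stripPerm_right (hr := hr) (ht := ht) (hpq := hpq) m2 hr (by omega)
        rw [this]; ext <;> dsimp only <;> omega
      refine ⟨2, ?_⟩
      rw [show (2 : ℤ) = 1 + 1 by norm_num, zpow_add, zpow_one, Perm.mul_apply, a1, a2]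
    exact k1.trans (k2.symm.trans (k4.symm.trans (k3.symm.trans (hringcyc _ mA2 v hv))))

end Pool.Agent.Schreier60
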