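import Pool.Agent.Schreier60.Grid

set_option autoImplicit false

namespace Pool.Agent.Schreier60

open Equiv Equiv.Perm

section general

variable {α : Type*}

lemma sameCycle_of_step {s s' : Perm α} (h : ∀ y, s'.SameCycle y (s y)) {u v : α}
    (huv : s.SameCycle u v) : s'.SameCycle u v := by
  obtain ⟨i, rfl⟩ := huv
  induction i using Int.induction_on with
  | zero => simp; exact SameCycle.refl _ _
  | succ i ih =>
    refine ih.trans ?_
    have e : (s ^ ((i : ℤ) + 1)) u = s ((s ^ (i : ℤ)) u) := by
      rw [add_comm, zpow_add, zpow_one]; rfl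
    rw [e]; exact h _
  | pred i ih =>
    refine ih.trans ?_
    have e : (s ^ (-(i : ℤ))) u = s ((s ^ (-(i : ℤ) - 1)) u) := by
      have : -(i : ℤ) = 1 + (-(i : ℤ) - 1) := by ring
      conv_lhs => rw [this, zpow_add, zpow_one]
      rfl
    rw [e]; exact (h _).symm

lemma exists_pow_fix {s : Perm α} {K : Set α} (hK : K.Finite) (h : ∀ v ∉ K, s v = v) (v : α) :
    ∃ m : ℕ, 0 < m ∧ (s ^ m) v = v := by
  by_cases hv : v ∈ K
  · have hstep : ∀ x ∈ K, s x ∈ K := by
      intro x hx
      by_contra hcon
      have h1 := h _ hcon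
      have h2 := s.injective h1
      rw [h2] at hcon
      exact hcon hx
    have hpow : ∀ i : ℕ, (s ^ i) v ∈ K := by
      intro i
      induction i with
      | zero => simpa using hv
      | succ i ih => rw [pow_succ']; exact hstep _ ih
    have hninj : ¬ Function.Injective fun i : ℕ => (s ^ i) v := by
      intro hinj
      have : (Set.range fun i : ℕ => (s ^ i) v).Infinite := Set.infinite_range_of_injective hinj
      exact this (hK.subset (by rintro _ ⟨i, rfl⟩; exact hpow i))
    rw [Function.not_injective_iff] at hninj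
    obtain ⟨i, j, hij, hne⟩ := hninj
    have key : ∀ a b : ℕ, a < b → (s ^ a) v = (s ^ b) v → ∃ m : ℕ, 0 < m ∧ (s ^ m) v = v := by
      intro a b hab h
      refine ⟨b - a, by omega, ?_⟩
      have : b = a + (b - a) := by omega
      rw [this, pow_add] at h
      exact ((s ^ a).injective h).symm
    rcases lt_or_gt_of_ne hne with h1 | h1
    · exact key i j h1 hij
    · exact key j i h1 hij.symm
  · exact ⟨1, one_pos, by simpa using h v hv⟩

variable [DecidableEq α]

/-- Composing with a transposition of two points in different finite cycles merges the cycles. -/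
lemma merge {s : Perm α} {a c : α} (hac : ¬ s.SameCycle a c) (hc : ∃ m : ℕ, 0 < m ∧ (s ^ m) c = c) :
    (∀ u v, s.SameCycle u v → (s * swap a c).SameCycle u v) ∧ (s * swap a c).SameCycle a c := by
  set s' := s * swap a c with hs'
  have ha' : s' a = s c := by simp [hs']
  have hc' : s' c = s a := by simp [hs']
  have ho : ∀ y, y ≠ a → y ≠ c → s' y = s y := by
    intro y h1 h2
    simp [hs', swap_apply_of_ne_of_ne h1 h2]
  have hstep : ∀ y, s'.SameCycle y (s' y) := fun y => ⟨1, by simp⟩
  have hcore : s'.SameCycle a c := by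
    have key : ∀ n : ℕ, s'.SameCycle a ((s ^ (n + 1)) c) := by
      intro n
      induction n with
      | zero =>
        have := hstep a
        rw [ha'] at this
        simpa using this
      | succ n ih =>
        rw [pow_succ' s (n + 1), Perm.mul_apply]
        by_cases h1 : (s ^ (n + 1)) c = c
        · rw [h1, ← ha']; exact hstep a
        · have h2 : (s ^ (n + 1)) c ≠ a := by
            intro h
            apply hac
            have : s.SameCycle c ((s ^ (n + 1)) c) := ⟨((n + 1 : ℕ) : ℤ), by rw [zpow_natCast]⟩
            rw [h] at this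
            exact this.symm
          rw [← ho _ h2 h1]
          exact ih.trans (hstep _)
    obtain ⟨m, hm, hmc⟩ := hc
    have := key (m - 1)
    rw [Nat.sub_add_cancel hm, hmc] at this
    exact this
  refine ⟨fun u v huv => sameCycle_of_step (fun y => ?_) huv, hcore⟩
  by_cases h1 : y = a
  · subst h1
    have := hstep c
    rw [hc'] at this
    exact hcore.trans this
  · by_cases h2 : y = c
    · subst h2
      have := hstep a
      rw [ha'] at this
      exact hcore.symm.trans this
    · rw [← ho y h1 h2]; exact hstep y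

end general

/-- Lower left corner of the unit square attached to the link `(x, Y)`. -/
def la (l : V) : V := (l.1 - 1, l.2)
/-- Upper left corner. -/
def lb (l : V) : V := (l.1 - 1, l.2 + 1)
/-- Upper right corner. -/
def lc (l : V) : V := (l.1, l.2 + 1)
/-- Lower right corner. -/
def ld (l : V) : V := (l.1, l.2)

lemma ne_of_fst {u v : V} (h : u.1 ≠ v.1) : u ≠ v := fun e => h (by rw [e])
lemma ne_of_snd {u v : V} (h : u.2 ≠ v.2) : u ≠ v := fun e => h (by rw [e])

lemma la_injective : Function.Injective la := by
  intro l m h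
  simp only [la, Prod.mk.injEq] at h
  exact Prod.ext (by omega) h.2

lemma lc_injective : Function.Injective lc := by
  intro l m h
  simp only [lc, Prod.mk.injEq] at h
  exact Prod.ext h.1 (by omega)

/-- Greedy merging along a finite set of links. -/
lemma links (s₀ : Perm V) {K : Set V} (hK : K.Finite) (hs₀ : ∀ v ∉ K, s₀ v = v) (L : Finset V)
    (hL : ∀ l ∈ L, la l ∈ K ∧ lc l ∈ K) (hd : ∀ l ∈ L, ∀ m ∈ L, la l ≠ lc m) :
    ∃ s : Perm V, (∀ v, (∀ l ∈ L, v ≠ la l ∧ v ≠ lc l) → s v = s₀ v) ∧
      (∀ l ∈ L, (s (la l) = s₀ (la l) ∧ s (lc l) = s₀ (lc l)) ∨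
        (s (la l) = s₀ (lc l) ∧ s (lc l) = s₀ (la l))) ∧
      (∀ u v, s₀.SameCycle u v → s.SameCycle u v) ∧ (∀ l ∈ L, s.SameCycle (la l) (lc l)) := by
  classical
  induction L using Finset.induction_on with
  | empty => exact ⟨s₀, by simp, by simp, fun _ _ h => h, by simp⟩
  | insert l L hl ih =>
    obtain ⟨s, h1, h2, h3, h4⟩ := ih (fun m hm => hL m (Finset.mem_insert_of_mem hm))
      (fun m hm m' hm' => hd m (Finset.mem_insert_of_mem hm) m' (Finset.mem_insert_of_mem hm'))
    have hne_a : ∀ m ∈ L, la l ≠ la m ∧ la l ≠ lc m := fun m hm =>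
      ⟨fun h => hl (la_injective h ▸ hm), hd l (Finset.mem_insert_self _ _) m
        (Finset.mem_insert_of_mem hm)⟩
    have hne_c : ∀ m ∈ L, lc l ≠ la m ∧ lc l ≠ lc m := fun m hm =>
      ⟨fun h => hd m (Finset.mem_insert_of_mem hm) l (Finset.mem_insert_self _ _) h.symm,
        fun h => hl (lc_injective h ▸ hm)⟩
    have ea : s (la l) = s₀ (la l) := h1 _ hne_a
    have ec : s (lc l) = s₀ (lc l) := h1 _ hne_c
    by_cases hsc : s.SameCycle (la l) (lc l)
    · refine ⟨s, fun v hv => h1 v fun m hm => hv m (Finset.mem_insert_of_mem hm), ?_, h3, ?_⟩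
      · intro m hm
        rcases Finset.mem_insert.1 hm with rfl | hm
        · exact Or.inl ⟨ea, ec⟩
        · exact h2 m hm
      · intro m hm
        rcases Finset.mem_insert.1 hm with rfl | hm
        · exact hsc
        · exact h4 m hm
    · have hfix : ∀ v ∉ K, s v = v := by
        intro v hv
        rw [h1 v, hs₀ v hv]
        intro m hm
        have := hL m (Finset.mem_insert_of_mem hm)
        exact ⟨fun h => hv (h ▸ this.1), fun h => hv (h ▸ this.2)⟩
      obtain ⟨m1, m2⟩ := merge hsc (exists_pow_fix hK hfix _)
      have hA : (s * swap (la l) (lc l)) (la l) = s (lc l) := by simp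
      have hC : (s * swap (la l) (lc l)) (lc l) = s (la l) := by simp
      have hO : ∀ v, v ≠ la l → v ≠ lc l → (s * swap (la l) (lc l)) v = s v := by
        intro v h5 h6
        rw [Perm.mul_apply, swap_apply_of_ne_of_ne h5 h6]
      refine ⟨s * swap (la l) (lc l), ?_, ?_, fun u v huv => m1 u v (h3 u v huv), ?_⟩
      · intro v hv
        have := hv l (Finset.mem_insert_self _ _)
        rw [hO v this.1 this.2]
        exact h1 v fun m hm => hv m (Finset.mem_insert_of_mem hm)
      · intro m hm
        rcases Finset.mem_insert.1 hm with rfl | hm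
        · exact Or.inr ⟨by rw [hA, ec], by rw [hC, ea]⟩
        · rw [hO (la m) (hne_a m hm).1.symm (hne_c m hm).1.symm,
            hO (lc m) (hne_a m hm).2.symm (hne_c m hm).2.symm]
          exact h2 m hm
      · intro m hm
        rcases Finset.mem_insert.1 hm with rfl | hm
        · exact m2
        · exact m1 _ _ (h4 m hm)

/-- The permutation equal to `p` on an invariant set `S` and to the identity elsewhere. -/
noncomputable def restrict (p : Perm V) (S : Set V) (h : ∀ v, v ∈ S ↔ p v ∈ S) : Perm V := by
  classical
  exact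
  { toFun := fun v => if v ∈ S then p v else v
    invFun := fun v => if v ∈ S then p.symm v else v
    left_inv := by
      intro v
      by_cases hv : v ∈ S
      · simp [hv, (h v).1 hv]
      · simp [hv]
    right_inv := by
      intro v
      by_cases hv : v ∈ S
      · have : p.symm v ∈ S := by rw [h]; simpa using hv
        simp [hv, this]
      · simp [hv] }

lemma restrict_of_mem {p : Perm V} {S : Set V} {h : ∀ v, v ∈ S ↔ p v ∈ S} {v : V} (hv : v ∈ S) :
    restrict p S h v = p v := by
  unfold restrict
  simp [hv]

lemma restrict_of_notMem {p : Perm V} {S : Set V} {h : ∀ v, v ∈ S ↔ p v ∈ S} {v : V}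
    (hv : v ∉ S) : restrict p S h v = v := by
  unfold restrict
  simp [hv]

end Pool.Agent.Schreier60
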