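import Pool.Agent.Schreier60.Blue

set_option autoImplicit false

namespace Pool.Agent.Schreier60

open Equiv Equiv.Perm

/-- The standard box. -/
def Box (l : ℤ) : Set V := Rect (-l) l (-l) l

/-- The core of the standard box. -/
def Cor (l : ℤ) : Set V := Rect (-l + 2) (l - 2) (-l + 2) (l - 2)

/-- Valid decorations of the standard box. -/
def VP (l : ℤ) (x : Perm V × Perm V) : Prop := Valid (Box l) (Cor l) blk x.1 x.2

/-- `y` on the box of size `l'` extends the decoration `x` of the box of size `l` placed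
by `g`. -/
def PExt (l : ℤ) (g : Perm V) (x : Perm V × Perm V) (l' : ℤ) (y : Perm V × Perm V) : Prop :=
  Ext (g '' Box l) (g * x.1 * g⁻¹) (Box l') y.1 ∧ ∀ v ∈ Cor l, y.2 (g v) = g (x.2 v)

lemma mem_box {l : ℤ} {v : V} : v ∈ Box l ↔ -l ≤ v.1 ∧ v.1 < l ∧ -l ≤ v.2 ∧ v.2 < l := Iff.rfl
lemma mem_cor {l : ℤ} {v : V} :
    v ∈ Cor l ↔ -l + 2 ≤ v.1 ∧ v.1 < l - 2 ∧ -l + 2 ≤ v.2 ∧ v.2 < l - 2 := Iff.rfl

lemma box_finite (l : ℤ) : (Box l).Finite := rect_finite _ _ _ _

lemma cor_subset_box (l : ℤ) : Cor l ⊆ Box l := by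
  intro v hv; rw [mem_cor] at hv; rw [mem_box]; omega

lemma mem_bd_box {l : ℤ} {v : V} : v ∈ bd (Box l) ↔
    v ∈ Box l ∧ (v.1 = -l ∨ v.1 = l - 1 ∨ v.2 = -l ∨ v.2 = l - 1) := mem_bd_rect

lemma NR.conj {g s : Perm V} (hg : IsAut g) {u v : V} (h : NR s u v) :
    NR (g * s * g⁻¹) (g u) (g v) := by
  obtain ⟨a, b, c⟩ := h
  refine ⟨(hg _ _).2 a, ?_, ?_⟩
  · rw [conj_apply]; exact fun e => b (g.injective e)
  · rw [conj_apply]; exact fun e => c (g.injective e)

lemma Valid.conj {K C : Set V} {β s b g : Perm V} (h : Valid K C β s b) (hg : IsAut g) :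
    Valid (g '' K) (g '' C) (g * β * g⁻¹) (g * s * g⁻¹) (g * b * g⁻¹) where
  dec := h.dec.conj hg
  sub := Set.image_mono h.sub
  deep := by
    rintro _ ⟨v, hv, rfl⟩ h'
    rw [bd_image hg] at h'
    obtain ⟨w, hw, hw'⟩ := h'
    exact h.deep v hv (g.injective hw' ▸ hw)
  barrier := by
    rintro _ ⟨v, hv, rfl⟩ w hw hvw
    have e : w = g (g⁻¹ w) := by simp
    rw [e] at hw hvw ⊢
    rw [hg] at hvw
    rw [conj_apply, conj_apply]
    rcases h.barrier v hv (g⁻¹ w) (fun h' => hw ⟨_, h', rfl⟩) hvw with h' | h'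
    · left; rw [h']
    · right; rw [h']
  bout := by
    intro w hw
    have e : w = g (g⁻¹ w) := by simp
    rw [e] at hw ⊢
    rw [conj_apply, h.bout _ (fun h' => hw ⟨_, h', rfl⟩)]
  blue := by
    rintro _ ⟨v, hv, rfl⟩
    rw [conj_apply, conj_apply]
    exact ⟨(h.blue v hv).1.conj hg, fun e => (h.blue v hv).2 (g.injective e)⟩

/-- **Extension theorem** for the standard pieces. -/
theorem exists_piece {ι : Type*} {l : ℤ} (hl : l % 2 = 0) (hpos : 2 ≤ l)
    (m : ι → ℤ) (hm : ∀ i, m i % 2 = 0 ∧ 0 < m i) (g : ι → Perm V) (hg : ∀ i, IsAut (g i))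
    (x : ι → Perm V × Perm V) (hx : ∀ i, VP (m i) (x i))
    (hin : ∀ i, ∀ u ∈ g i '' Box (m i), ∀ v, Near 30 u v → v ∈ Box l)
    (hsep : ∀ i j, i ≠ j → ∀ u ∈ g i '' Box (m i), ∀ v ∈ g j '' Box (m j), ¬ Near 30 u v) :
    ∃ y, VP l y ∧ ∀ i, PExt (m i) (g i) (x i) l y := by
  classical
  set c := cfr 1 with hc
  have hcA : IsAut c := isAut_cfr 1
  have hstd : ∀ i, StdBox (c * g i) (-m i) (m i) (-m i) (m i) (x i).1 := fun i =>
    ⟨hcA.mul (hg i), by have := hm i; omega, (hm i).1, by have := hm i; omega, (hm i).1,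
      by have := hm i; omega, by have := hm i; omega, (hx i).dec⟩
  choose K' s' hal using fun i => (hstd i).align
  have hcinv : ∀ a b : ℤ, c⁻¹ (a, b) = (b + 1, a + 1) := fun a b => rfl
  -- points of `K' i`, in the original coordinates
  have hnear : ∀ i, ∀ v ∈ K' i, ∃ u ∈ g i '' Box (m i), Near 12 (c⁻¹ v) u := by
    intro i v hv
    obtain ⟨u, hu, huv⟩ := (hal i).near v hv
    rw [image_mul] at hu
    obtain ⟨w, hw, rfl⟩ := hu
    refine ⟨w, hw, ?_⟩
    have := hcA.inv.near (r := 12) (u := v) (v := c w)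
    rw [← this] at huv
    simpa using huv
  have hsub : ∀ i, K' i ⊆ Rect (-l + 2) (l - 2 - 2) (-l + 2) (l - 2 - 2) := by
    rintro i ⟨a, b⟩ hv
    obtain ⟨⟨u1, u2⟩, hu, hn⟩ := hnear i _ hv
    rw [hcinv] at hn
    unfold Near at hn
    dsimp only at hn
    have h1 := hin i _ hu (b - 2, a - 2) (by unfold Near; dsimp only; omega)
    have h2 := hin i _ hu (b + 4, a + 4) (by unfold Near; dsimp only; omega)
    rw [mem_box] at h1 h2
    rw [mem_rect]
    dsimp only at h1 h2 ⊢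
    omega
  have hdis : ∀ i j v, v ∈ K' i → v ∈ K' j → i = j := by
    intro i j v hi hj
    by_contra hij
    obtain ⟨u, hu, h1⟩ := hnear i v hi
    obtain ⟨w, hw, h2⟩ := hnear j v hj
    exact hsep i j hij u hu w hw ((h1.symm.trans h2).mono (by norm_num))
  obtain ⟨s, hsdec, hsext, hsbar⟩ := assemble (P := -l) (Q := l - 2) (R := -l) (T := l - 2)
    (by omega) (by omega) (by omega) (by omega) (by omega) (by omega) K' s' hsub hdis
    (fun i => (hal i).blk_mem) (fun i => (hal i).dec)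
  -- back to the original coordinates
  set s₁ := c⁻¹ * s * c with hs₁
  have e1 : c⁻¹ * s * (c⁻¹)⁻¹ = s₁ := by rw [inv_inv]
  have e2 : (c⁻¹ : Perm V) '' Rect (-l - 1) (l - 2 + 1) (-l - 1) (l - 2 + 1) = Box l := by
    have := cfr_inv_image (k := 1) (p := -l) (q := l - 2) (r := -l) (t := l - 2)
    rw [← hc] at this
    rw [this]
    unfold Box
    congr 1 <;> ring
  have e3 : c⁻¹ * blkm 1 * (c⁻¹)⁻¹ = blk := by
    unfold blkm; rw [hc]; group
  have hdec₁ : Dec (Box l) blk s₁ := by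
    have := hsdec.conj hcA.inv
    rwa [e1, e2, e3] at this
  have hext₁ : ∀ i, Ext (g i '' Box (m i)) (g i * (x i).1 * (g i)⁻¹) (Box l) s₁ := by
    intro i
    have := (((hal i).ext.trans (hsext i) (hal i).ne)).conj hcA.inv
    rw [e1, e2, ← image_mul] at this
    have e4 : c⁻¹ * (c * g i) = g i := by group
    have e5 : c⁻¹ * (c * g i * (x i).1 * (c * g i)⁻¹) * c⁻¹⁻¹ = g i * (x i).1 * (g i)⁻¹ := by group
    rw [e4, e5] at this
    exact this
  have hbar₁ : ∀ v ∈ Cor l, ∀ w ∉ Cor l, Adj v w → s₁ v = w ∨ s₁ w = v := by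
    rintro ⟨a, b⟩ hv ⟨a', b'⟩ hw hvw
    have hcv : c (a, b) = (b - 1, a - 1) := rfl
    have hcw : c (a', b') = (b' - 1, a' - 1) := rfl
    rw [mem_cor] at hv hw
    dsimp only at hv hw
    have h' := hsbar (c (a, b)) (by rw [hcv, mem_rect]; dsimp only; omega) (c (a', b'))
      (by rw [hcw, mem_rect]; dsimp only; omega) ((hcA _ _).2 hvw)
    rcases h' with h' | h'
    · left
      rw [hs₁, Perm.mul_apply, Perm.mul_apply, h']; simp
    · right
      rw [hs₁, Perm.mul_apply, Perm.mul_apply, h']; simp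
  have hdeep : ∀ l : ℤ, ∀ v ∈ Cor l, v ∉ bd (Box l) := by
    intro l v hv
    rw [mem_cor] at hv
    rw [mem_bd_box]
    omega
  obtain ⟨b, hb, hb'⟩ := blue_extend (box_finite l) hdec₁ (cor_subset_box l) (hdeep l) hbar₁
    (fun i => g i '' Box (m i)) (fun i => g i '' Cor (m i)) (fun i => g i * blk * (g i)⁻¹)
    (fun i => g i * (x i).1 * (g i)⁻¹) (fun i => g i * (x i).2 * (g i)⁻¹)
    (fun i => (hx i).conj (hg i))
    (by
      rintro i v hv
      have hv' : v ∈ g i '' Box (m i) := Set.image_mono (cor_subset_box _) hv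
      obtain ⟨a, b⟩ := v
      have h1 := hin i _ hv' (a - 2, b - 2) (by unfold Near; dsimp only; omega)
      have h2 := hin i _ hv' (a + 2, b + 2) (by unfold Near; dsimp only; omega)
      rw [mem_box] at h1 h2
      rw [mem_cor]
      dsimp only at h1 h2 ⊢
      omega)
    (by
      rintro i _ ⟨v, hv, rfl⟩ w hvw
      have e : w = g i ((g i)⁻¹ w) := by simp
      rw [e] at hvw ⊢
      rw [hg i] at hvw
      generalize (g i)⁻¹ w = w' at hvw
      have h1 : w' ∈ Box (m i) ∧ w' ∉ bd (Box (m i)) := by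
        rw [mem_bd_box, mem_box]
        rw [mem_cor] at hv
        unfold Adj at hvw
        omega
      refine ⟨⟨w', h1.1, rfl⟩, ?_⟩
      rw [bd_image (hg i)]
      rintro ⟨z, hz, hz'⟩
      exact h1.2 ((g i).injective hz' ▸ hz))
    (by
      intro i j v hi hj
      by_contra hij
      exact hsep i j hij v (Set.image_mono (cor_subset_box _) hi) v
        (Set.image_mono (cor_subset_box _) hj) (near_refl (by norm_num) v))
    hext₁
  refine ⟨(s₁, b), hb, fun i => ⟨hext₁ i, fun v hv => ?_⟩⟩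
  have := hb' i (g i v) ⟨v, hv, rfl⟩
  rw [conj_apply] at this
  exact this

end Pool.Agent.Schreier60
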