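import Pool.Agent.Schreier60.Meas

set_option autoImplicit false

namespace Pool.Agent.Schreier60

open Equiv Equiv.Perm MeasureTheory ProbabilityTheory

/-- Exponents of the scales. -/
@[irreducible] def ex (n : ℕ) : ℕ := (n + 8) ^ 2

/-- The scales. -/
@[irreducible] def lN (n : ℕ) : ℕ := 2 ^ ex n

/-- The scales as integers. -/
@[irreducible] def lZ (n : ℕ) : ℤ := (lN n : ℤ)

lemma lZ_def (n : ℕ) : lZ n = (lN n : ℤ) := by unfold lZ; rfl

lemma ex_succ (n : ℕ) : ex (n + 1) = ex n + (2 * n + 17) := by unfold ex; ring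

lemma ex_lt {n m : ℕ} (h : n < m) : ex n + (n + m + 16) ≤ ex m := by
  unfold ex
  obtain ⟨k, rfl⟩ : ∃ k, m = n + 1 + k := ⟨m - n - 1, by omega⟩
  nlinarith [Nat.zero_le (n * k), Nat.zero_le (k * k)]

lemma lN_mul_le {n m : ℕ} (h : n < m) : lN n * 2 ^ (n + m + 16) ≤ lN m := by
  unfold lN
  rw [← pow_add]
  exact Nat.pow_le_pow_right (by norm_num) (ex_lt h)

lemma lN_big (n : ℕ) : 2 ^ 64 ≤ lN n := by
  unfold lN ex
  refine Nat.pow_le_pow_right (by norm_num) ?_
  nlinarith [Nat.zero_le n]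

lemma lZ_spec (n : ℕ) : lZ n % 2 = 0 ∧ 2 ≤ lZ n := by
  have h := lN_big n
  constructor
  · unfold lZ lN ex
    have : (n + 8) ^ 2 = ((n + 8) ^ 2 - 1) + 1 := by
      have : 1 ≤ (n + 8) ^ 2 := Nat.one_le_pow _ _ (by omega)
      omega
    rw [this, pow_succ]
    push_cast
    exact Int.mul_emod_left _ _
  · unfold lZ; omega

lemma lN_lt {n m : ℕ} (h : n < m) : 65536 * lN n ≤ lN m := by
  have h1 := lN_mul_le h
  have h2 : 2 ^ 16 ≤ 2 ^ (n + m + 16) := Nat.pow_le_pow_right (by norm_num) (by omega)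
  calc 65536 * lN n = lN n * 2 ^ 16 := by ring
    _ ≤ lN n * 2 ^ (n + m + 16) := Nat.mul_le_mul_left _ h2
    _ ≤ lN m := h1

lemma lN_mono {n m : ℕ} (h : n ≤ m) : lN n ≤ lN m := by
  rcases h.lt_or_eq with h | rfl
  · have := lN_lt h; omega
  · exact le_rfl

lemma lZ_lt {n m : ℕ} (h : n < m) : 65536 * lZ n ≤ lZ m := by
  rw [lZ_def, lZ_def]; exact_mod_cast lN_lt h

lemma lZ_mono {n m : ℕ} (h : n ≤ m) : lZ n ≤ lZ m := by
  rw [lZ_def, lZ_def]; exact_mod_cast lN_mono h

lemma lZ_big (n : ℕ) : 65536 ≤ lZ n := by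
  have := lN_big n
  rw [lZ_def]; omega

/-- The thresholds. -/
noncomputable def thr (n : ℕ) : unitInterval :=
  ⟨(1 / 2) ^ (8 + 2 * ex n), by positivity, pow_le_one₀ (by norm_num) (by norm_num)⟩

lemma thr_val (n : ℕ) : (thr n : ℝ) = 1 / (256 * (lN n : ℝ) ^ 2) := by
  unfold thr lN
  push_cast
  rw [pow_add, pow_mul', one_div_pow, one_div_pow]
  norm_num
  rw [mul_comm]

lemma thr_le_quarter (n : ℕ) : (thr n : ℝ) ≤ 1 / 4 := by
  rw [thr_val]
  have : (1 : ℝ) ≤ (lN n : ℝ) := by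
    have := lN_big n
    exact_mod_cast (by omega : 1 ≤ lN n)
  apply one_div_le_one_div_of_le (by norm_num)
  nlinarith

/-- One quarter, one half and three quarters. -/
noncomputable def q1 : unitInterval := ⟨1 / 4, by norm_num, by norm_num⟩
noncomputable def q2 : unitInterval := ⟨1 / 2, by norm_num, by norm_num⟩
noncomputable def q3 : unitInterval := ⟨3 / 4, by norm_num, by norm_num⟩

lemma thr_le_q1 (n : ℕ) : thr n ≤ q1 := thr_le_quarter n

/-- The law of the configuration. -/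
noncomputable def mu : Measure Om := Measure.infinitePi (fun _ : V => (volume : Measure unitInterval))

instance : IsProbabilityMeasure mu := by unfold mu; infer_instance

lemma mu_coord (u : V) {s : Set unitInterval} (hs : MeasurableSet s) :
    mu {ω | ω u ∈ s} = volume s := by
  have h := Measure.infinitePi_pi (μ := fun _ : V => (volume : Measure unitInterval))
    (s := {u}) (t := fun _ => s) (fun _ _ => hs)
  rw [Finset.prod_singleton] at h
  rw [← h]
  unfold mu
  congr 1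
  ext ω
  simp

lemma mu_exists_le (T : Finset V) {s : Set unitInterval} (hs : MeasurableSet s) :
    mu {ω | ∃ u ∈ T, ω u ∈ s} ≤ T.card * volume s := by
  have : {ω : Om | ∃ u ∈ T, ω u ∈ s} = ⋃ u ∈ T, {ω | ω u ∈ s} := by
    ext ω; simp
  rw [this]
  refine (measure_biUnion_finset_le T _).trans ?_
  rw [Finset.sum_congr rfl (fun u _ => mu_coord u hs), Finset.sum_const, nsmul_eq_mul]

lemma vol_thr (n : ℕ) : volume (Set.Iic (thr n)) = ENNReal.ofReal (thr n) :=
  unitInterval.volume_Iic _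

/-- The basic estimate for the bad events. -/
lemma card_mul_thr {N n : ℕ} {b : ℝ} (hb : (N : ℝ) * (1 / (256 * (lN n : ℝ) ^ 2)) ≤ b) :
    (N : ENNReal) * volume (Set.Iic (thr n)) ≤ ENNReal.ofReal b := by
  rw [vol_thr, thr_val, ← ENNReal.ofReal_natCast, ← ENNReal.ofReal_mul (by positivity)]
  exact ENNReal.ofReal_le_ofReal hb

end Pool.Agent.Schreier60
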