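import Pool.Agent.Schreier60.Bad

set_option autoImplicit false

namespace Pool.Agent.Schreier60

open Equiv Equiv.Perm MeasureTheory ProbabilityTheory

/-- The annulus belonging to the level `n + 1`. -/
@[irreducible] noncomputable def An (n : ℕ) : Finset V := Bf (4 * lZ (n + 1)) \ Bf (4 * lZ n + 1)

lemma mem_An {n : ℕ} {u : V} :
    u ∈ An n ↔ Near (4 * lZ (n + 1)) (0, 0) u ∧ ¬ Near (4 * lZ n + 1) (0, 0) u := by
  unfold An
  rw [Finset.mem_sdiff, mem_Bf, mem_Bf]

/-- A quarter of the scale. -/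
@[irreducible] def qq (n : ℕ) : ℤ := ((2 ^ (ex (n + 1) - 2) : ℕ) : ℤ)

lemma four_qq (n : ℕ) : 4 * qq n = lZ (n + 1) := by
  unfold qq lZ lN
  have : ex (n + 1) = (ex (n + 1) - 2) + 2 := by
    have : 2 ≤ ex (n + 1) := by
      unfold ex
      have : (n + 1 + 8) ^ 2 = (n + 9) * (n + 9) := by ring
      rw [this]
      nlinarith [Nat.zero_le n]
    omega
  conv_rhs => rw [this, pow_add]
  push_cast
  ring

/-- Good positions for the seed. -/
@[irreducible] noncomputable def Wn (n : ℕ) : Finset V := Finset.Ico (qq n) (2 * qq n) ×ˢ Finset.Ico 0 (qq n)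

lemma mem_Wn {n : ℕ} {v : V} :
    v ∈ Wn n ↔ qq n ≤ v.1 ∧ v.1 < 2 * qq n ∧ 0 ≤ v.2 ∧ v.2 < qq n := by
  unfold Wn
  rw [Finset.mem_product, Finset.mem_Ico, Finset.mem_Ico]
  tauto

/-- The prescribed sets of values. -/
@[irreducible] noncomputable def tt (n : ℕ) (v u : V) : Set unitInterval :=
  if u = v then Set.Iic (thr (n + 1)) else
  if u = (v.1 + 1, v.2) then Set.Ioi q3 else
  if u = (v.1, v.2 + 1) then Set.Ioc q2 q3 else
  if u = (v.1 - 1, v.2) then Set.Ioc q1 q2 else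
  if u = (v.1, v.2 - 1) then Set.Ioc q1 q2 else Set.Ioi (thr (n + 1))

lemma tt_meas (n : ℕ) (v u : V) : MeasurableSet (tt n v u) := by
  unfold tt
  split_ifs
  · exact measurableSet_Iic
  · exact measurableSet_Ioi
  · exact measurableSet_Ioc
  · exact measurableSet_Ioc
  · exact measurableSet_Ioc
  · exact measurableSet_Ioi

/-- The seed at `v` is the unique seed of the annulus. -/
@[irreducible] def Fn (n : ℕ) (v : V) : Set Om := {ω | ∀ u ∈ An n, ω u ∈ tt n v u}

/-- The good event. -/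
@[irreducible] def En (n : ℕ) : Set Om := {ω | ∃ v ∈ Wn n, ω ∈ Fn n v}

lemma q1_lt_q2 : q1 < q2 := by
  rw [← Subtype.coe_lt_coe]; norm_num [q1, q2]
lemma q2_lt_q3 : q2 < q3 := by
  rw [← Subtype.coe_lt_coe]; norm_num [q2, q3]

lemma tt_self (n : ℕ) (v : V) : tt n v v = Set.Iic (thr (n + 1)) := by unfold tt; exact if_pos rfl

lemma mem_Fn {n : ℕ} {v : V} {ω : Om} : ω ∈ Fn n v ↔ ∀ u ∈ An n, ω u ∈ tt n v u := by
  unfold Fn; rfl

/-- Away from the seed all values are above the threshold. -/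
lemma tt_other {n : ℕ} {v u : V} (h : u ≠ v) : tt n v u ⊆ Set.Ioi (thr (n + 1)) := by
  have h1 := thr_le_q1 (n + 1)
  have h2 := q1_lt_q2
  have h3 := q2_lt_q3
  unfold tt
  rw [if_neg h]
  intro x hx
  rw [Set.mem_Ioi]
  split_ifs at hx
  · exact ((h1.trans_lt h2).trans h3).trans hx
  · exact (h1.trans_lt h2).trans hx.1
  · exact h1.trans_lt hx.1
  · exact h1.trans_lt hx.1
  · exact hx

lemma vol_tt_ge (n : ℕ) (v u : V) : ENNReal.ofReal ((if u = v then (thr (n + 1) : ℝ) else 1) *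
    (if u = (v.1 + 1, v.2) then 1 / 4 else 1) * (if u = (v.1, v.2 + 1) then 1 / 4 else 1) *
    (if u = (v.1 - 1, v.2) then 1 / 4 else 1) * (if u = (v.1, v.2 - 1) then 1 / 4 else 1) *
    (1 - (thr (n + 1) : ℝ))) ≤ volume (tt n v u) := by
  have ha0 : (0 : ℝ) ≤ thr (n + 1) := (thr (n + 1)).2.1
  have ha1 := thr_le_quarter (n + 1)
  have e1 : ((v.1, v.2) : V) = v := rfl
  have d1 : ((v.1 + 1, v.2) : V) ≠ v := ne_of_fst (by dsimp only; omega)
  have d2 : ((v.1, v.2 + 1) : V) ≠ v := ne_of_snd (by dsimp only; omega)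
  have d3 : ((v.1 - 1, v.2) : V) ≠ v := ne_of_fst (by dsimp only; omega)
  have d4 : ((v.1, v.2 - 1) : V) ≠ v := ne_of_snd (by dsimp only; omega)
  have d12 : ((v.1 + 1, v.2) : V) ≠ (v.1, v.2 + 1) := ne_of_fst (by dsimp only; omega)
  have d13 : ((v.1 + 1, v.2) : V) ≠ (v.1 - 1, v.2) := ne_of_fst (by dsimp only; omega)
  have d14 : ((v.1 + 1, v.2) : V) ≠ (v.1, v.2 - 1) := ne_of_fst (by dsimp only; omega)
  have d23 : ((v.1, v.2 + 1) : V) ≠ (v.1 - 1, v.2) := ne_of_fst (by dsimp only; omega)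
  have d24 : ((v.1, v.2 + 1) : V) ≠ (v.1, v.2 - 1) := ne_of_snd (by dsimp only; omega)
  have d34 : ((v.1 - 1, v.2) : V) ≠ (v.1, v.2 - 1) := ne_of_fst (by dsimp only; omega)
  unfold tt
  by_cases h0 : u = v
  · subst h0
    rw [if_pos rfl, if_pos rfl, if_neg d1.symm, if_neg d2.symm, if_neg d3.symm, if_neg d4.symm,
      unitInterval.volume_Iic]
    apply ENNReal.ofReal_le_ofReal
    nlinarith
  · rw [if_neg h0, if_neg h0]
    by_cases h1 : u = (v.1 + 1, v.2)
    · subst h1
      rw [if_pos rfl, if_pos rfl, if_neg d12, if_neg d13, if_neg d14, unitInterval.volume_Ioi]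
      apply ENNReal.ofReal_le_ofReal
      have : (q3 : ℝ) = 3 / 4 := rfl
      rw [this]; linarith
    · rw [if_neg h1, if_neg h1]
      by_cases h2 : u = (v.1, v.2 + 1)
      · subst h2
        rw [if_pos rfl, if_pos rfl, if_neg d23, if_neg d24, unitInterval.volume_Ioc]
        apply ENNReal.ofReal_le_ofReal
        have e3 : (q3 : ℝ) = 3 / 4 := rfl
        have e2 : (q2 : ℝ) = 1 / 2 := rfl
        rw [e3, e2]; linarith
      · rw [if_neg h2, if_neg h2]
        by_cases h3 : u = (v.1 - 1, v.2)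
        · subst h3
          rw [if_pos rfl, if_pos rfl, if_neg d34, unitInterval.volume_Ioc]
          apply ENNReal.ofReal_le_ofReal
          have e1 : (q1 : ℝ) = 1 / 4 := rfl
          have e2 : (q2 : ℝ) = 1 / 2 := rfl
          rw [e1, e2]; linarith
        · rw [if_neg h3, if_neg h3]
          by_cases h4 : u = (v.1, v.2 - 1)
          · subst h4
            rw [if_pos rfl, if_pos rfl, unitInterval.volume_Ioc]
            apply ENNReal.ofReal_le_ofReal
            have e1 : (q1 : ℝ) = 1 / 4 := rfl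
            have e2 : (q2 : ℝ) = 1 / 2 := rfl
            rw [e1, e2]; linarith
          · rw [if_neg h4, if_neg h4, unitInterval.volume_Ioi]
            apply ENNReal.ofReal_le_ofReal
            linarith

lemma card_An (n : ℕ) : (((An n).card : ℕ) : ℝ) * (thr (n + 1) : ℝ) ≤ 1 / 2 := by
  have h1 : (An n).card ≤ (Bf (4 * lZ (n + 1))).card := by
    unfold An; exact Finset.card_le_card Finset.sdiff_subset
  rw [thr_val]
  have hbig := lN_big (n + 1)
  have e : lZ (n + 1) = (lN (n + 1) : ℤ) := lZ_def _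
  rw [e] at h1
  generalize lN (n + 1) = L at *
  have hc := card_Bf (r := 4 * (L : ℤ)) (by omega)
  have h2 : (((An n).card : ℕ) : ℤ) ≤ 128 * (L : ℤ) ^ 2 := by
    have h3 : (((An n).card : ℕ) : ℤ) ≤ (((Bf (4 * (L : ℤ))).card : ℕ) : ℤ) := by exact_mod_cast h1
    rw [hc] at h3
    have : (1 : ℤ) ≤ L := by omega
    nlinarith
  have h4 : (((An n).card : ℕ) : ℝ) ≤ 128 * (L : ℝ) ^ 2 := by exact_mod_cast h2
  have hL : (0 : ℝ) < L := by exact_mod_cast (by omega : 0 < L)
  rw [mul_one_div, div_le_div_iff₀ (by positivity) (by norm_num)]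
  nlinarith

lemma prod_eq (n : ℕ) (v : V) (h0 : v ∈ An n) (h1 : ((v.1 + 1, v.2) : V) ∈ An n)
    (h2 : ((v.1, v.2 + 1) : V) ∈ An n) (h3 : ((v.1 - 1, v.2) : V) ∈ An n)
    (h4 : ((v.1, v.2 - 1) : V) ∈ An n) :
    ∏ u ∈ An n, ((if u = v then (thr (n + 1) : ℝ) else 1) *
    (if u = (v.1 + 1, v.2) then 1 / 4 else 1) * (if u = (v.1, v.2 + 1) then 1 / 4 else 1) *
    (if u = (v.1 - 1, v.2) then 1 / 4 else 1) * (if u = (v.1, v.2 - 1) then 1 / 4 else 1) *
    (1 - (thr (n + 1) : ℝ))) =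
      (thr (n + 1) : ℝ) * (1 / 4) * (1 / 4) * (1 / 4) * (1 / 4) *
        (1 - (thr (n + 1) : ℝ)) ^ (An n).card := by
  rw [Finset.prod_mul_distrib, Finset.prod_mul_distrib, Finset.prod_mul_distrib,
    Finset.prod_mul_distrib, Finset.prod_mul_distrib, Finset.prod_ite_eq', Finset.prod_ite_eq',
    Finset.prod_ite_eq', Finset.prod_ite_eq', Finset.prod_ite_eq', Finset.prod_const, if_pos h0,
    if_pos h1, if_pos h2, if_pos h3, if_pos h4]

lemma nbr_mem {n : ℕ} {v : V} (hv : v ∈ Wn n) {u : V} (hu : Near 1 v u) : u ∈ An n := by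
  rw [mem_Wn] at hv
  rw [mem_An]
  have h1 := four_qq n
  have h2 : 65536 * lZ n ≤ lZ (n + 1) := lZ_lt (Nat.lt_succ_self n)
  have h4 : (65536 : ℤ) ≤ lZ n := lZ_big n
  unfold Near at *
  dsimp only at *
  omega

lemma mu_Fn {n : ℕ} {v : V} (hv : v ∈ Wn n) :
    ENNReal.ofReal ((thr (n + 1) : ℝ) / 512) ≤ mu (Fn n v) := by
  have ha0 : (0 : ℝ) ≤ thr (n + 1) := (thr (n + 1)).2.1
  have ha1 := thr_le_quarter (n + 1)
  have e : mu (Fn n v) = ∏ u ∈ An n, volume (tt n v u) := by
    have := Measure.infinitePi_pi (μ := fun _ : V => (volume : Measure unitInterval))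
      (s := An n) (t := tt n v) (fun u _ => tt_meas n v u)
    rw [← this]
    unfold mu Fn
    rfl
  rw [e]
  have h1 : ∏ u ∈ An n, ENNReal.ofReal ((if u = v then (thr (n + 1) : ℝ) else 1) *
    (if u = (v.1 + 1, v.2) then 1 / 4 else 1) * (if u = (v.1, v.2 + 1) then 1 / 4 else 1) *
    (if u = (v.1 - 1, v.2) then 1 / 4 else 1) * (if u = (v.1, v.2 - 1) then 1 / 4 else 1) *
    (1 - (thr (n + 1) : ℝ))) ≤ ∏ u ∈ An n, volume (tt n v u) :=
    Finset.prod_le_prod' fun u _ => vol_tt_ge n v u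
  refine le_trans ?_ h1
  rw [← ENNReal.ofReal_prod_of_nonneg, prod_eq n v (nbr_mem hv (by unfold Near; omega))
    (nbr_mem hv (by unfold Near; dsimp only; omega)) (nbr_mem hv (by unfold Near; dsimp only; omega))
    (nbr_mem hv (by unfold Near; dsimp only; omega)) (nbr_mem hv (by unfold Near; dsimp only; omega))]
  · apply ENNReal.ofReal_le_ofReal
    have hb := one_add_mul_le_pow (a := -(thr (n + 1) : ℝ)) (by linarith) (An n).card
    have hc := card_An n
    have hd : 1 / 2 ≤ (1 - (thr (n + 1) : ℝ)) ^ (An n).card := by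
      rw [← sub_eq_add_neg] at hb
      linarith
    nlinarith
  · intro u _
    have h1 : (0 : ℝ) ≤ 1 - thr (n + 1) := by linarith
    split_ifs <;> positivity

lemma card_Wn (n : ℕ) : (((Wn n).card : ℕ) : ℝ) = (lN (n + 1) : ℝ) ^ 2 / 16 := by
  have h := four_qq n
  have h0 : 0 ≤ qq n := by unfold qq; positivity
  have e : lZ (n + 1) = (lN (n + 1) : ℤ) := lZ_def _
  rw [e] at h
  unfold Wn
  rw [Finset.card_product, Int.card_Ico, Int.card_Ico]
  generalize lN (n + 1) = L at *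
  have e1 : ((2 * qq n - qq n).toNat : ℤ) = qq n := by omega
  have e2 : ((qq n - 0).toNat : ℤ) = qq n := by omega
  generalize (2 * qq n - qq n).toNat = A at *
  generalize (qq n - 0).toNat = B at *
  have e3 : (A : ℝ) = (qq n : ℝ) := by exact_mod_cast e1
  have e4 : (B : ℝ) = (qq n : ℝ) := by exact_mod_cast e2
  have e5 : (4 : ℝ) * (qq n : ℝ) = L := by exact_mod_cast h
  push_cast
  rw [e3, e4, ← e5]
  ring

/-- The σ-algebra generated by the coordinates in `A`. -/
@[irreducible] def Fs (A : Set V) : MeasurableSpace Om :=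
  ⨆ u ∈ A, MeasurableSpace.comap (fun ω : Om => ω u) inferInstance

lemma Fs_coord {A : Set V} {u : V} (hu : u ∈ A) {s : Set unitInterval} (hs : MeasurableSet s) :
    MeasurableSet[Fs A] {ω : Om | ω u ∈ s} := by
  have h : MeasurableSpace.comap (fun ω : Om => ω u) inferInstance ≤ Fs A := by
    unfold Fs
    exact le_iSup₂ (f := fun (u : V) (_ : u ∈ A) =>
      MeasurableSpace.comap (fun ω : Om => ω u) inferInstance) u hu
  exact h _ ⟨s, hs, rfl⟩

lemma Fs_le (A : Set V) : Fs A ≤ (inferInstance : MeasurableSpace Om) := by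
  unfold Fs
  refine iSup₂_le fun u _ => ?_
  exact (measurable_pi_apply u).comap_le

lemma Fs_mono {A B : Set V} (h : A ⊆ B) : Fs A ≤ Fs B := by
  unfold Fs
  refine iSup₂_le fun u hu => ?_
  exact le_iSup₂ (f := fun (u : V) (_ : u ∈ B) =>
      MeasurableSpace.comap (fun ω : Om => ω u) inferInstance) u (h hu)

lemma Fn_meas (n : ℕ) (v : V) : MeasurableSet[Fs (An n)] (Fn n v) := by
  have : Fn n v = ⋂ u ∈ An n, {ω : Om | ω u ∈ tt n v u} := by
    ext ω
    rw [mem_Fn]
    simp only [Set.mem_iInter, Set.mem_ofPred_eq]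
  rw [this]
  exact MeasurableSet.biInter (m := Fs (An n)) (An n).countable_toSet
    fun u hu => Fs_coord hu (tt_meas n v u)

lemma En_eq (n : ℕ) : En n = ⋃ v ∈ Wn n, Fn n v := by
  ext ω; simp [En]

lemma En_meas (n : ℕ) : MeasurableSet[Fs (An n)] (En n) := by
  rw [En_eq]
  exact MeasurableSet.biUnion (m := Fs (An n)) (Wn n).countable_toSet fun v _ => Fn_meas n v

lemma Fn_disjoint {n : ℕ} {v v' : V} (hv : v ∈ Wn n) (hne : v ≠ v') :
    Disjoint (Fn n v) (Fn n v') := by
  rw [Set.disjoint_left]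
  intro ω h h'
  have hvA : v ∈ An n := nbr_mem hv (by unfold Near; omega)
  rw [mem_Fn] at h h'
  have h1 := h v hvA
  have h2 := tt_other hne (h' v hvA)
  rw [tt_self, Set.mem_Iic] at h1
  rw [Set.mem_Ioi] at h2
  exact absurd h1 (not_le.2 h2)

lemma mu_En (n : ℕ) : ENNReal.ofReal (1 / 2097152) ≤ mu (En n) := by
  rw [En_eq, measure_biUnion_finset (fun v hv v' _ hne => Fn_disjoint hv hne)
    (fun v _ => Fs_le _ _ (Fn_meas n v))]
  have h1 : ∑ _v ∈ Wn n, ENNReal.ofReal ((thr (n + 1) : ℝ) / 512) ≤ ∑ v ∈ Wn n, mu (Fn n v) :=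
    Finset.sum_le_sum fun v hv => mu_Fn hv
  refine le_trans ?_ h1
  rw [Finset.sum_const, nsmul_eq_mul, ← ENNReal.ofReal_natCast,
    ← ENNReal.ofReal_mul (by positivity)]
  apply ENNReal.ofReal_le_ofReal
  rw [card_Wn, thr_val]
  have hL := lN_pos (n + 1)
  generalize lN (n + 1) = L at *
  apply le_of_eq
  field_simp
  norm_num

lemma An_disjoint {n m : ℕ} (h : n < m) : ∀ u ∈ An n, u ∉ An m := by
  intro u hu hu'
  rw [mem_An] at hu hu'
  have h1 : lZ (n + 1) ≤ lZ m := lZ_mono h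
  refine hu'.2 (hu.1.mono ?_)
  omega

lemma An_disjoint' {n m : ℕ} (h : n ≠ m) : ∀ u ∈ An n, u ∉ An m := by
  rcases lt_or_gt_of_ne h with h | h
  · exact An_disjoint h
  · intro u hu hu'
    exact An_disjoint h u hu' hu

lemma indep_coord : iIndep (fun u : V =>
    MeasurableSpace.comap (fun ω : Om => ω u) inferInstance) mu := by
  have h : iIndepFun (fun (u : V) (ω : Om) => ω u) mu :=
    iIndepFun_infinitePi (P := fun _ : V => (volume : Measure unitInterval))
      (X := fun (_ : V) (x : unitInterval) => x) (fun _ => measurable_id)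
  exact h.iIndep

lemma En_indep : iIndepSet En mu := by
  rw [iIndepSet_iff_meas_biInter (fun n => Fs_le _ _ (En_meas n))]
  intro s
  induction s using Finset.induction_on with
  | empty => simp
  | insert a s ha ih =>
    rw [Finset.prod_insert ha, ← ih, Finset.set_biInter_insert]
    have hdis : Disjoint (↑(An a) : Set V) (⋃ i ∈ s, ↑(An i)) := by
      rw [Set.disjoint_left]
      intro u hu hu'
      rw [Set.mem_iUnion₂] at hu'
      obtain ⟨i, hi, hi'⟩ := hu'
      have hne : a ≠ i := by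
        rintro rfl
        exact ha hi
      exact An_disjoint' hne u hu hi'
    have hind : Indep (Fs (An a)) (Fs (⋃ i ∈ s, ↑(An i))) mu := by
      unfold Fs
      exact indep_iSup_of_disjoint (fun u => (measurable_pi_apply u).comap_le) indep_coord hdis
    refine (Indep_iff _ _ _).1 hind _ _ (En_meas a) ?_
    refine MeasurableSet.biInter (m := Fs (⋃ i ∈ s, ↑(An i))) s.countable_toSet fun i hi => ?_
    refine Fs_mono ?_ _ (En_meas i)
    intro u hu
    exact Set.mem_iUnion₂.2 ⟨i, hi, hu⟩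

lemma En_frequently : ∀ᵐ ω ∂mu, ∃ᶠ n in Filter.atTop, ω ∈ En n := by
  have h := measure_limsup_eq_one (fun n => Fs_le _ _ (En_meas n)) En_indep (by
    have h1 : (∑' _n : ℕ, ENNReal.ofReal (1 / 2097152)) = ⊤ :=
      ENNReal.tsum_const_eq_top_of_ne_zero (by
        rw [Ne, ENNReal.ofReal_eq_zero]; norm_num)
    rw [← top_le_iff, ← h1]
    exact ENNReal.tsum_le_tsum mu_En)
  have h2 := (prob_compl_eq_zero_iff₀ (MeasurableSet.measurableSet_limsup
    (fun n => Fs_le _ _ (En_meas n))).nullMeasurableSet).2 h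
  rw [ae_iff]
  refine measure_mono_null ?_ h2
  intro ω hω
  rw [Set.mem_ofPred_eq] at hω
  rw [Set.mem_compl_iff, Filter.mem_limsup_iff_frequently_mem]
  exact hω

end Pool.Agent.Schreier60
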