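import Pool.Agent.Schreier60.Piece

set_option autoImplicit false

namespace Pool.Agent.Schreier60

open Equiv Equiv.Perm

/-- The configuration space. -/
abbrev Om := V → unitInterval

/-- The configuration seen through `g`. -/
def sh (ω : Om) (g : Perm V) : Om := fun v => ω (g v)

lemma sh_mul (ω : Om) (g h : Perm V) : sh ω (g * h) = sh (sh ω g) h := rfl
lemma sh_one (ω : Om) : sh ω 1 = ω := rfl

/-- Separation of two sets. -/
def Sep (A B : Set V) : Prop := ∀ u ∈ A, ∀ v ∈ B, ¬ Near 30 u v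

/-- Deep inclusion. -/
def Ins (A B : Set V) : Prop := ∀ u ∈ A, ∀ v, Near 30 u v → v ∈ B

lemma Ins.sub {A B : Set V} (h : Ins A B) : A ⊆ B := fun u hu =>
  h u hu u (near_refl (by norm_num) u)

lemma Sep.image {A B : Set V} (h : Sep A B) {g : Perm V} (hg : IsAut g) :
    Sep (g '' A) (g '' B) := by
  rintro _ ⟨u, hu, rfl⟩ _ ⟨v, hv, rfl⟩
  rw [hg.near]
  exact h u hu v hv

lemma Ins.image {A B : Set V} (h : Ins A B) {g : Perm V} (hg : IsAut g) :
    Ins (g '' A) (g '' B) := by
  rintro _ ⟨u, hu, rfl⟩ v hv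
  have e : v = g (g⁻¹ v) := by simp
  rw [e] at hv ⊢
  rw [hg.near] at hv
  exact ⟨_, h u hu _ hv, rfl⟩

lemma Sep.symm {A B : Set V} (h : Sep A B) : Sep B A := fun u hu v hv hn => h v hv u hu hn.symm

lemma inv_image_image (g h : Perm V) (A : Set V) : g '' ((g⁻¹ * h) '' A) = h '' A := by
  rw [← image_mul]
  congr 2
  group

section toast

variable (ell : ℕ → ℤ) (S : ℕ → Set Om)

/-- The configurations for which the seed in the standard position survives. -/
def Tset (n : ℕ) : Set Om :=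
  {ω | ω ∈ S n ∧ ∀ m, n ≤ m → ∀ h : Perm V, IsAut h → sh ω h ∈ S m → ¬ (m = n ∧ h = 1) →
    Sep (Box (ell n)) (h '' Box (ell m)) ∨ (n < m ∧ Ins (Box (ell n)) (h '' Box (ell m)))}

variable {ell S}

lemma pairwise_T {ω : Om} {n m : ℕ} {g h : Perm V} (hg : IsAut g) (hh : IsAut h)
    (hgT : sh ω g ∈ Tset ell S n) (hhT : sh ω h ∈ Tset ell S m) (hnm : n ≤ m)
    (hne : ¬ (m = n ∧ h = g)) :
    Sep (g '' Box (ell n)) (h '' Box (ell m)) ∨
      (n < m ∧ Ins (g '' Box (ell n)) (h '' Box (ell m))) := by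
  have h1 : sh (sh ω g) (g⁻¹ * h) ∈ S m := by
    rw [← sh_mul, mul_inv_cancel_left]
    exact hhT.1
  have h2 := hgT.2 m hnm (g⁻¹ * h) (hg.inv.mul hh) h1 (by
    rintro ⟨e1, e2⟩
    apply hne
    refine ⟨e1, ?_⟩
    rw [inv_mul_eq_one] at e2
    exact e2.symm)
  rcases h2 with h2 | ⟨h2, h3⟩
  · left
    have := h2.image hg
    rwa [inv_image_image] at this
  · right
    refine ⟨h2, ?_⟩
    have := h3.image hg
    rwa [inv_image_image] at this

variable (ell S)

/-- Maximal surviving pieces of level below `n` inside the standard box of level `n`. -/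
structure Child (ω : Om) (n m : ℕ) (h : Perm V) : Prop where
  aut : IsAut h
  lt : m < n
  mem : sh ω h ∈ Tset ell S m
  ins : Ins (h '' Box (ell m)) (Box (ell n))
  max : ∀ m' h', m < m' → m' < n → IsAut h' → sh ω h' ∈ Tset ell S m' →
    Ins (h' '' Box (ell m')) (Box (ell n)) → ¬ h '' Box (ell m) ⊆ h' '' Box (ell m')

/-- The decoration of the standard box of level `n`, chosen recursively. -/
noncomputable def deco (n : ℕ) : Om → Perm V × Perm V := fun ω =>
  Classical.epsilon (fun y => VP (ell n) y ∧ ∀ (m : ℕ) (_ : m < n) (h : Perm V),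
    Child ell S ω n m h → PExt (ell m) h (deco m (sh ω h)) (ell n) y)
termination_by n

lemma deco_eq (n : ℕ) (ω : Om) : deco ell S n ω =
    Classical.epsilon (fun y => VP (ell n) y ∧ ∀ (m : ℕ) (_ : m < n) (h : Perm V),
      Child ell S ω n m h → PExt (ell m) h (deco ell S m (sh ω h)) (ell n) y) := by
  rw [deco]

variable {ell S}

lemma deco_spec (hell : ∀ n, ell n % 2 = 0 ∧ 2 ≤ ell n) (n : ℕ) : ∀ ω : Om,
    VP (ell n) (deco ell S n ω) ∧ ∀ (m : ℕ) (h : Perm V),
      Child ell S ω n m h → PExt (ell m) h (deco ell S m (sh ω h)) (ell n) (deco ell S n ω) := by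
  induction n using Nat.strong_induction_on with
  | _ n ih =>
    intro ω
    have hex : ∃ y, VP (ell n) y ∧ ∀ (m : ℕ) (_ : m < n) (h : Perm V),
        Child ell S ω n m h → PExt (ell m) h (deco ell S m (sh ω h)) (ell n) y := by
      obtain ⟨y, hy1, hy2⟩ := exists_piece (ι := {j : ℕ × Perm V // Child ell S ω n j.1 j.2})
        (l := ell n) (hell n).1 (hell n).2 (fun j => ell j.1.1)
        (fun j => ⟨(hell _).1, by have := (hell j.1.1).2; omega⟩) (fun j => j.1.2)
        (fun j => j.2.aut) (fun j => deco ell S j.1.1 (sh ω j.1.2))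
        (fun j => (ih j.1.1 j.2.lt _).1) (fun j => j.2.ins)
        (by
          have key : ∀ i j : {j : ℕ × Perm V // Child ell S ω n j.1 j.2}, i ≠ j →
              i.1.1 ≤ j.1.1 → Sep (i.1.2 '' Box (ell i.1.1)) (j.1.2 '' Box (ell j.1.1)) := by
            rintro ⟨⟨m, h⟩, hc⟩ ⟨⟨m', h'⟩, hc'⟩ hne hle
            dsimp only at hc hc' hle ⊢
            rcases pairwise_T hc.aut hc'.aut hc.mem hc'.mem hle (by
              rintro ⟨rfl, rfl⟩; exact hne rfl) with h1 | ⟨h1, h2⟩
            · exact h1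
            · exact absurd h2.sub (hc.max m' h' h1 hc'.lt hc'.aut hc'.mem hc'.ins)
          intro i j hij
          rcases le_total i.1.1 j.1.1 with hle | hle
          · exact key i j hij hle
          · exact (key j i (Ne.symm hij) hle).symm)
      exact ⟨y, hy1, fun m _ h hc => hy2 ⟨(m, h), hc⟩⟩
    have := Classical.epsilon_spec hex
    rw [← deco_eq] at this
    exact ⟨this.1, fun m h hc => this.2 m hc.lt h hc⟩

lemma ins_cor {h : Perm V} {l l' : ℤ} (hi : Ins (h '' Box l) (Box l')) {v : V} (hv : v ∈ Box l) :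
    h v ∈ Cor l' := by
  have hm : h v ∈ h '' Box l := ⟨v, hv, rfl⟩
  generalize h v = w at hm
  obtain ⟨a, b⟩ := w
  have h1 := hi _ hm (a - 2, b - 2) (by unfold Near; dsimp only; omega)
  have h2 := hi _ hm (a + 2, b + 2) (by unfold Near; dsimp only; omega)
  rw [mem_box] at h1 h2
  rw [mem_cor]
  dsimp only at h1 h2 ⊢
  omega

lemma consist (hell : ∀ n, ell n % 2 = 0 ∧ 2 ≤ ell n) (n : ℕ) : ∀ (ω : Om) (m : ℕ) (h : Perm V),
    m < n → IsAut h → sh ω h ∈ Tset ell S m → Ins (h '' Box (ell m)) (Box (ell n)) →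
      PExt (ell m) h (deco ell S m (sh ω h)) (ell n) (deco ell S n ω) := by
  induction n using Nat.strong_induction_on with
  | _ n ih =>
    intro ω m h hmn hh hT hI
    by_cases hc : Child ell S ω n m h
    · exact (deco_spec hell n ω).2 m h hc
    · have hne : ∃ m', m' < n ∧ m < m' ∧ ∃ h', IsAut h' ∧ sh ω h' ∈ Tset ell S m' ∧
          Ins (h' '' Box (ell m')) (Box (ell n)) ∧ h '' Box (ell m) ⊆ h' '' Box (ell m') := by
        by_contra hcon
        apply hc
        refine ⟨hh, hmn, hT, hI, ?_⟩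
        intro m' h' h1 h2 h3 h4 h5 h6
        exact hcon ⟨m', h2, h1, h', h3, h4, h5, h6⟩
      -- the largest such level
      obtain ⟨m', ⟨h1, h2, h', h3, h4, h5, h6⟩, hmax⟩ : ∃ m', (m' < n ∧ m < m' ∧ ∃ h', IsAut h' ∧
          sh ω h' ∈ Tset ell S m' ∧ Ins (h' '' Box (ell m')) (Box (ell n)) ∧
          h '' Box (ell m) ⊆ h' '' Box (ell m')) ∧ ∀ k, m' < k → ¬ (k < n ∧ m < k ∧
          ∃ h', IsAut h' ∧ sh ω h' ∈ Tset ell S k ∧ Ins (h' '' Box (ell k)) (Box (ell n)) ∧
          h '' Box (ell m) ⊆ h' '' Box (ell k)) := by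
        classical
        refine ⟨Nat.findGreatest (fun m' => m' < n ∧ m < m' ∧ ∃ h', IsAut h' ∧
          sh ω h' ∈ Tset ell S m' ∧ Ins (h' '' Box (ell m')) (Box (ell n)) ∧
          h '' Box (ell m) ⊆ h' '' Box (ell m')) n, ?_, ?_⟩
        · obtain ⟨m', hm'⟩ := hne
          exact Nat.findGreatest_spec (P := fun m' => m' < n ∧ m < m' ∧ ∃ h', IsAut h' ∧
            sh ω h' ∈ Tset ell S m' ∧ Ins (h' '' Box (ell m')) (Box (ell n)) ∧
            h '' Box (ell m) ⊆ h' '' Box (ell m')) hm'.1.le hm'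
        · intro k hk hk'
          exact Nat.findGreatest_is_greatest hk hk'.1.le hk'
      have hchild : Child ell S ω n m' h' := by
        refine ⟨h3, h1, h4, h5, ?_⟩
        intro m'' h'' k1 k2 k3 k4 k5 k6
        exact hmax m'' k1 ⟨k2, h2.trans k1, h'', k3, k4, k5, h6.trans k6⟩
      obtain ⟨q1, q2⟩ := (deco_spec hell n ω).2 m' h' hchild
      -- apply the induction hypothesis at level `m'`
      have hbox0 : ((0, 0) : V) ∈ Box (ell m) := by
        rw [mem_box]; have := (hell m).2; dsimp only; omega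
      have hIns : Ins (h '' Box (ell m)) (h' '' Box (ell m')) := by
        rcases pairwise_T hh h3 hT h4 h2.le (fun e => by omega) with k | ⟨-, k⟩
        · exfalso
          exact k _ ⟨_, hbox0, rfl⟩ _ (h6 ⟨_, hbox0, rfl⟩) (near_refl (by norm_num) _)
        · exact k
      have hIns' : Ins ((h'⁻¹ * h) '' Box (ell m)) (Box (ell m')) := by
        have := hIns.image h3.inv
        rw [← image_mul, ← image_mul, inv_mul_cancel] at this
        simpa using this
      have hsh : sh (sh ω h') (h'⁻¹ * h) = sh ω h := by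
        rw [← sh_mul, mul_inv_cancel_left]
      obtain ⟨r1, r2⟩ := ih m' h1 (sh ω h') m (h'⁻¹ * h) h2 (h3.inv.mul hh) (by rw [hsh]; exact hT)
        hIns'
      rw [hsh] at r1 r2
      have hbdne : (bd (h' '' Box (ell m'))).Nonempty := by
        rw [bd_image h3]
        have := (hell m').2
        exact (bd_rect_nonempty (by omega) (by omega)).image _
      have r3 := (r1.conj h3)
      rw [inv_image_image] at r3
      have e : h' * (h'⁻¹ * h * (deco ell S m (sh ω h)).1 * (h'⁻¹ * h)⁻¹) * h'⁻¹ =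
          h * (deco ell S m (sh ω h)).1 * h⁻¹ := by group
      rw [e] at r3
      refine ⟨r3.trans q1 hbdne, ?_⟩
      intro v hv
      have hcor : (h'⁻¹ * h) v ∈ Cor (ell m') := ins_cor hIns' (cor_subset_box _ hv)
      have k1 := q2 _ hcor
      have k2 := r2 v hv
      have e1 : h' ((h'⁻¹ * h) v) = h v := by simp
      rw [e1, k2] at k1
      rw [k1]
      simp

variable (ell S)

/-- Red permutation of the piece of level `n` at `g`. -/
noncomputable def red (n : ℕ) (g : Perm V) (ω : Om) : Perm V := g * (deco ell S n (sh ω g)).1 * g⁻¹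
/-- Blue permutation of the piece of level `n` at `g`. -/
noncomputable def blu (n : ℕ) (g : Perm V) (ω : Om) : Perm V := g * (deco ell S n (sh ω g)).2 * g⁻¹

/-- `g` is a surviving frame of level `n`. -/
def TT (n : ℕ) (g : Perm V) (ω : Om) : Prop := IsAut g ∧ sh ω g ∈ Tset ell S n

variable {ell S}

lemma consist_placed (hell : ∀ n, ell n % 2 = 0 ∧ 2 ≤ ell n) {ω : Om} {n m : ℕ} {g h : Perm V}
    (hg : TT ell S n g ω) (hh : TT ell S m h ω) (hmn : m < n)
    (hI : Ins (h '' Box (ell m)) (g '' Box (ell n))) :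
    Ext (h '' Box (ell m)) (red ell S m h ω) (g '' Box (ell n)) (red ell S n g ω) ∧
      ∀ v ∈ h '' Cor (ell m), blu ell S n g ω v = blu ell S m h ω v := by
  have hIns' : Ins ((g⁻¹ * h) '' Box (ell m)) (Box (ell n)) := by
    have := hI.image hg.1.inv
    rw [← image_mul, ← image_mul, inv_mul_cancel] at this
    simpa using this
  have hsh : sh (sh ω g) (g⁻¹ * h) = sh ω h := by
    rw [← sh_mul, mul_inv_cancel_left]
  obtain ⟨r1, r2⟩ := consist hell n (sh ω g) m (g⁻¹ * h) hmn (hg.1.inv.mul hh.1)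
    (by rw [hsh]; exact hh.2) hIns'
  rw [hsh] at r1 r2
  constructor
  · have r3 := r1.conj hg.1
    rw [inv_image_image] at r3
    have e : g * (g⁻¹ * h * (deco ell S m (sh ω h)).1 * (g⁻¹ * h)⁻¹) * g⁻¹ = red ell S m h ω := by
      unfold red; group
    rw [e] at r3
    exact r3
  · rintro _ ⟨v, hv, rfl⟩
    have k2 := r2 v hv
    have e1 : h v = g ((g⁻¹ * h) v) := by simp
    have e2 : blu ell S m h ω (h v) = h ((deco ell S m (sh ω h)).2 v) := conj_apply _ _ _
    rw [e2, e1]
    unfold blu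
    rw [conj_apply, k2]
    simp

lemma agree_cor (hell : ∀ n, ell n % 2 = 0 ∧ 2 ≤ ell n) {ω : Om} {n m : ℕ} {g h : Perm V}
    (hg : TT ell S n g ω) (hh : TT ell S m h ω) {v : V} (hv : v ∈ g '' Cor (ell n))
    (hv' : v ∈ h '' Cor (ell m)) :
    red ell S n g ω v = red ell S m h ω v ∧ blu ell S n g ω v = blu ell S m h ω v := by
  -- symmetric reduction
  have key : ∀ {n m : ℕ} {g h : Perm V}, TT ell S n g ω → TT ell S m h ω → v ∈ g '' Cor (ell n) →
      v ∈ h '' Cor (ell m) → m ≤ n →
      red ell S n g ω v = red ell S m h ω v ∧ blu ell S n g ω v = blu ell S m h ω v := by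
    intro n m g h hg hh hv hv' hmn
    by_cases he : n = m ∧ g = h
    · obtain ⟨rfl, rfl⟩ := he
      exact ⟨rfl, rfl⟩
    · rcases pairwise_T hh.1 hg.1 hh.2 hg.2 hmn he with k | ⟨k, k'⟩
      · exact absurd (near_refl (by norm_num) v) (k v (Set.image_mono (cor_subset_box _) hv') v
          (Set.image_mono (cor_subset_box _) hv))
      · obtain ⟨r1, r2⟩ := consist_placed hell hg hh k k'
        refine ⟨r1.agree v (Set.image_mono (cor_subset_box _) hv') ?_, r2 v hv'⟩
        rw [bd_image hh.1]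
        rintro ⟨z, hz, hz'⟩
        obtain ⟨w, hw, hw'⟩ := hv'
        have : z = w := h.injective (hz'.trans hw'.symm)
        subst this
        rw [mem_bd_box] at hz
        rw [mem_cor] at hw
        omega
  rcases le_total m n with hle | hle
  · exact key hg hh hv hv' hle
  · have := key hh hg hv' hv hle
    exact ⟨this.1.symm, this.2.symm⟩

end toast

end Pool.Agent.Schreier60
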